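import Pool.Agent.SYM.V3P.GeoD

/-!
# SYM/V3P/HKD : the data of hyperkähler metrics of one class of varieties, and of degenerations
-/

set_option autoImplicit false

namespace Pool.Agent

/-- The complex vector space `ℂ^{2n}`. -/
abbrev SYM.CV (n : ℕ) : Type := Fin (2 * n) → ℂ

namespace SYP

open SYM (CV)

/-- The cohomology group `H²(X, ℝ) = ℝ^b`. -/
abbrev Vec (b : ℕ) : Type := Fin b → ℝ

/-- `v` is in the lattice `H²(X, ℤ) = ℤ^b`. -/
def IsIntegral {b : ℕ} (v : Vec b) : Prop := ∀ k, ∃ m : ℤ, v k = m

/-- three forms of degree 2 on `ℂ^{2n}`: the value of the form `c` at `w` on `u, v` -/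
abbrev Forms (n : ℕ) : Type := Fin 3 → CV n → CV n → CV n → ℝ

/-- the value of a class of `H²(X, ℝ)` on the real 2-tori in the directions `j`, `l` -/
abbrev Res (n b : ℕ) : Type := Vec b → Fin (2 * n) → Fin (2 * n) → ℝ

/-- The hyperkähler structures of a class of varieties of dimension `2n` with the same space `X`:
`X` is a compact manifold, or the regular part of a compact variety. -/
structure HKData (n b : ℕ) where
  /-- the space `X` and its Ricci-flat Kähler metrics -/
  D : Geo2 (2 * n)
  /-- the marked hyperkähler structures `h = (g, I, J, K)` -/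
  HK : Type
  /-- the classes of the Kähler forms `ω_I, ω_J, ω_K` of `h` -/
  cls : HK → Fin 3 → Vec b
  /-- the Kähler metric `g` of `h` with the complex structure `J` -/
  met : HK → D.Met
  /-- `IsChart h φ U om r`: `φ` is a `J`-holomorphic covering of an open subset of `X` by the
  connected open set `U = U + iℝ^{2n}` of `ℂ^{2n}`, with deck group `2πi ℤ^{2n}`; `om` is the
  pull-back of the Kähler forms `ω_I, ω_J, ω_K` of `h`, and `r a j l` is the value of the class
  `a` of `H²(X, ℝ)` on the real 2-tori in the directions `j`, `l` of the chart -/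
  IsChart : HK → (CV n → D.X) → Set (CV n) → Forms n → Res n b → Prop
  /-- `(X, I)` contains a complex torus as a Lagrangian submanifold, on which the class `a`
  restricts to zero -/
  LagTorus : HK → Vec b → Prop

/-- Data of a sequence of fibres `X_k = X_{t_k}`, `t_k → 0`, of a degeneration of `m`-dimensional
varieties: the metrics `M k` and `L k = |log |t_k||`; the functions `y_i = -log |s_{E_i}|` for the
components `E_0, ..., E_m`; the Fubini-Study form `θ = κ L⁻¹ ω + dd^c u` of the embedding
`𝒳 ⊂ P^N × Δ`; the inverse `φ` of the logarithmic coordinates `ζ_i = log w_i`, `i = 1, ..., m`, and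
the matrix `Z` whose rows are the forms `dζ_i` in the unitary frames. -/
structure Model {m : ℕ} (D : Geo2 m) where
  M : ℕ → D.Met
  L : ℕ → ℝ
  y : ℕ → Fin (m + 1) → D.X → ℝ
  κ : ℝ
  u : ℕ → D.X → ℝ
  φ : ℕ → (Fin m → ℂ) → D.X
  Z : ℕ → (Fin m → ℂ) → Matrix (Fin m) (Fin m) ℂ

namespace Model

variable {m : ℕ} {D : Geo2 m} (S : Model D)

/-- the Fubini-Study form `θ` -/
noncomputable def θ (k : ℕ) (x : D.X) : Matrix (Fin m) (Fin m) ℂ :=
  ((S.κ / S.L k : ℝ) : ℂ) • (1 : Matrix (Fin m) (Fin m) ℂ) + D.lev (S.M k) (S.u k) x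

/-- the domain of the logarithmic chart: `|w_i| < e^{-A}` for `i = 0, ..., m` -/
def U (A : ℝ) (k : ℕ) : Set (Fin m → ℂ) :=
  {w | (∀ i, (w i).re < -A) ∧ A < S.L k + ∑ i, (w i).re}

end Model

/-- A sequence of fibres of a projective degeneration near a deepest point: the data of `Model`, the
Kähler forms in the chart, and the restriction of cohomology classes to the real 2-tori of the
chart. -/
structure HKData.LogModel {n b : ℕ} (C : HKData n b) where
  mod : Model C.D
  om : ℕ → Forms n
  res : ℕ → Res n b

end SYP

end Pool.Agent
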