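import Pool.Agent.SYM.V3P.GeoP
import Pool.Agent.SYM.V3P.HKD

/-!
# SYM/V3P/HKP : hyperkähler metrics of one class of varieties, logarithmic models
-/

set_option autoImplicit false

open MeasureTheory Set Filter
open scoped ENNReal Topology Matrix ComplexOrder

namespace Pool.Agent.SYP

open SYM (CV)

section Triple

variable {n : ℕ}

/-- the vector `i u` -/
def iv (u : CV n) : CV n := fun j => Complex.I * u j

/-- the vector `c u + v` -/
def ax (c : ℝ) (u v : CV n) : CV n := fun j => c * u j + v j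

/-- the vector `i e_j` -/
def ib (j : Fin (2 * n)) : CV n := fun k => if k = j then Complex.I else 0

/-- a real bilinear form -/
abbrev Form (n : ℕ) : Type := CV n → CV n → ℝ

/-- `w` is in `U` -/
abbrev In (U : Set (CV n)) (w : CV n) : Prop := w ∈ U

/-- `g` is a scalar product on `ℂ^{2n}` and `Q 0 = I`, `Q 1 = J`, `Q 2 = K` is a linear
hyperkähler structure whose `J` is multiplication by `i`: skew isometries (so `I² = J² = K² = -1`)
with `I = J K`. -/
structure HKStr (g : Form n) (Q : Fin 3 → CV n → CV n) : Prop where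
  lin : ∀ c u v w, g (ax c u v) w = c * g u w + g v w
  symm : ∀ u v, g u v = g v u
  pos : ∀ u j, u j ≠ 0 → 0 < g u u
  skew : ∀ a u v, g (Q a u) v = - g u (Q a v)
  isometry : ∀ a u v, g (Q a u) (Q a v) = g u v
  quat : ∀ u, Q 1 u = iv u ∧ Q 0 u = iv (Q 2 u)

/-- `o 0, o 1, o 2` are the Kähler forms `ω_I, ω_J, ω_K` of a linear hyperkähler structure
`(g, I, J, K)` on `ℂ^{2n}` whose complex structure `J` is multiplication by `i`:
`ω_I(u, v) = g(I u, v)` etc. -/
def Flat (o : Fin 3 → Form n) : Prop := ∃ g Q, HKStr g Q ∧ ∀ a u v, o a u v = g (Q a u) v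

/-- `τ a w u v` is the value at the point `w` on the vectors `u, v` of the `a`-th form of a
hyperkähler triple (with `J` = multiplication by `i`) on the open set `U ⊆ ℂ^{2n}`: the forms are
smooth and closed, and form a linear triple at each point. -/
structure TripleP (U : Set (CV n)) (τ : Forms n) : Prop where
  isOpen : IsOpen U
  triple : ∀ w, In U w → Flat fun a => τ a w
  smooth : ∀ a u v, ContDiffOn ℝ (⊤ : ℕ∞) (fun w => τ a w u v) U
  closed : ∀ a u v x w, In U w → deriv (fun t => τ a (ax t x w) u v) 0 +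
    deriv (fun t => τ a (ax t u w) v x) 0 + deriv (fun t => τ a (ax t v w) x u) 0 = 0

/-- The integral of the form `τ` over the real 2-torus `{w + i s e_j + i t e_l}`,
`0 ≤ s, t ≤ 2π`. -/
noncomputable def per (τ : CV n → Form n) (w : CV n) (j l : Fin (2 * n)) : ℝ :=
  ∫ p in Icc (0 : ℝ) (2 * Real.pi) ×ˢ Icc (0 : ℝ) (2 * Real.pi),
    τ (ax p.1 (ib j) (ax p.2 (ib l) w)) (ib j) (ib l)

/-- real vectors -/
abbrev RV (n : ℕ) : Type := Fin (2 * n) → ℝ

/-- the vector `a + i b` -/
def cx (a b : RV n) : CV n := fun j => a j + Complex.I * b j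

/-- the derivative of `f` at `y` in the direction `u` -/
noncomputable def dv (f : RV n → RV n) (y u : RV n) : RV n := fun j =>
  deriv (fun t => f (fun i => y i + t * u i) j) 0

/-- `U` contains the ball of radius `8` with centre `w₀`, and `f` is a periodic `C¹` map: the graph
`y ↦ f(y) + i y` gives a torus near the flat torus `{Re w = Re w₀}` -/
def Graph (U : Set (CV n)) (w₀ : CV n) (f : RV n → RV n) : Prop :=
  (∀ w : CV n, (∀ j, ‖w j - w₀ j‖ < 8) → In U w) ∧ ContDiff ℝ 1 f ∧
    ∀ y j, |f y j - (w₀ j).re| < 1 ∧ f (fun i => y i + if i = j then 2 * Real.pi else 0) = f y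

end Triple

/-- the class `a` restricts to zero on the 2-tori -/
def Van {n b : ℕ} (r : Res n b) (a : Vec b) : Prop := ∀ j l, r a j l = 0

/-- What is known on the hyperkähler metrics of one class of varieties. -/
structure HKData.FactsP {n b : ℕ} (C : HKData n b) : Prop where
  rules : ∀ M, C.D.RulesP M
  heat : ∃ B, 0 < B ∧ ∀ M, C.D.HeatP M B
  regularity : C.D.RegularityP
  /-- the Kähler forms in a chart, and their periods; `U` is invariant under `iℝ^{2n}`, the forms
  are invariant under `2πi ℤ^{2n}` -/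
  chart : ∀ h φ U om r, C.IsChart h φ U om r → TripleP U om ∧ ∀ w, In U w →
    (∀ y : RV n, In U fun j => w j + Complex.I * y j) ∧ ∀ c j,
      om c (ax (2 * Real.pi) (ib j) w) = om c w ∧
      ∀ l, j ≠ l → per (om c) w j l = r (C.cls h c) j l
  /-- A compact submanifold `T` of half dimension on which `ω_J`, `ω_K` vanish is a complex
  Lagrangian submanifold of `(X, I)` (its tangent spaces `W` satisfy `J W = W^⊥ = K W`); a compact
  Kähler manifold homeomorphic to a torus is a complex torus (Albanese map); `T` is homotopic to the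
  flat torus, and `H²(T)` is detected by the real 2-tori in the directions `j`, `l`. -/
  graph : ∀ h φ U om r w₀ f a, C.IsChart h φ U om r → Graph U w₀ f →
    (∀ y u v c, c ≠ 0 → om c (cx (f y) y) (cx (dv f y u) u) (cx (dv f y v) v) = 0) →
    Van r a → C.LagTorus h a

namespace Model

variable {m : ℕ} {D : Geo2 m} (S : Model D) (A : ℝ) (k : ℕ)

/-- `A θ + H ≥ 0` -/
def Pos (x : D.X) (H : Matrix (Fin m) (Fin m) ℂ) : Prop := ((A : ℂ) • S.θ k x + H).PosSemidef

/-- the `(1,0)`-form `e` is bounded by the Fubini-Study form: `|e|² ≤ A θ` -/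
def Bd (x : D.X) (e : Fin m → ℂ) : Prop := S.Pos A k x (-Matrix.vecMulVec (star e) e)

/-- the matrix of `dd^c f` is bounded -/
def LevB (f : D.X → ℝ) : Prop := ∃ C, ∀ x i j, ‖D.lev (S.M k) f x i j‖ ≤ C

/-- the point `w` is in the domain of the chart -/
abbrev Dom (w : Fin m → ℂ) : Prop := w ∈ S.U A k

/-- the tangent vector `v` in the unitary frame -/
noncomputable def fr (w v : Fin m → ℂ) : Fin m → ℂ := (S.Z k w)⁻¹ *ᵥ v

/-- The rows of the matrix `Z` are the forms `dζ_1, ..., dζ_m` of logarithmic coordinates at `x`: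
`y_i + log |w_i|` is the restriction of a smooth function `b_i` on `𝒳`, so `2 ∂b_i` is bounded by
the Fubini-Study form. -/
def LogP (x : D.X) (Z : Matrix (Fin m) (Fin m) ℂ) : Prop :=
  (∀ i, S.Bd A k x fun j => D.dl (S.M k) (S.y k (Fin.succ i)) x j + Z i j) ∧
  S.Bd A k x fun j => D.dl (S.M k) (S.y k 0) x j - ∑ i, Z i j

/-- What holds on a projective degeneration `𝒳 → Δ` of `m`-dimensional varieties, semistable near its
deepest points: `E_0, ..., E_m` are components of the central fibre, near each common point of them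
`𝒳` is smooth and there are coordinates `w_0, ..., w_m` with `E_i = {w_i = 0}` and `t = w_0 ⋯ w_m`.
The class of the metric of the fibre `X_t` is `L = |log |t||` times a fixed multiple of a relatively
ample class, the metric is Ricci-flat. -/
structure FactsP : Prop where
  one_le : 1 ≤ A
  κ_nonneg : 0 ≤ S.κ
  L_top : Tendsto S.L atTop atTop
  /-- the class of the metric is `L` times a constant class -/
  vol : ∀ k, 1 ≤ S.L k ∧ D.int (S.M k) (fun _ => 1) ≤ A * S.L k ^ m
  /-- `∂∂̄`-lemma: `θ` and `κ L⁻¹ ω` have the same class -/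
  u : ∀ k, D.Sm (S.M k) (S.u k) ∧ S.LevB k (S.u k) ∧ S.θ k ∈ D.fs (S.M k)
  /-- `|s_{E_i}| ≤ 1` for all components `E_i`, the product of all `s_{E_i}` is `t`; the curvature
  forms of the line bundles `O(E_i)` are bounded by the Fubini-Study form -/
  y : ∀ k i, D.Sm (S.M k) (S.y k i) ∧ S.LevB k (S.y k i) ∧ ∀ x,
    0 ≤ S.y k i x ∧ S.y k i x ≤ S.L k + A ∧
    S.Pos A k x (D.lev (S.M k) (S.y k i) x) ∧ S.Pos A k x (-D.lev (S.M k) (S.y k i) x)
  φ : ∀ k, Measurable (S.φ k) ∧ ContinuousOn (S.φ k) (S.U A k)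
  /-- `y_i + log |w_i|` is bounded; the holomorphic volume form is `f dζ_1 ∧ ⋯ ∧ dζ_m`, `f(p) ≠ 0`,
  and `∫_{X_t} |Ω|²` grows like `L^m` -/
  chart : ∀ k w, S.Dom A k w → (∀ i, |S.y k (Fin.succ i) (S.φ k w) + (w i).re| ≤ A) ∧
    |S.y k 0 (S.φ k w) - (S.L k + ∑ i, (w i).re)| ≤ A ∧ S.LogP A k (S.φ k w) (S.Z k w) ∧
    A⁻¹ ≤ ‖(S.Z k w).det‖ ∧ ‖(S.Z k w).det‖ ≤ A
  /-- the products `⟨dζ_i, dζ_j⟩` are continuous -/
  Z_cont : ∀ k i j, ContinuousOn (fun w => ∑ l, S.Z k w i l * star (S.Z k w j l)) (S.U A k)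
  /-- the points where all `y_i` are large are near a point of `E_0 ∩ ⋯ ∩ E_m`, where `f` is
  bounded -/
  deep : ∀ k x, (∀ i, A ≤ S.y k i x) → ∃ Z, S.LogP A k x Z ∧ A⁻¹ ≤ ‖Z.det‖
  /-- the chart is injective for `0 < Im ζ_i < 2π`, and the volume form is
  `|det Z|⁻²` times the Lebesgue measure -/
  cov : ∀ (k) (f : D.X → ℝ≥0∞), Measurable f →
    ∫⁻ w in {w | S.Dom A k w ∧ ∀ i, 0 < (w i).im ∧ (w i).im < 2 * Real.pi},
      ENNReal.ofReal ((‖(S.Z k w).det‖ ^ 2)⁻¹) * f (S.φ k w) ≤ ∫⁻ x, f x ∂(D.vol (S.M k))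
  /-- the length of segments -/
  len : ∀ k w v, (∀ s : ℝ, 0 ≤ s → s ≤ 1 → S.Dom A k fun i => w i + s * v i) →
    ENNReal.ofReal (D.dist (S.M k) (S.φ k w) (S.φ k fun i => w i + v i)) ≤
      ∫⁻ s in Icc (0 : ℝ) 1, ENNReal.ofReal
        (√(∑ j, ‖S.fr k (fun i => w i + s * v i) v j‖ ^ 2))

end Model

/-- What holds on the degeneration, for fibres `(X, J)` of the hyperkähler structures `h k`,
polarised by `A`, with monodromy logarithm (a multiple of) `N`. -/
structure HKData.LogModel.FactsP {n b : ℕ} {C : HKData n b} (Q : C.LogModel) (h : ℕ → C.HK)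
    (A : Vec b) (N : Vec b → Vec b) (B : ℝ) : Prop where
  facts : Q.mod.FactsP B
  met : ∀ k, Q.mod.M k = C.met (h k)
  chart : ∀ k, C.IsChart (h k) (Q.mod.φ k) (Q.mod.U B k) (Q.om k) (Q.res k)
  /-- the matrix `Z⁻¹` is the differential of the chart in the unitary frame of `(g, J)` -/
  om_J : ∀ k w u v, Q.mod.Dom B k w →
    Q.om k 1 w u v = -(∑ j, Q.mod.fr k w u j * star (Q.mod.fr k w v j)).im
  res_lin : ∀ k c x y j l,
    Q.res k (fun i => c * x i + y i) j l = c * Q.res k x j l + Q.res k y j l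
  /-- the polarisation is trivial near a point of the total space, and the tori of the chart are
  invariant under the monodromy up to isotopy -/
  res : ∀ k x, Van (Q.res k) A ∧ Van (Q.res k) (N x)

end Pool.Agent.SYP
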