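import Pool.Agent.SYM.V3P.RegP
import Pool.Agent.SYM.V3.QData

/-!
# SYM/V3P/QuantP : the prequantum line bundles of a singular hyperkahler metric, published facts

Elementary calculus on `X` and published facts, in the notation of `V3/QData`.
-/

set_option autoImplicit false

open MeasureTheory Set Filter
open scoped Topology ComplexConjugate

namespace Pool.Agent.SYM

namespace Reg

variable (D : Reg)

/-- The gradient estimates for Poisson's equation on a compact `RCD(0, N)` space of which `X` is the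
regular part, with complement of capacity zero, so that bounded functions with finite energy are in
`W^{1,2}`. With the bounds of Jiang, Li and Zhang for the heat kernel and its gradient and
`vol B(x, r) ≥ c r^N` one has `|dw| ∈ L^q` if `Δ w ∈ L^p`, `1 / q > 1 / p - 1 / N`, and `|dw|` is
bounded if `p > N`. -/
def GradEstP (N : ℕ) : Prop :=
  ∀ p : ℝ, 2 ≤ p → ∀ w, D.Sm w → D.Bdd w → D.Int (D.gr w w) → D.Int (fun x => |D.lap w x| ^ p) →
    D.Int (fun x => (D.gr w w x) ^ (p * (1 + 1 / N) / 2)) ∧ (N < p → D.Lip w)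

end Reg

namespace V3

/-- the support of `z c` -/
abbrev Charts.T {D : Reg} (C : Charts D) (c : Fin C.N) : Set D.X := tsupport (C.z c)

/-- * `z_bdd`: the trace of an ambient metric is bounded; `z c` is a square.
* `kato`: Bochner's formula for a holomorphic 1-form, `Ric = 0`.
* `comp`: `μ_c` extends to a reflexive form and `ω ≥ c |F|^C θ`; on overlaps `μ_c - μ_c' = dF` with
  `F` holomorphic on a normal space, so `|dF|` is bounded. -/
structure Charts.FactsP {D : Reg} (C : Charts D) (φ : D.F) : Prop where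
  z_sm : ∀ c, IsOpen (C.U c) ∧ D.Sm (C.z c) ∧ C.T c ⊆ C.U c ∧ D.SmOn (C.U c) (C.u c)
  nonneg : ∀ c x, 0 ≤ C.z c x ∧ 0 ≤ C.u c x ∧ 0 ≤ C.a c x
  z_sum : ∀ x, ∑ c, C.z c x = 1
  z_bdd : ∃ K : ℝ, 0 ≤ K ∧ ∀ c x, |D.lap (C.z c) x| ≤ K ∧ D.gr (C.z c) (C.z c) x ≤ K * C.z c x
  kato : ∀ c, ∀ x ∈ C.U c, D.lap (C.u c) x = C.a c x ∧
    D.gr (C.u c) (C.u c) x ≤ C.a c x * C.u c x
  comp : ∃ K : ℝ, 0 ≤ K ∧ ∀ c, ∀ x ∈ C.T c, C.u c x ≤ Real.exp (-(K * φ x)) ∧
    ∀ c', x ∈ C.T c' → C.u c x ≤ 2 * C.u c' x + K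

/-- `s + c t`, `0`, `s - t` -/
abbrev Sec.ax {X : Type} (A : Sec X) (s : A.S) (c : ℂ) (t : A.S) : A.S := s + c • t
abbrev Sec.o {X : Type} (A : Sec X) : A.S := 0
abbrev Sec.sub {X : Type} (A : Sec X) (s t : A.S) : A.S := s - t

/-- the algebra of a hermitian bundle -/
structure Sec.FactsP (D : Reg) (A : Sec D.X) : Prop where
  add : ∀ s c t r x, A.ip (A.ax s c t) r x = A.ip s r x + conj c * A.ip t r x
  symm : ∀ s t x, conj (A.ip t s x) = A.ip s t x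
  nonneg : ∀ s x, 0 ≤ A.n s x
  eq_zero : ∀ s, (∀ x, A.n s x = 0) → s = A.o
  cont : ∀ s t, Continuous (A.ip s t)
  mul_ip : ∀ χ, D.Sm χ → ∀ s t x, A.ip (A.mul χ s) t x = χ x * A.ip s t x

/-- `⟨s, t⟩` in `L²` -/
noncomputable abbrev Ip (D : Reg) (A : Sec D.X) (s t : A.S) : ℂ := ∫ x, A.ip s t x ∂D.vol

/-- `d` is linear, with the Leibniz rule `|d (χ s) - χ d s|² ≤ |∇ χ|² |s|²`. -/
abbrev Leib (D : Reg) (A A' : Sec D.X) (d : A.S → A'.S) : Prop :=
  (∀ s c t, d (A.ax s c t) = A'.ax (d s) c (d t)) ∧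
  ∀ χ, D.Sm χ → ∀ s x, A'.n (A'.sub (d (A.mul χ s)) (A'.mul χ (d s))) x ≤ D.gr χ χ x * A.n s x

namespace Bun

variable {D : Reg} (B : Bun D)

/-- the sections of `L`, the forms with values in `L` -/
abbrev S0 : Type := B.A0.S
abbrev S1 : Type := B.A1.S
/-- `∂bar* ∂bar s`, `|s|²`, `|e|²` -/
abbrev La (s : B.S0) : B.S0 := B.ds (B.d0 s)
abbrev n0 (s : B.S0) : D.F := B.A0.n s
abbrev n1 (e : B.S1) : D.F := B.A1.n e
/-- `s` is bounded with bounded gradient -/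
abbrev Lip (s : B.S0) : Prop := ∃ M, ∀ x, B.n0 s x ≤ M ∧ B.nab s x ≤ M

/-- Calculus for `L` with curvature `k ω_J`, in complex dimension `m`: the hermitian bundles,
`∂bar² = 0`, `|∇ s|²`; linearity and Leibniz rules; Stokes' theorem and the Bochner-Kodaira inequality
(`Ric = 0`, curvature `k ω_J`) for sections and forms with compact support; `weitz` is
`Δ |s|² = |∇ s|² - 2 Re ⟨∂bar* ∂bar s, s⟩ - k m |s|²`. -/
structure FactsP (k : ℝ) (m : ℕ) : Prop where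
  f0 : B.A0.FactsP D
  f1 : B.A1.FactsP D
  f2 : B.A2.FactsP D
  d1_d0 : ∀ s, B.d1 (B.d0 s) = B.A2.o
  n_sm : ∀ s, D.Sm (B.n0 s) ∧ D.Cont (B.nab s)
  nab : ∀ s c t x, B.nab (B.A0.ax s c t) x ≤ 2 * B.nab s x + 2 * ‖c‖ ^ 2 * B.nab t x
  nab_smul : ∀ c s x, B.nab (B.A0.ax B.A0.o c s) x = ‖c‖ ^ 2 * B.nab s x
  d0_le : ∀ s x, B.n1 (B.d0 s) x ≤ B.nab s x
  leib : Leib D B.A0 B.A1 B.d0 ∧ Leib D B.A1 B.A2 B.d1 ∧ Leib D B.A1 B.A0 B.ds
  adj : ∀ χ, D.Cs χ → ∀ s e, Ip D B.A1 (B.d0 (B.A0.mul χ s)) e = Ip D B.A0 (B.A0.mul χ s) (B.ds e)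
  bk : ∀ χ, D.Cs χ → ∀ e, k * D.int (B.n1 (B.A1.mul χ e)) ≤
    D.int (B.A2.n (B.d1 (B.A1.mul χ e))) + D.int (B.n0 (B.ds (B.A1.mul χ e)))
  weitz : ∀ s x, D.lap (B.n0 s) x =
    B.nab s x - 2 * (B.A0.ip (B.La s) s x).re - k * m * B.n0 s x
  kato : ∀ s x, D.gr (B.n0 s) (B.n0 s) x ≤ 2 * B.nab s x * B.n0 s x

/-- The Friedrichs extension of `∂bar* ∂bar` has compact resolvent (Sobolev inequality, Kato's
inequality, Rellich's theorem in the interior), so there is an orthonormal basis of the space of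
square integrable sections which consists of (smooth) eigensections with finite energy. -/
structure SpectrumP (v : ℕ → B.S0) (l : ℕ → ℝ) : Prop where
  eig : ∀ i, B.La (v i) = B.A0.ax B.A0.o (l i) (v i) ∧ D.Int (B.n0 (v i)) ∧ D.Int (B.nab (v i))
  ortho : ∀ i j, Ip D B.A0 (v i) (v j) = if i = j then 1 else 0
  parseval : ∀ s, D.Int (B.n0 s) → HasSum (fun i => ‖Ip D B.A0 (v i) s‖ ^ 2) (D.int (B.n0 s))

/-- the real and imaginary part, `|∇ f|²` -/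
abbrev Re {X : Type} (f : X → ℂ) (x : X) : ℝ := (f x).re
abbrev Im {X : Type} (f : X → ℂ) (x : X) : ℝ := (f x).im
abbrev Gr (D : Reg) (f : D.X → ℂ) (x : D.X) : ℝ :=
  D.gr (Re f) (Re f) x + D.gr (Im f) (Im f) x

/-- Over `U c` the bundle `L` has a unitary frame with connection form `k λ`, `λ = Re μ_c`,
`d* λ = 0`, `dλ = ω_J`: twisted by `- k λ` the connection is flat, and its holonomy is trivial, as
the local fundamental groups of klt singularities are finite (Xu, Braun) and `κ` contains the order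
of the groups `H_1(U c)`;
`co c s` is the coefficient `f` of `s`, so `∇ s = df - i k λ f`,
`Δ f = - ∂bar* ∂bar s + O (|λ| |∇ s| + (1 + |λ|²) |s|)` in the frame. -/
structure FrameP (C : Charts D) (co : Fin C.N → B.S0 → D.X → ℂ) : Prop where
  sm : ∀ c s, D.SmOn (C.U c) (Re (co c s)) ∧ D.SmOn (C.U c) (Im (co c s))
  le : ∃ K : ℝ, 0 ≤ K ∧ ∀ c s, ∀ x ∈ C.U c, ‖co c s x‖ ^ 2 = B.n0 s x ∧
    Gr D (co c s) x ≤ K * (B.nab s x + C.u c x * B.n0 s x) ∧
    B.nab s x ≤ K * (Gr D (co c s) x + C.u c x * B.n0 s x) ∧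
    |D.lap (Re (co c s)) x| + |D.lap (Im (co c s)) x| ≤
      K * (√(B.n0 (B.La s) x) + (1 + C.u c x) * √(B.n0 s x) + √(C.u c x * B.nab s x))

/-- The `L²` estimate: for a bounded `∂bar`-closed `f` with square integrable `∂bar* f` there are
bounded sections `g_n` with bounded gradient, Cauchy in `L²`, `k ‖g_n‖² ≤ ‖f‖²`, `∂bar g_n → f`.
(So the limit `u` of the `g_n` satisfies `∂bar u = f`, `k ‖u‖² ≤ ‖f‖²`.) -/
def L2EstP (k : ℝ) : Prop :=
  ∀ f, (∃ M, ∀ x, B.n1 f x ≤ M) → D.Int (B.n0 (B.ds f)) → B.d1 f = B.A2.o → ∃ g : ℕ → B.S0,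
    (∀ n, B.Lip (g n) ∧ k * D.int (B.n0 (g n)) ≤ D.int (B.n1 f)) ∧
    (∀ ε : ℝ, 0 < ε → ∃ n₀, ∀ n, n₀ ≤ n → ∀ n', n₀ ≤ n' →
      D.int (B.n0 (B.A0.sub (g n) (g n'))) < ε) ∧
    Lim (fun n => D.int (B.n1 (B.A1.sub (B.d0 (g n)) f))) 0

/-- square integrable holomorphic sections with finite energy are bounded with bounded gradient -/
def LipHolP : Prop :=
  ∀ s, D.Int (B.n0 s) → D.Int (B.nab s) → B.d0 s = B.A1.o → B.Lip s

end Bun

structure Quant.FactsP {D : Reg} (Q : Quant D) : Prop where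
  pole : D.PoleP Q.φ
  phi_sq : D.Int fun x => Q.φ x ^ 2
  honda : D.EigenLipP → D.GradEstP (2 * Q.m)
  m_pos : 0 < Q.m
  κ_pos : 0 < Q.κ
  charts : Q.C.FactsP Q.φ
  bun : ∀ j, 1 ≤ j → (Q.B j).FactsP (j * Q.κ) Q.m ∧ (Q.B j).SpectrumP (Q.v j) (Q.l j) ∧
    (Q.B j).FrameP Q.C (Q.co j)

/-- the statement proved in `V3/QMain` -/
def Quant.GoalP {D : Reg} (Q : Quant D) : Prop :=
  ∀ j : ℕ, 1 ≤ j → (Q.B j).L2EstP (j * Q.κ) ∧ (Q.B j).LipHolP

end V3

end Pool.Agent.SYM
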