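import Pool.Agent.SYM.V3P.FamD
import Pool.Agent.SYM.V3P.HKP
import Pool.Agent.SYM.V3P.QuantP

/-!
# SYM/V3P/FamP : locally trivial deformation classes of primitive symplectic varieties, the facts
-/

set_option autoImplicit false

open Filter Topology

namespace Pool.Agent.SYM.V3P.Fam

variable (C : Fam)

/-- The lattice and the Kähler cones. The form is bilinear, symmetric, integral, of signature
`(3, b - 3)` (Beauville, Bogomolov, Fujiki; Namikawa, Kirschner, Schwald, Bakker-Lehn). -/
structure LatP : Prop where
  lin : ∀ s x t y z, C.q (C.lc s x t y) z = s * C.q x z + t * C.q y z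
  symm : ∀ x y, C.q x y = C.q y x
  integral : ∀ x y, C.Int x → C.Int y → ∃ m : ℤ, C.q x y = m
  signature : ∃ e : Fin 3 → C.V, (∀ i j, C.q (e i) (e j) = if i = j then 1 else 0) ∧
    ∀ x, (∀ i, C.q x (e i) = 0) → x ≠ C.o → C.q x x < 0
  per_exists : ∀ i, ∃ x y, C.per i x y
  /-- the period plane is positive definite -/
  per_pos : ∀ i x y, C.per i x y → ∀ s t : ℝ, s ≠ 0 ∨ t ≠ 0 → 0 < C.q (C.lc s x t y) (C.lc s x t y)
  /-- the oriented bases of the period plane -/
  per_basis : ∀ i x y, C.per i x y → ∀ s t u v : ℝ, 0 < s * v - t * u →
    C.per i (C.lc s x t y) (C.lc u x v y)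
  kahler_nonempty : ∀ i, ∃ κ, C.Kah i κ
  /-- Kähler classes are of type `(1,1)` and in one component of the positive cone -/
  kahler_type : ∀ i x y κ, C.per i x y → C.Kah i κ → C.Ty x y κ
  kahler_pos : ∀ i κ κ', C.Kah i κ → C.Kah i κ' → 0 < C.q κ κ'
  /-- the Kähler cone is a convex cone, open in the space of the classes of type `(1,1)` -/
  kahler_add : ∀ i κ a, C.Kah i κ → C.Nef i a → ∀ s t : ℝ, 0 < s → 0 ≤ t → C.Kah i (C.lc s κ t a)

/-- Walls and deformations of projective members (`b ≥ 5`). -/
structure NearP : Prop where
  /-- wall divisor classes are integral, of negative and bounded square (Amerik-Verbitsky;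
  Lehn-Mongardi-Pacienza) -/
  wall : ∃ K : ℝ, ∀ s, C.S s → C.Int s ∧ C.q s s < 0 ∧ -K ≤ C.q s s
  /-- the ample cone of a projective member is a chamber of the positive cone for the wall divisor
  classes of type `(1,1)` (Markman; Lehn-Mongardi-Pacienza) -/
  ample_iff : ∀ i x y A B, C.per i x y → C.Kah i A → C.Int A → C.Int B →
    (C.Kah i B ↔ C.Ty x y B ∧ 0 < C.q B B ∧ 0 < C.q B A ∧
      ∀ s, C.S s → C.Ty x y s → 0 < C.q s A * C.q s B)
  /-- Small deformations of the pair `(X_i, a)`: near `(x, y, κ)` every plane `⟨x', y'⟩` orthogonal
  to `a` is the period plane of a member `X_j` on which a given class `κ'` of type `(1,1)` is a Kähler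
  class (local Torelli theorem for locally trivial deformations, Namikawa, Bakker-Lehn; stability of
  Kähler classes). These `X_j` are the fibres of one locally trivial family over a ball. The relative
  space of cycles of class `γ` is proper over the ball (Bishop, Barlet), so the points of these
  cycles form a closed analytic subset of the total space (Remmert), and it is everything if it
  contains a non-empty open set. -/
  near : ∀ i a x y κ, C.NefIso i a → C.per i x y → C.Kah i κ →
    ∃ ε : ℝ, 0 < ε ∧ ∀ x' y' κ', C.Ty x' y' κ' → C.Ty x' y' a → C.Nr ε x' x → C.Nr ε y' y →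
      C.Nr ε κ' κ → ∃ j, C.per j x' y' ∧ C.Kah j κ' ∧ (C.Swept j a → C.Swept i a)
  /-- Matsushita, Schwald: a semiample line bundle with `q(a, a) = 0` defines a Lagrangian
  fibration, whose general fibre `F` is a complex torus in the regular locus, and `H²(X_i) → H²(F)`
  has the kernel `a^⊥`; so `F` deforms with the pair `(X_i, a)` (Voisin; Kamenova-Lehn for singular
  `X_i`) and its deformations cover an open set; their limits cover the nearby members -/
  spread : ∀ i a, C.NefIso i a → C.Semiample i a → C.Swept i a
  /-- a nef class which has degree `0` on a cycle is numerically trivial on its components -/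
  covered : ∀ i a, C.NefLine i a → C.Swept i a → C.Covered i a

/-- Nef line bundles on the projective members (klt varieties with `K = 0` and `h¹(O) = 0`).
* `trivial`, `bpf`: the base point free theorem: a nef line bundle with `q(L) > 0` is big and
  semiample.
* `sweep`: the deformations of a Lagrangian torus in the regular locus are unobstructed and cover an
  open set (Voisin, Ran); their limits (properness of the Chow variety) cover `X_i`.
* `dim`: nef reduction (Bauer, Campana, Eckl, Kebekus, Peternell, Rams, Szemberg, Wotzlaw): if the
  line bundle is trivial on the curves in `n`-dimensional subvarieties through every point then the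
  nef dimension is at most `n`; the Fujiki relation `∫ (a + t κ)^{2n} = c q(a + t κ)^n`; if the
  numerical dimension is the dimension of the base of the nef reduction then a multiple of the line
  bundle is, on a modification, the pull-back of a nef and big line bundle (Nakayama, Lehmann;
  `H¹(X_i, O) = 0`).
* `kawamata`: nef and abundant line bundles on klt varieties with `K = 0` are semiample. -/
structure NefP : Prop where
  trivial : ∀ i, C.Proj i → C.Semiample i C.o
  bpf : ∀ i a, C.NefLine i a → 0 < C.q a a → C.Semiample i a
  sweep : ∀ h i a, C.IsMem h i → C.NefLine i a → C.M.LagTorus h a → C.Covered i a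
  dim : ∀ i a, C.NefLine i a → C.numDim i a ≤ C.nefDim i a ∧
    (C.Covered i a → C.nefDim i a ≤ C.n) ∧ (a ≠ C.o → C.q a a = 0 → C.numDim i a = C.n) ∧
    (C.numDim i a = C.nefDim i a → C.kod i a = C.numDim i a)
  kawamata : ∀ i a, C.NefLine i a → C.kod i a = C.numDim i a → C.Semiample i a

/-- Ricci-flat metrics.
* `egz`: singular Ricci-flat metrics (Yau; Eyssidieux-Guedj-Zeriahi) in multiples of rational
  classes on projective members; the symplectic form is parallel (Greb-Kebekus-Peternell; Claudon,
  Graf, Guenancia, Naumann), so it defines a hyperkähler structure on the regular part.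
* `basic`: calculus on the regular part, the singular set, approximation, Sobolev inequality.
* `rcd`: Honda's criterion: if the eigenfunctions have bounded gradient, then the completion of `X`
  is a non-collapsed `RCD(0, 4n)` space, and the theory of these spaces applies (De Philippis-Gigli,
  Bruè-Naber-Semola). A ball of the completion which is metrically almost flat is in `X`, for all
  the metrics with the same constant: the volume density at a singular point is the local volume
  divided by `(2n)^(2n)` (Székelyhidi 2024 for projective members and rational classes; Li-Xu,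
  Donaldson-Sun), it is less than `1` (Liu-Xu) and takes finitely many values, since the germs of
  all the members are those of one of them.
* `quant`: calculus of the line bundles of `Quant`. -/
structure MetricP : Prop where
  egz : ∀ i x y κ, C.Frame i x y κ → ∃ h, C.IsMem h i ∧ C.Cl h κ x y
  basic : ∀ g, (C.reg g).Basic
  rcd : (∀ g, (C.reg g).EigenLipP) → C.M.FactsP
  quant : ∀ h i A, C.QS h i A → (C.quant h).FactsP

/-- Degenerations of maximal type: `h k` are hyperkähler structures such that `(X, J)` is the regular
part of a projective variety `Y_k` polarised by `A`, see `Pol`, with period `exp(i y_k N) ω`, i.e.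
`σ_J = ω_K + i ω_I = i exp(i y_k N) ω`, `y_k → ∞`. Infinitely many of the `Y_k` are fibres of one
projective degeneration over a disc. The `(Y_k, A)` are bounded (Matsusaka, Kollár; Birkar).
They have locally trivial deformations only (Namikawa), so the period map of a component `Z` of their
moduli space (Viehweg) to `Γ \ D`, `D` the period domain of `A^⊥`, is quasi-finite (local Torelli
theorem) and algebraic (Baily-Borel, Borel). Infinitely many `k` are on one branch of `Z` over the
holomorphic disc `exp(z N) ω` (`ω` need not be rational). The markings of `Y_k` as a fibre and by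
`(X, J)` differ by an isometry which fixes `A` and the period, so for large `k` it maps `α` to `±α` and
commutes with `N`, and `res_N`, `res_A` hold for both. The degeneration is of type III
(`∫ |Ω|² ~ y^(2n)`). Then one takes a `ℚ`-factorial dlt model (an isomorphism over the punctured disc),
semistable near a deepest point of its central fibre (Nicaise-Xu, Kollár-Nicaise-Xu), see `Model` and
`LogModel`. -/
def DegP : Prop :=
  ∀ (α A A₀ ω : C.V) (h : ℕ → C.HK) (y t : ℕ → ℝ), C.Int α → C.Int A → C.Int A₀ →
    C.q α α = 0 → C.q α A = 0 → C.q α A₀ = 0 → C.q A A₀ = 0 → 0 < C.q A A → 0 < C.q A₀ A₀ →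
    C.q ω ω = 0 → C.q ω A = 0 → 0 < C.q α ω → Tendsto y atTop atTop →
    (∀ k, C.Pol (h k) A ∧ 0 < t k ∧ C.Cl (h k) (C.orbRe α A₀ ω (y k)) (C.sc (t k) A)
      (C.sc (-1) (C.orbIm α A₀ ω (y k)))) →
    ∃ (s : ℕ → ℕ) (Q : C.M.LogModel) (B : ℝ), StrictMono s ∧
      Q.FactsP (fun k => h (s k)) A (C.nil α A₀) B

end Pool.Agent.SYM.V3P.Fam
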