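import Pool.Agent.SYM.V3P.ConeP
import Pool.Agent.SYM.V3P.FamP
import Pool.Agent.SCV.Le4

/-!
# SYM/V3P/AdaptCone : the cone conjecture for the members of a class

`ConeD.cone`: from the published facts on the members of a class (`LatP`, the boundedness of the walls,
`ConeD.Facts`) and the semiampleness of the nef line bundles on `X_i`, the cone conjecture for the
birational contractions of `X_i`.
-/

set_option autoImplicit false

open Module

namespace Pool.Agent.SYM.V3P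

open Pool.Agent.SCV Pool.Agent.H93Cone Pool.Agent.H55.Cone

namespace ConeD

variable {C : Fam} {P : ConeD C} {m : ℕ}

/-! ## the form -/

theorem q_add (hL : C.LatP) (x y z : C.V) : C.q (x + y) z = C.q x z + C.q y z := by
  have h := hL.lin 1 x 1 y z
  simpa only [Fam.lc, one_smul, one_mul] using h

theorem q_smul (hL : C.LatP) (c : ℝ) (x z : C.V) : C.q (c • x) z = c * C.q x z := by
  have h := hL.lin c x 0 x z
  simpa only [Fam.lc, zero_smul, add_zero, zero_mul] using h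

theorem q_add_right (hL : C.LatP) (x y y' : C.V) : C.q x (y + y') = C.q x y + C.q x y' := by
  rw [hL.symm, q_add hL, hL.symm y, hL.symm y']

theorem q_smul_right (hL : C.LatP) (c : ℝ) (x y : C.V) : C.q x (c • y) = c * C.q x y := by
  rw [hL.symm, q_smul hL, hL.symm y]

/-- the bilinear form -/
noncomputable def qm (hL : C.LatP) : C.V →ₗ[ℝ] C.V →ₗ[ℝ] ℝ :=
  LinearMap.mk₂ ℝ C.q (q_add hL) (q_smul hL) (q_add_right hL) (fun c x y => q_smul_right hL c x y)

theorem nondeg (hL : C.LatP) {x : C.V} (h : ∀ y, C.q x y = 0) : x = 0 := by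
  obtain ⟨e, -, h2⟩ := hL.signature
  by_contra hx
  have h3 := h2 x (fun i => h _) hx
  rw [h x] at h3
  exact lt_irrefl _ h3

/-! ## isometries -/

/-- an isometry as a linear map -/
def isomLin {g : C.V → C.V} (hg : C.Isom g) : C.V →ₗ[ℝ] C.V where
  toFun := g
  map_add' := fun x y => by
    have h := hg.1 1 x 1 y
    simpa only [Fam.lc, one_smul] using h
  map_smul' := fun c x => by
    have h := hg.1 c x 0 x
    simp only [Fam.lc, zero_smul, add_zero] at h
    exact h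

theorem isomLin_inj (hL : C.LatP) {g : C.V → C.V} (hg : C.Isom g) :
    Function.Injective (isomLin hg) := by
  rw [injective_iff_map_eq_zero]
  intro x hx
  refine nondeg hL fun y => ?_
  rw [← hg.2.1 x y]
  have h1 : g x = 0 := hx
  have h2 := q_smul hL 0 x (g y)
  rw [zero_smul, zero_mul] at h2
  rw [h1, h2]

/-- an isometry as a linear equivalence -/
noncomputable def isomEquiv (hL : C.LatP) {g : C.V → C.V} (hg : C.Isom g) : C.V ≃ₗ[ℝ] C.V :=
  LinearEquiv.ofInjectiveEndo (isomLin hg) (isomLin_inj hL hg)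

theorem isomEquiv_apply (hL : C.LatP) {g : C.V → C.V} (hg : C.Isom g) (x : C.V) :
    isomEquiv hL hg x = g x := rfl

theorem isomEquiv_coe (hL : C.LatP) {g : C.V → C.V} (hg : C.Isom g) :
    (⇑(isomEquiv hL hg) : C.V → C.V) = g := rfl

/-- the subgroup of a group of isometries -/
def grp {G : (C.V → C.V) → Prop} (hG : C.Grp G) : Subgroup (C.V ≃ₗ[ℝ] C.V) where
  carrier := {g | G ⇑g}
  one_mem' := hG.1
  mul_mem' := fun {g h} hg hh => (hG.2.2 _ _ hg).1 hh
  inv_mem' := fun {g} hg => (hG.2.2 _ _ hg).2 fun x => g.symm_apply_apply x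

theorem mem_grp {G : (C.V → C.V) → Prop} (hG : C.Grp G) {g : C.V ≃ₗ[ℝ] C.V} :
    g ∈ grp hG ↔ G ⇑g := Iff.rfl

theorem isomEquiv_mem (hL : C.LatP) {G : (C.V → C.V) → Prop} (hG : C.Grp G) {g : C.V → C.V}
    (hg : G g) : isomEquiv hL (hG.2.1 g hg) ∈ grp hG := hg

/-! ## the internal class -/

/-- the internal class -/
noncomputable def toCls (hL : C.LatP) (hF : P.Facts) : Cls C.b where
  q := qm hL
  S := {s | C.S s}
  I := C.I
  per := C.per
  kahler := fun i => {κ | C.Kah i κ}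
  Mon := grp hF.mon
  Aut := fun i => grp (hF.aut i)
  Prime := fun i => {v : C.V // P.Div i v}
  cl := fun _ Q => Q.1

theorem toCls_isom (hL : C.LatP) (hF : P.Facts) (g : C.V ≃ₗ[ℝ] C.V) :
    (toCls hL hF).IsIsom g ↔ C.Isom ⇑g := by
  constructor
  · intro h
    refine ⟨fun s x t y => ?_, h.1, h.2⟩
    show g (s • x + t • y) = s • g x + t • g y
    rw [map_add, map_smul, map_smul]
  · intro h
    exact ⟨h.2.1, h.2.2⟩

theorem type_iff (hL : C.LatP) (hF : P.Facts) {i : C.I} {x y : C.V} (hp : C.per i x y) (v : C.V) :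
    (∀ x' y', C.per i x' y' → C.Ty x' y' v) ↔ C.Ty x y v := by
  refine ⟨fun h => h x y hp, fun h x' y' hp' => ?_⟩
  obtain ⟨s, t, u, w, rfl, rfl⟩ := hF.per i x y x' y' hp hp'
  constructor
  · show C.q v (s • x + t • y) = 0
    rw [q_add_right hL, q_smul_right hL, q_smul_right hL, h.1, h.2]
    ring
  · show C.q v (u • x + w • y) = 0
    rw [q_add_right hL, q_smul_right hL, q_smul_right hL, h.1, h.2]
    ring

theorem toCls_line (hL : C.LatP) (hF : P.Facts) (i : C.I) (v : C.V) :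
    (toCls hL hF).IsLine i v ↔ C.Line i v := Iff.rfl

theorem toCls_ns (hL : C.LatP) (hF : P.Facts) (i : C.I) (v : C.V) :
    v ∈ (toCls hL hF).realNS i ↔ C.NS i v := by
  unfold Cls.realNS
  rw [Submodule.mem_span_set']
  constructor
  · rintro ⟨n, c, f, h⟩
    exact ⟨n, c, fun k => (f k).1, fun k => (f k).2, h.symm⟩
  · rintro ⟨n, c, f, h1, h2⟩
    exact ⟨n, c, fun k => ⟨f k, h1 k⟩, h2.symm⟩

theorem toCls_eff (hL : C.LatP) (hF : P.Facts) (i : C.I) (v : C.V) :
    v ∈ (toCls hL hF).effCone i ↔ P.Eff i v := by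
  unfold Cls.effCone PointedCone.hull
  rw [Submodule.mem_span_set']
  constructor
  · rintro ⟨n, c, f, h⟩
    refine ⟨n, fun k => (c k : ℝ), fun k => (f k).1, fun k => ⟨(c k).2, ?_⟩, h.symm⟩
    obtain ⟨Q, hQ⟩ := (f k).2
    have h1 : P.Div i Q.1 := Q.2
    have h2 : Q.1 = (f k).1 := hQ
    rw [h2] at h1
    exact h1
  · rintro ⟨n, c, f, h1, h2⟩
    exact ⟨n, fun k => ⟨c k, (h1 k).1⟩, fun k => ⟨f k, ⟨⟨f k, (h1 k).2⟩, rfl⟩⟩, h2.symm⟩

theorem toCls_signature (hL : C.LatP) : ∃ W : Submodule ℝ C.V, finrank ℝ W = 3 ∧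
    (∀ x ∈ W, x ≠ 0 → 0 < C.q x x) ∧ ∀ x, (∀ y ∈ W, C.q x y = 0) → x ≠ 0 → C.q x x < 0 := by
  obtain ⟨e, he, hneg⟩ := hL.signature
  have hsum : ∀ (c : Fin 3 → ℝ) (j : Fin 3), C.q (∑ k, c k • e k) (e j) = c j := by
    intro c j
    have h1 : C.q (∑ k, c k • e k) (e j) = qm hL (∑ k, c k • e k) (e j) := rfl
    rw [h1, map_sum, LinearMap.sum_apply, Finset.sum_eq_single j]
    · rw [map_smul, LinearMap.smul_apply, smul_eq_mul]
      show c j * C.q (e j) (e j) = c j
      rw [he, if_pos rfl, mul_one]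
    · intro k _ hk
      rw [map_smul, LinearMap.smul_apply, smul_eq_mul]
      show c k * C.q (e k) (e j) = 0
      rw [he, if_neg hk, mul_zero]
    · intro h
      exact absurd (Finset.mem_univ j) h
  have h0 : ∀ y, C.q 0 y = 0 := fun y => by
    have h2 := q_smul hL 0 0 y
    rwa [zero_smul, zero_mul] at h2
  have hli : LinearIndependent ℝ e := by
    rw [Fintype.linearIndependent_iff]
    intro c hc j
    rw [← hsum c j, hc, h0]
  refine ⟨Submodule.span ℝ (Set.range e), ?_, ?_, ?_⟩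
  · rw [finrank_span_eq_card hli, Fintype.card_fin]
  · intro x hx hx0
    obtain ⟨c, rfl⟩ := (Submodule.mem_span_range_iff_exists_fun ℝ).1 hx
    have h1 : C.q (∑ k, c k • e k) (∑ k, c k • e k) = ∑ k, c k * c k := by
      have h2 : C.q (∑ k, c k • e k) (∑ k, c k • e k) =
          qm hL (∑ k, c k • e k) (∑ k, c k • e k) := rfl
      rw [h2, map_sum]
      refine Finset.sum_congr rfl fun k _ => ?_
      rw [map_smul, smul_eq_mul]
      show c k * C.q (∑ l, c l • e l) (e k) = _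
      rw [hsum]
    rw [h1]
    have h3 : 0 ≤ ∑ k, c k * c k := Finset.sum_nonneg fun k _ => mul_self_nonneg _
    refine h3.lt_of_ne fun h4 => hx0 ?_
    have h5 := (Finset.sum_eq_zero_iff_of_nonneg (fun k _ => mul_self_nonneg (c k))).1 h4.symm
    refine Finset.sum_eq_zero fun k hk => ?_
    rw [mul_self_eq_zero.1 (h5 k hk), zero_smul]
  · intro x hx hx0
    exact hneg x (fun k => hx _ (Submodule.subset_span ⟨k, rfl⟩)) hx0

theorem kah_smul (hL : C.LatP) {i : C.I} {κ : C.V} (h : C.Kah i κ) {c : ℝ} (hc : 0 < c) :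
    C.Kah i (c • κ) := by
  have h1 := hL.kahler_add i κ κ h (subset_closure h) c 0 hc le_rfl
  simpa only [Fam.lc, zero_smul, add_zero] using h1

theorem kah_add (hL : C.LatP) {i : C.I} {κ a : C.V} (h : C.Kah i κ) (ha : C.Nef i a) :
    C.Kah i (κ + a) := by
  have h1 := hL.kahler_add i κ a h ha 1 1 one_pos zero_le_one
  simpa only [Fam.lc, one_smul] using h1

theorem toProj {hL : C.LatP} {hF : P.Facts} {i : C.I} (h : (toCls hL hF).Projective i) :
    C.Proj i := by
  obtain ⟨A, h1, h2⟩ := h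
  exact ⟨A, h2, h1⟩

theorem ofProj {hL : C.LatP} {hF : P.Facts} {i : C.I} (h : C.Proj i) :
    (toCls hL hF).Projective i := by
  obtain ⟨A, h1, h2⟩ := h
  exact ⟨A, h2, h1⟩

theorem toCls_base (hL : C.LatP) (hF : P.Facts) : (toCls hL hF).Base where
  symm := hL.symm
  integral := fun x hx y hy => hL.integral x y hx hy
  signature := toCls_signature hL
  per_exists := hL.per_exists
  per_pos := fun i x y hp s t h => hL.per_pos i x y hp s t h
  kahler_type := fun i x y hp κ hκ => hL.kahler_type i x y κ hp hκ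
  kahler_pos := fun i κ hκ κ' hκ' => hL.kahler_pos i κ κ' hκ hκ'
  kahler_add := fun i κ hκ a ha => kah_add hL hκ ha
  kahler_smul := fun i κ hκ c hc => kah_smul hL hκ hc
  cls_range := fun i x y hp v => type_iff hL hF hp v
  prime_rat := fun i hi Q => (hF.div i Q.1 (toProj hi) Q.2).1
  prime_type := fun i hi Q => (hF.div i Q.1 (toProj hi) Q.2).2.1
  prime_pos := fun i hi Q A hA => (hF.div i Q.1 (toProj hi) Q.2).2.2 A hA
  big := fun i hi A hA v hv h1 h2 =>
    (toCls_eff hL hF i v).2 (hF.big i v A (toProj hi) hv hA h1 h2)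

theorem toCls_small (hL : C.LatP) (hF : P.Facts) : (toCls hL hF).Small where
  toBase := toCls_base hL hF
  aut_isom := fun i _ φ hφ => (toCls_isom hL hF φ).2 ((hF.aut i).2.1 _ hφ)
  aut_line := fun i hi φ hφ v hv => by
    obtain ⟨x, y, hp⟩ := hL.per_exists i
    refine ⟨(((hF.aut i).2.1 _ hφ).2.2 v).2 hv.1, ?_⟩
    exact (type_iff hL hF hp _).2
      ((hF.act i x y φ (toProj hi) hp hφ v).1 ((type_iff hL hF hp v).1 hv.2))
  aut_kahler := fun i hi φ hφ A hA => by
    obtain ⟨x, y, hp⟩ := hL.per_exists i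
    exact (hF.act i x y φ (toProj hi) hp hφ A).2 hA
  opn := fun i x y hi hp κ hκ => by
    obtain ⟨ε, hε, h⟩ := hF.opn i x y κ (toProj hi) hp hκ
    exact ⟨ε, hε, fun B h1 h2 h3 => h B ⟨h1, h2⟩ h3⟩
  curve := fun i hi v hv hn hq hK =>
    hF.curve i v (toProj hi) ((toCls_ns hL hF i v).1 hv) hn hq hK
  polarised := fun i x y L hi hp hL' hLl => by
    obtain ⟨N, F, h⟩ := hF.pol i x y L (toProj hi) hp hL' hLl
    refine ⟨Set.range F, Set.finite_range F, fun g hg h1 h2 h3 => ?_⟩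
    obtain ⟨k, h, hh, hk⟩ := h g ((toCls_isom hL hF g).1 hg) h1 h2 h3
    exact ⟨F k, ⟨k, rfl⟩, isomEquiv hL ((hF.aut i).2.1 h hh), isomEquiv_mem hL (hF.aut i) hh, hk⟩

theorem relIndex_ne {G : Type*} [Group G] (H K : Subgroup G) {N : ℕ} (κ : G → Fin N)
    (h : ∀ g ∈ K, ∀ g' ∈ K, κ g = κ g' → g * g'⁻¹ ∈ H) : H.relIndex K ≠ 0 := by
  have : Finite (K ⧸ H.subgroupOf K) := by
    refine Finite.of_injective (fun q : K ⧸ H.subgroupOf K => κ ((q.out : K) : G)⁻¹) ?_
    intro q q' hq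
    have h1 := h _ (K.inv_mem q.out.2) _ (K.inv_mem q'.out.2) hq
    rw [inv_inv] at h1
    rw [← QuotientGroup.out_eq' q, ← QuotientGroup.out_eq' q', QuotientGroup.eq]
    exact h1
  exact Subgroup.index_ne_zero_of_finite

theorem toCls_index (hL : C.LatP) (hF : P.Facts) (hG : P.GlobP) :
    (toCls hL hF).Mon.relIndex (toCls hL hF).isoms ≠ 0 := by
  classical
  obtain ⟨N, f, hf⟩ := hG.index
  have hid : C.Isom (fun x => x) := hF.mon.2.1 _ hF.mon.1
  obtain ⟨k0, -⟩ := hf _ hid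
  have hne : Nonempty (Fin N) := ⟨k0⟩
  choose! κ μ h1 h2 using hf
  refine relIndex_ne _ _ (fun g => κ ⇑g) ?_
  intro g hg g' hg' hk
  have hgi := (toCls_isom hL hF g).1 hg
  have hgi' := (toCls_isom hL hF g').1 hg'
  obtain ⟨ν, hν⟩ : ∃ ν, ν = isomEquiv hL (hF.mon.2.1 _ (h1 _ hgi)) := ⟨_, rfl⟩
  obtain ⟨ν', hν'⟩ : ∃ ν', ν' = isomEquiv hL (hF.mon.2.1 _ (h1 _ hgi')) := ⟨_, rfl⟩
  have hm : ν ∈ grp hF.mon := by
    rw [hν]
    exact isomEquiv_mem hL hF.mon (h1 _ hgi)
  have hm' : ν' ∈ grp hF.mon := by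
    rw [hν']
    exact isomEquiv_mem hL hF.mon (h1 _ hgi')
  have e1 : ∀ x, g x = ν (f (κ ⇑g) x) := fun x => by
    rw [hν]
    exact h2 _ hgi x
  have e2 : ∀ x, g' x = ν' (f (κ ⇑g') x) := fun x => by
    rw [hν']
    exact h2 _ hgi' x
  have e3 : g * g'⁻¹ = ν * ν'⁻¹ := by
    refine LinearEquiv.ext fun x => ?_
    obtain ⟨y, rfl⟩ := g'.surjective x
    have h3 : (g * g'⁻¹) (g' y) = g y := by
      show g (g'.symm (g' y)) = g y
      rw [g'.symm_apply_apply]
    have h4 : (ν * ν'⁻¹) (g' y) = ν (f (κ ⇑g') y) := by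
      show ν (ν'.symm (g' y)) = _
      rw [e2, ν'.symm_apply_apply]
    have hk' : κ ⇑g = κ ⇑g' := hk
    rw [h3, h4, e1, hk']
  show g * g'⁻¹ ∈ grp hF.mon
  rw [e3]
  exact (grp hF.mon).mul_mem hm ((grp hF.mon).inv_mem hm')

theorem toCls_glob (hL : C.LatP) (hF : P.Facts) (hG : P.GlobP)
    (hW : ∃ K : ℝ, ∀ s, C.S s → C.Int s ∧ C.q s s < 0 ∧ -K ≤ C.q s s) :
    (toCls hL hF).Glob where
  toBase := toCls_base hL hF
  wall_mem := fun s hs => by
    obtain ⟨K, hK⟩ := hW
    exact (hK s hs).1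
  mon_index := toCls_index hL hF hG
  wall_bdd := by
    obtain ⟨K, hK⟩ := hW
    exact ⟨K, fun s hs => (hK s hs).2.2⟩
  ample := fun i x y hp A hA hAl B hB h1 h2 h3 =>
    hG.ample i x y A B hp hA hAl ((toCls_ns hL hF i B).1 hB) h1 h2
      fun s hs hst => h3 s hs hst.1 hst.2
  torelli := fun i hi γ hγ h1 h2 => by
    obtain ⟨A, hA, hA'⟩ := h2
    exact hG.torelli i γ A (toProj hi) hγ h1 hA hA'

theorem toCls_cone (hL : C.LatP) (hF : P.Facts) (hG : P.GlobP) : (toCls hL hF).ConeFacts where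
  neg := fun s hs => by
    have h := (hG.wall s hs).1
    have h1 : C.sc (-1) s = -s := by
      show (-1 : ℝ) • s = -s
      rw [neg_smul, one_smul]
    rw [h1] at h
    exact h
  mon := fun γ hγ s hs => (hG.wall s hs).2 _ hγ
  ne := fun i x y hi hp A hA s hs h1 h2 => hG.side i x y A s (toProj hi) hp hA hs ⟨h1, h2⟩

theorem toCls_contraction (hL : C.LatP) (hF : P.Facts) {i : C.I} {a : C.V} {f : Fin m → C.V}
    (hf : Contr C i a f) : (toCls hL hF).IsContraction i a f where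
  line := hf.type
  nef := hf.nef.2.2
  big := hf.big
  basis := hf.basis
  indep := Fintype.linearIndependent_iff.2 hf.indep
  range := fun v => by
    rw [toCls_ns]
    have h1 : v ∈ Submodule.span ℝ (Set.range f) ↔ ∃ x, v = C.sum x f := by
      rw [Submodule.mem_span_range_iff_exists_fun]
      exact ⟨fun ⟨x, h⟩ => ⟨x, h.symm⟩, fun ⟨x, h⟩ => ⟨x, h.symm⟩⟩
    have h2 : ∀ t : ℝ, C.lc t a 1 v = t • a + v := fun t => by
      show t • a + (1 : ℝ) • v = _
      rw [one_smul]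
    have h3 : ∀ t : ℝ, C.lc t a (-1) v = t • a - v := fun t => by
      show t • a + (-1 : ℝ) • v = _
      rw [neg_smul, one_smul, sub_eq_add_neg]
    rw [h1, hf.range v]
    simp only [h2, h3]
    exact Iff.rfl

/-- The cone conjecture for the birational contractions of a projective member on which all nef
line bundles are semiample. -/
theorem cone (hL : C.LatP) (hF : P.Facts)
    (hW : 5 ≤ C.b → ∃ K : ℝ, ∀ s, C.S s → C.Int s ∧ C.q s s < 0 ∧ -K ≤ C.q s s) {i : C.I}
    (hs : ∀ a, C.NefLine i a → C.Semiample i a) {a : C.V} {f : Fin m → C.V}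
    (hf : Contr C i a f) (G : Subgroup (GL (Fin m) ℤ))
    (hnef : ∀ g ∈ G, ∀ x, C.Nef i (C.sum x f) → C.Nef i (C.sum (act g.val x) f))
    (heff : ∀ g ∈ G, ∀ x, P.Eff i (C.sum x f) → P.Eff i (C.sum (act g.val x) f))
    (haut : ∀ φ, P.Aut i φ → (∀ x, ∃ y, φ (C.sum x f) = C.sum y f) →
      ∃ g ∈ G, ∀ x, C.sum (act g.val x) f = φ (C.sum x f)) :
    HasDomain G {x | C.Nef i (C.sum x f) ∧ P.Eff i (C.sum x f)} := by
  have h1 : {x | C.Nef i (C.sum x f) ∧ P.Eff i (C.sum x f)} =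
      (toCls hL hF).nefEff i f := by
    ext x
    exact and_congr Iff.rfl (toCls_eff hL hF i _).symm
  rw [h1]
  refine Cls.cone_main (toCls_small hL hF)
    (fun h5 => ⟨toCls_glob hL hF (hF.glob h5) (hW h5), toCls_cone hL hF (hF.glob h5)⟩)
    (ofProj hf.proj) (fun α hα _ _ hnef => (toCls_eff hL hF i α).2
      (hF.sec i α ⟨hf.proj, hα, hnef⟩ (hs α ⟨hf.proj, hα, hnef⟩)))
    (toCls_contraction hL hF hf) ?_
  constructor
  · exact hnef
  · intro g hg x hx
    exact (toCls_eff hL hF i _).2 (heff g hg x ((toCls_eff hL hF i _).1 hx))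
  · intro φ hφ h
    exact haut ⇑φ hφ h

end ConeD

end Pool.Agent.SYM.V3P
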