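import Pool.Agent.SYM.V3P.ConeV
import Pool.Agent.SYM.V3P.AdaptCone
import Pool.Agent.KTriv.AdaptVar

/-!
# SYM/V3P/AdaptConeV : the cone conjecture for primitive symplectic varieties
-/

set_option autoImplicit false

namespace Pool.Agent.SYM.V3P.ConeD

open KTriv (Var)

variable {C : Fam}

/-- The cone conjecture for the birational contractions of a projective member on which all nef
line bundles are semiample. -/
theorem Sym.cone {P : ConeD C} (hL : C.LatP) (hF : P.Facts)
    (hW : 5 ≤ C.b → ∃ K : ℝ, ∀ s, C.S s → C.Int s ∧ C.q s s < 0 ∧ -K ≤ C.q s s) {Y : Var}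
    (hY : Y.Std) {i : C.I} (hs : ∀ a, C.NefLine i a → C.Semiample i a) {a : C.V}
    {f : Fin Y.n → C.V} (hf : Sym P Y i a f) : Y.Cone := by
  apply KTriv.Var.Cone.of hY
  have h1 : hY.old.nef ∩ hY.old.eff = {x | C.Nef i (C.sum x f) ∧ P.Eff i (C.sum x f)} := by
    ext x
    exact and_congr (hf.nef x) (hf.eff x)
  show H55.Cone.HasDomain hY.old.ρ.range (hY.old.nef ∩ hY.old.eff)
  rw [h1]
  refine ConeD.cone hL hF hW hs hf.contr hY.old.ρ.range ?_ ?_ ?_
  · rintro _ ⟨b, rfl⟩ x hx
    have e : hY.old.move b x = Y.act b x := hY.old_move b x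
    have h2 := (hf.nef _).1 (hY.act_nef b x ((hf.nef x).2 hx))
    rw [← e] at h2
    exact h2
  · rintro _ ⟨b, rfl⟩ x hx
    have e : hY.old.move b x = Y.act b x := hY.old_move b x
    have h2 := (hf.eff _).1 (hY.act_eff b x ((hf.eff x).2 hx))
    rw [← e] at h2
    exact h2
  · intro φ hφ h
    obtain ⟨b, hb⟩ := hf.aut φ hφ h
    refine ⟨hY.old.ρ b, ⟨b, rfl⟩, fun x => ?_⟩
    have e : hY.old.move b x = Y.act b x := hY.old_move b x
    have h2 := hb x
    rw [← e] at h2
    exact h2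

end Pool.Agent.SYM.V3P.ConeD
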