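import Pool.Agent.SYM.RegData

/-!
# SYM/V3P/CalcD : calculus of one metric, without the volume
-/

set_option autoImplicit false

open MeasureTheory

namespace Pool.Agent.SYM.V3

/-- Calculus of a Kähler metric on `X`, as plain data, see `Reg`: the smooth functions, those with
compact support, and for real functions `f`, `h` the functions `Re g^(i jbar) f_i h_jbar`,
`g^(i jbar) f_(i jbar)`, `|f_(ik)|²` and `|f_(i kbar)|²` (zero at points near which `f` or `h` is not
smooth). -/
structure Calc (X : Type) where
  sm : Set (X → ℝ)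
  cs : Set (X → ℝ)
  gr : (X → ℝ) → (X → ℝ) → X → ℝ
  lap : (X → ℝ) → X → ℝ
  h20 : (X → ℝ) → X → ℝ
  h11 : (X → ℝ) → X → ℝ

/-- The metric with the volume `μ`, with the data of `Reg`. -/
def Calc.reg {X : Type} [TopologicalSpace X] [MeasurableSpace X] [BorelSpace X] (k : Calc X)
    (μ : Measure X) : Reg where
  X := X
  vol := μ
  sm := k.sm
  cs := k.cs
  gr := k.gr
  lap := k.lap
  h20 := k.h20
  h11 := k.h11

end Pool.Agent.SYM.V3
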