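import Pool.Agent.SYM.V3P.AdaptC
import Pool.Agent.SYM.V3P.HKP
import Pool.Agent.SYP.HK
import Pool.Agent.MCL.Field

/-!
# SYM/V3P/AdaptHK : the short forms of the facts on hyperkähler metrics imply the long ones
-/

set_option autoImplicit false

open MeasureTheory Set Filter
open scoped ENNReal Topology Matrix ComplexOrder

namespace Pool.Agent.SYP

open SYM (CV basisVec FlatTriple IsHKTripleOn IsHKStructure period imagSpace)

section Triple

variable {n : ℕ}

theorem iv_eq (u : CV n) : iv u = Complex.I • u := rfl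

theorem ax_eq (c : ℝ) (u v : CV n) : ax c u v = c • u + v := by
  funext j
  simp [ax]

theorem ib_eq (j : Fin (2 * n)) : ib j = Complex.I • basisVec n j := by
  funext k
  by_cases h : k = j
  · subst h; simp [ib, basisVec]
  · simp [ib, basisVec, h]

namespace HKStr

variable {g : Form n} {Q : Fin 3 → CV n → CV n} (h : HKStr g Q)

include h

theorem add_left (u v w : CV n) : g (u + v) w = g u w + g v w := by
  have := h.lin 1 u v w
  rwa [ax_eq, one_smul, one_mul] at this

theorem zero_left (w : CV n) : g 0 w = 0 := by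
  have := h.add_left 0 0 w
  rw [add_zero] at this
  linarith

theorem smul_left (c : ℝ) (u v : CV n) : g (c • u) v = c * g u v := by
  have := h.lin c u 0 v
  rwa [ax_eq, add_zero, h.zero_left, add_zero] at this

theorem pos' (u : CV n) (hu : u ≠ 0) : 0 < g u u := by
  obtain ⟨j, hj⟩ := Function.ne_iff.1 hu
  exact h.pos u j hj

theorem eq_zero {u : CV n} (hu : ∀ v, g u v = 0) : u = 0 := by
  by_contra h0
  have := h.pos' u h0
  rw [hu] at this
  exact lt_irrefl _ this

theorem eq_of {u u' : CV n} (hu : ∀ v, g u v = g u' v) : u = u' := by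
  have h1 : u + (-1 : ℝ) • u' = 0 := by
    apply h.eq_zero
    intro v
    rw [h.add_left, h.smul_left, hu]
    ring
  have h2 : u = u + (-1 : ℝ) • u' + u' := by
    rw [neg_smul, one_smul, neg_add_cancel_right]
  rw [h1, zero_add] at h2
  exact h2

theorem old : IsHKStructure g Q where
  g_add := h.add_left
  g_smul := h.smul_left
  g_symm := h.symm
  g_pos := h.pos'
  Q_add a u v := by
    apply h.eq_of
    intro w
    rw [h.skew, h.add_left, h.add_left, h.skew, h.skew a v]
    ring
  Q_smul a c u := by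
    apply h.eq_of
    intro w
    rw [h.skew, h.smul_left, h.smul_left, h.skew]
    ring
  Q_sq a u := by
    apply h.eq_of
    intro w
    rw [h.skew, h.isometry, ← neg_one_smul ℝ u, h.smul_left]
    ring
  I_eq u := by rw [(h.quat u).2, (h.quat (Q 2 u)).1]
  J_eq u := by rw [(h.quat u).1]; rfl
  isometry := h.isometry

end HKStr

theorem HKStr.new {g : Form n} {Q : Fin 3 → CV n → CV n} (h : IsHKStructure g Q) : HKStr g Q where
  lin c u v w := by rw [ax_eq, h.g_add, h.g_smul]
  symm := h.g_symm
  pos u j hj := h.g_pos u (fun h0 => hj (by rw [h0]; rfl))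
  skew a u v := by
    have h1 := h.isometry a u (Q a v)
    rw [h.Q_sq] at h1
    have h2 : g (Q a u) (-v) = -g (Q a u) v := by
      rw [h.g_symm, ← neg_one_smul ℝ v, h.g_smul, h.g_symm]
      ring
    rw [h2] at h1
    linarith
  isometry := h.isometry
  quat u := ⟨by rw [h.J_eq]; rfl, by rw [h.I_eq, h.J_eq]; rfl⟩

theorem flat_iff (o : Fin 3 → Form n) : Flat o ↔ FlatTriple o := by
  constructor
  · rintro ⟨g, Q, h, ho⟩
    exact ⟨g, Q, h.old, ho⟩
  · rintro ⟨g, Q, h, ho⟩
    exact ⟨g, Q, HKStr.new h, ho⟩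

theorem deriv_ax {U : Set (CV n)} (hU : IsOpen U) {f : CV n → ℝ}
    (hf : ContDiffOn ℝ (⊤ : ℕ∞) f U) {w : CV n} (hw : w ∈ U) (x : CV n) :
    deriv (fun t : ℝ => f (ax t x w)) 0 = fderiv ℝ f w x := by
  have h1 : DifferentiableAt ℝ f w :=
    (hf.contDiffAt (hU.mem_nhds hw)).differentiableAt (by simp)
  have h2 : HasDerivAt (fun t : ℝ => t • x + w) x 0 := by
    have := ((hasDerivAt_id (0 : ℝ)).smul_const x).add_const w
    simpa using this
  have h3 : HasFDerivAt f (fderiv ℝ f w) ((0 : ℝ) • x + w) := by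
    rw [zero_smul, zero_add]
    exact h1.hasFDerivAt
  have h4 := h3.comp_hasDerivAt (0 : ℝ) h2
  have h5 : (fun t : ℝ => f (ax t x w)) = f ∘ fun t : ℝ => t • x + w := by
    funext t
    rw [ax_eq]; rfl
  rw [h5]
  exact h4.deriv

theorem TripleP.to {U : Set (CV n)} {τ : Forms n} (h : TripleP U τ) : IsHKTripleOn U τ where
  triple w hw := (flat_iff _).1 (h.triple w hw)
  smooth := h.smooth
  closed a w hw u v x := by
    have h1 := h.closed a u v x w hw
    rw [deriv_ax h.isOpen (h.smooth a u v) hw, deriv_ax h.isOpen (h.smooth a v x) hw,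
      deriv_ax h.isOpen (h.smooth a x u) hw] at h1
    exact h1

theorem per_eq (τ : CV n → Form n) (w : CV n) (j l : Fin (2 * n)) :
    per τ w j l = period τ w j l := by
  rw [per, period]
  congr 1
  funext p
  rw [ax_eq, ax_eq, ib_eq, ib_eq]
  have h1 : p.1 • (Complex.I • basisVec n j) + (p.2 • (Complex.I • basisVec n l) + w) =
      w + ((p.1 : ℂ) * Complex.I) • basisVec n j + ((p.2 : ℂ) * Complex.I) • basisVec n l := by
    rw [mul_smul, mul_smul, Complex.coe_smul, Complex.coe_smul]
    abel
  rw [h1]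

theorem dv_eq {f : RV n → RV n} (hf : ContDiff ℝ 1 f) (y u : RV n) :
    dv f y u = fderiv ℝ f y u := by
  have h1 : HasFDerivAt f (fderiv ℝ f y) y :=
    ((hf.differentiable (by simp)).differentiableAt).hasFDerivAt
  have h2 : HasDerivAt (fun t : ℝ => y + t • u) u 0 := by
    have := ((hasDerivAt_id (0 : ℝ)).smul_const u).const_add y
    simpa using this
  have h3 : HasFDerivAt f (fderiv ℝ f y) (y + (0 : ℝ) • u) := by
    rw [zero_smul, add_zero]
    exact h1
  have h4 := h3.comp_hasDerivAt (0 : ℝ) h2
  funext j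
  have h5 := (hasDerivAt_pi.1 h4 j).deriv
  exact h5

end Triple

namespace Model

variable {m : ℕ} {D : Geo2 m} {S : Model D} {A : ℝ}

theorem logP_to {k : ℕ} {x : D.X} {Z : Matrix (Fin m) (Fin m) ℂ} (h : S.LogP A k x Z) :
    S.LogFrame A k x Z where
  succ i := by
    have h1 := h.1 i
    rw [Bd, Pos, ← sub_eq_add_neg] at h1
    exact h1
  zero := by
    have h1 := h.2
    rw [Bd, Pos, ← sub_eq_add_neg] at h1
    have h2 : (fun j => D.dl (S.M k) (S.y k 0) x j - ∑ i, Z i j) =
        D.dl (S.M k) (S.y k 0) x - ∑ i, Z i := by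
      funext j
      rw [Pi.sub_apply, Finset.sum_apply]
    rw [h2] at h1
    exact h1

theorem FactsP.to (h : S.FactsP A) : S.Facts A where
  one_le := h.one_le
  L_one k := (h.vol k).1
  L_top := h.L_top
  κ_nonneg := h.κ_nonneg
  vol k := by
    have h1 := (h.vol k).2
    rw [Geo2.int, integral_const, smul_eq_mul, mul_one] at h1
    exact h1
  y_sm k i := (h.y k i).1
  y_bdd k i := (h.y k i).2.1
  y_nonneg k i x := ((h.y k i).2.2 x).1
  y_le k i x := ((h.y k i).2.2 x).2.1
  u_sm k := (h.u k).1
  u_bdd k := (h.u k).2.1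
  fs k := (h.u k).2.2
  curv_le k i x := by
    have h1 := ((h.y k i).2.2 x).2.2.2
    rw [Pos, ← sub_eq_add_neg] at h1
    exact h1
  curv_ge k i x := ((h.y k i).2.2 x).2.2.1
  φ_meas k := (h.φ k).1
  φ_cont k := (h.φ k).2
  y_succ k w hw i := (h.chart k w hw).1 i
  y_zero k w hw := (h.chart k w hw).2.1
  frame k w hw := logP_to (h.chart k w hw).2.2.1
  Z_cont k := by
    intro w hw
    refine continuousWithinAt_pi.2 fun i => continuousWithinAt_pi.2 fun j => ?_
    exact h.Z_cont k i j w hw
  det_Z k w hw := (h.chart k w hw).2.2.2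
  deep k x hx := by
    obtain ⟨Z, h1, h2⟩ := h.deep k x hx
    exact ⟨Z, h2, logP_to h1⟩
  cov k f hf := by
    have h1 := h.cov k f hf
    exact h1
  len k w v hs := by
    have e : ∀ s : ℝ, (fun i => w i + s * v i) = w + s • v := by
      intro s
      funext i
      simp
    have h1 := h.len k w v (fun s hs0 hs1 => by
      rw [e]
      exact hs s ⟨hs0, hs1⟩)
    simp only [e] at h1
    exact h1

end Model

namespace HKData

variable {n b : ℕ} {C : HKData n b}

theorem FactsP.to (h : C.FactsP) : C.Facts where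
  rules := Geo2.RulesP.to h.rules
  heat := by
    obtain ⟨B, hB, h1⟩ := h.heat
    exact ⟨B, Geo2.HeatP.to hB h1⟩
  regularity := h.regularity.to
  chart_triple g φ U om r hc := (h.chart g φ U om r hc).1.to
  chart_period g φ U om r hc c w hw j l hjl := by
    rw [← per_eq]
    exact (((h.chart g φ U om r hc).2 w hw).2 c j).2 l hjl
  torus := by
    refine MCL.torus_field C (fun g φ U om r hc => (h.chart g φ U om r hc).1.to)
      (fun g φ U om r hc c w hw j l hjl => ?_)
      (fun g φ U om r hc => (h.chart g φ U om r hc).1.isOpen)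
      (fun g φ U om r hc w hw y => ((h.chart g φ U om r hc).2 w hw).1 y)
      (fun g φ U om r hc w hw j c => ?_)
      (fun g φ U om r w₀ hc hball f hf hfp hfv hfz a ha => ?_)
    · rw [← per_eq]
      exact (((h.chart g φ U om r hc).2 w hw).2 c j).2 l hjl
    · have h1 := (((h.chart g φ U om r hc).2 w hw).2 c j).1
      have h2 : ax (2 * Real.pi) (ib j) w = w + (2 * Real.pi * Complex.I) • basisVec n j := by
        rw [ax_eq, ib_eq, add_comm, ← Complex.coe_smul, smul_smul]
        push_cast
        rfl
      rwa [h2] at h1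
    · refine h.graph g φ U om r w₀ f a hc ⟨fun w hw => hball ?_, hf, fun y j => ⟨hfv y j, ?_⟩⟩
        (fun y u v c hc0 => ?_) ha
      · rw [Metric.mem_ball, dist_eq_norm, pi_norm_lt_iff (by norm_num)]
        exact hw
      · have h1 : (fun i => y i + if i = j then 2 * Real.pi else 0) =
            y + Pi.single j (2 * Real.pi) := by
          funext i
          by_cases hij : i = j
          · subst hij; simp
          · simp [hij]
        rw [h1]
        exact hfp y j
      · rw [dv_eq hf, dv_eq hf]
        exact hfz y u v c hc0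

theorem LogModel.FactsP.to {Q : C.LogModel} {h : ℕ → C.HK} {A : Vec b} {N : Vec b → Vec b}
    {B : ℝ} (hQ : Q.FactsP h A N B) : Q.Facts h A N B where
  facts := hQ.facts.to
  met := hQ.met
  chart := hQ.chart
  om_J k w hw u v := by
    rw [hQ.om_J k w u v hw]
    rfl
  res_add k x y j l := by
    have h1 := hQ.res_lin k 1 x y j l
    simp only [one_mul] at h1
    exact h1
  res_smul k c x j l := by
    have h0 : Q.res k 0 j l = 0 := by
      have h1 := hQ.res_lin k 1 0 0 j l
      simp only [one_mul, Pi.zero_apply, add_zero] at h1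
      have h2 : (fun _ : Fin b => (0 : ℝ)) = 0 := rfl
      rw [h2] at h1
      linarith
    have h1 := hQ.res_lin k c x 0 j l
    rw [h0, add_zero] at h1
    simp only [Pi.zero_apply, add_zero] at h1
    exact h1
  res_A k j l := (hQ.res k 0).1 j l
  res_N k x j l := (hQ.res k x).2 j l

end HKData

end Pool.Agent.SYP
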