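import Pool.Agent.SYM.V3P.AdaptReg
import Pool.Agent.SYM.V3P.QuantP

/-!
# SYM/V3P/AdaptQ : from QuantP to Quant
-/

set_option autoImplicit false

open MeasureTheory Set Filter
open scoped Topology ComplexConjugate

namespace Pool.Agent.SYM

theorem Reg.GradEstP.to {D : Reg} {N : ℕ} (h : D.GradEstP N) : D.GradEst N where
  gain := fun p hp w hw hb hi hl => (h p hp w hw hb hi hl).1
  sup := fun p hN hp w hw hb hi hl => (h p hp w hw hb hi hl).2 hN

namespace V3

variable {D : Reg}

theorem Charts.FactsP.to {C : Charts D} {φ : D.F} (h : C.FactsP φ) : C.Facts φ where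
  isOpen := fun c => (h.z_sm c).1
  z_sm := fun c => (h.z_sm c).2.1
  z_nonneg := fun c x => (h.nonneg c x).1
  z_sum := h.z_sum
  z_supp := fun c => (h.z_sm c).2.2.1
  z_bdd := h.z_bdd
  u_sm := fun c => (h.z_sm c).2.2.2
  u_nonneg := fun c x => (h.nonneg c x).2.1
  a_nonneg := fun c x => (h.nonneg c x).2.2
  lap_u := fun c x hx => (h.kato c x hx).1
  kato := fun c x hx => (h.kato c x hx).2
  comp := by
    obtain ⟨K, hK, h1⟩ := h.comp
    exact ⟨K, hK, fun c c' x hx hx' => (h1 c x hx).2 c' hx'⟩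
  growth := by
    obtain ⟨K, hK, h1⟩ := h.comp
    exact ⟨K, hK, fun c x hx => (h1 c x hx).1⟩

theorem Sec.FactsP.zero {A : Sec D.X} (h : A.FactsP D) (r : A.S) (x : D.X) : A.ip 0 r x = 0 := by
  have h1 := h.add r (-1) r r x
  have e : A.ax r (-1) r = 0 := by
    show r + (-1 : ℂ) • r = 0
    rw [neg_one_smul, add_neg_cancel]
  rw [e] at h1
  rw [h1]
  simp

theorem Sec.FactsP.to {A : Sec D.X} (h : A.FactsP D) : A.Facts D where
  add_left := fun s t r x => by
    have h1 := h.add s 1 t r x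
    have e : A.ax s 1 t = s + t := by
      show s + (1 : ℂ) • t = s + t
      rw [one_smul]
    rw [e] at h1
    rw [h1]
    simp
  smul_left := fun c s t x => by
    have h1 := h.add 0 c s t x
    have e : A.ax 0 c s = c • s := zero_add _
    rw [e, h.zero, zero_add] at h1
    exact h1
  symm := h.symm
  nonneg := h.nonneg
  eq_zero := h.eq_zero
  cont := h.cont
  mul_ip := h.mul_ip

namespace Bun

variable {B : Bun D} {k : ℝ} {m : ℕ}

theorem FactsP.to (h : B.FactsP k m) : B.Facts k m where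
  f0 := h.f0.to
  f1 := h.f1.to
  f2 := h.f2.to
  d1_d0 := h.d1_d0
  n_sm := fun s => (h.n_sm s).1
  nab_cont := fun s => (h.n_sm s).2
  nab_add := fun s t x => by
    have h1 := h.nab s 1 t x
    have e : B.A0.ax s 1 t = s + t := by
      show s + (1 : ℂ) • t = s + t
      rw [one_smul]
    rw [e] at h1
    simpa using h1
  nab_smul := fun c s x => by
    have h1 := h.nab_smul c s x
    have e : B.A0.ax B.A0.o c s = c • s := zero_add _
    rw [e] at h1
    exact h1
  d0_le := h.d0_le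
  l0 := h.leib.1.1
  l1 := h.leib.2.1.1
  ls := h.leib.2.2.1
  leib0 := h.leib.1.2
  leib1 := h.leib.2.1.2
  leibs := h.leib.2.2.2
  adj := h.adj
  bk := h.bk
  weitz := h.weitz
  kato := h.kato

theorem SpectrumP.to {v : ℕ → B.A0.S} {l : ℕ → ℝ} (h : B.SpectrumP v l) : B.Spectrum v l where
  eig := fun i => (h.eig i).1.trans (zero_add _)
  int := fun i => (h.eig i).2.1
  nab_int := fun i => (h.eig i).2.2
  ortho := h.ortho
  parseval := h.parseval

theorem FrameP.to {C : Charts D} {co : Fin C.N → B.A0.S → D.X → ℂ} (h : B.FrameP C co) :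
    B.Frame C co where
  re_sm := fun c s => (h.sm c s).1
  im_sm := fun c s => (h.sm c s).2
  abs_eq := by
    obtain ⟨K, hK, h1⟩ := h.le
    exact fun c s x hx => (h1 c s x hx).1
  gr_le := by
    obtain ⟨K, hK, h1⟩ := h.le
    exact ⟨K, hK, fun c s x hx => (h1 c s x hx).2.1⟩
  nab_le := by
    obtain ⟨K, hK, h1⟩ := h.le
    exact ⟨K, hK, fun c s x hx => (h1 c s x hx).2.2.1⟩
  lap_le := by
    obtain ⟨K, hK, h1⟩ := h.le
    exact ⟨K, hK, fun c s x hx => (h1 c s x hx).2.2.2⟩

theorem L2Est.toP (h : B.L2Est k) : B.L2EstP k := by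
  intro f h1 h2 h3
  obtain ⟨g, h4, h5, h6, h7⟩ := h f h1 h2 h3
  exact ⟨g, fun n => ⟨h4 n, h5 n⟩, h6, h7⟩

theorem LipHol.toP (h : B.LipHol) : B.LipHolP := h

end Bun

theorem Quant.FactsP.to {Q : Quant D} (hD : D.Basic) (h : Q.FactsP) : Q.Facts where
  calculus := hD.calculus
  leib := hD.leibniz
  sheaf := hD.sheaf
  pole := h.pole.to
  phi_sq := h.phi_sq
  approx := hD.approx'
  sobolev := hD.sobolev'
  honda := fun h1 => (h.honda h1.toP).to
  m_pos := h.m_pos
  κ_pos := h.κ_pos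
  charts := h.charts.to
  bun := fun j hj => (h.bun j hj).1.to
  spec := fun j hj => (h.bun j hj).2.1.to
  frame := fun j hj => (h.bun j hj).2.2.to

theorem Quant.Goal.toP {Q : Quant D} (h : Q.Goal) : Q.GoalP :=
  fun j hj => ⟨(h j hj).1.toP, (h j hj).2.toP⟩

end V3

end Pool.Agent.SYM
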