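import Pool.Agent.SYM.V3P.RegP
import Pool.Agent.SYM.V3.Quant

/-!
# SYM/V3P/AdaptReg : from RegP to SingData, SingMoser, Quant
-/

set_option autoImplicit false

open MeasureTheory Set Filter
open scoped Topology ContDiff

namespace Pool.Agent.SYM.Reg

variable {D : Reg}

theorem Basic.calculus (h : D.Basic) : D.Calculus where
  fin := h.fin
  pos := h.pos
  sm_cont := fun f hf => (h.cont f hf).1
  sm_sub := fun f hf k hk => (h.sm f k hf hk).2.2.1
  gr_sm := fun f hf k hk => (h.sm f k hf hk).2.1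
  lap_sm := fun f hf => (h.sm f f hf hf).1
  lap_sub := fun f hf k hk => h.lap_sub f k hf hk
  gr_nonneg := fun f hf x => (h.nonneg f hf x).1
  gr_smul := by
    intro f hf k hk c x
    have h0 : ContDiffOn ℝ ∞ (fun t : ℝ => c * t) univ := by fun_prop
    have h1 := h.comp univ (fun t => c * t) k f hk ⟨isOpen_univ, h0, fun _ => mem_univ _⟩ hf
    have h2 := (h1.2 x).1
    have h3 := (h.gr _ f f h1.1 hf hf x).1
    rw [← h3, h2, (h.gr k f f hk hf hf x).1]
    simp
  gr_const := h.gr_const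
  h20_cont := fun f hf => (h.cont f hf).2.1
  h11_cont := fun f hf => (h.cont f hf).2.2
  h20_nonneg := fun f hf x => (h.nonneg f hf x).2.1
  h11_nonneg := fun f hf x => (h.nonneg f hf x).2.2
  h11_add := h.h11_add
  comp := fun s F hs hF f hf hx => (h.comp s F f f hf ⟨hs, hF, hx⟩ hf).1
  gr_comp := fun s F hs hF f hf hx k hk x => by
    have h1 := h.comp s F f k hf ⟨hs, hF, hx⟩ hk
    refine ⟨(h1.2 x).1, ?_⟩
    rw [(h.gr k _ k hk h1.1 hk x).1, (h1.2 x).1, (h.gr k f k hk hf hk x).1]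
  lap_comp := fun s F hs hF f hf hx x => ((h.comp s F f f hf ⟨hs, hF, hx⟩ hf).2 x).2
  cs_sm := fun χ hχ => (h.cs χ hχ).1
  cs_lap := fun χ hχ => (h.cs χ hχ).2.1
  cs_gr := fun χ hχ f hf => (h.cs_mul χ f hχ hf).1
  cs_int := fun χ hχ f hf => (h.cs χ hχ).2.2 f hf
  stokes := fun χ hχ f hf => (h.stokes χ f hχ hf).1
  green := fun χ hχ f hf => (h.stokes χ f hχ hf).2
  bochner := fun f hf x => (h.bochner f hf x).1
  kato := fun f hf x => (h.bochner f hf x).2

theorem Basic.leibniz (h : D.Basic) : D.Leibniz where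
  mul := fun f hf k hk => (h.sm f k hf hk).2.2.2
  cs_mul := fun χ hχ f hf => (h.cs_mul χ f hχ hf).2
  gr_symm := fun f hf k hk x => (h.gr f k f hf hk hf x).1
  gr_sub := fun f hf k hk l hl x => (h.gr f k l hf hk hl x).2.1
  gr_mul := fun f hf k hk l hl x => (h.gr f k l hf hk hl x).2.2

theorem Basic.sheaf (h : D.Basic) : D.Sheaf where
  glue := h.glue
  lap_loc := fun f k x e => (h.loc f k f x e).1
  gr_loc := fun f k l x e => (h.loc f k l x e).2

theorem PoleP.to {φ : D.F} (h : D.PoleP φ) : D.Pole φ where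
  sm := h.sm
  le := h.le
  cpt := fun s F hs hF hx hk => h.cpt s F ⟨hs, hF, hx⟩ hk
  lap_int := h.lap_int
  lap_zero := h.lap_zero
  growth := fun f hf l hM hl => h.growth f l hf hM hl

theorem Basic.approx' (h : D.Basic) : D.Approx := by
  intro k hk hM h0
  obtain ⟨f, h1, h2, h3, b, l, ρ, h4, h5, h6⟩ := h.approx k hk hM h0
  exact ⟨f, h1, h2, h3, b, l, ρ, fun j => (h4 j).1, fun j => (h4 j).2.1,
    fun j x => ((h4 j).2.2.1 x).1, fun j x => ((h4 j).2.2.1 x).2, fun j => (h4 j).2.2.2.1,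
    fun j => (h4 j).2.2.2.2, h5, h6⟩

theorem Basic.pole' (h : D.Basic) : ∃ φ, D.Pole φ := by
  obtain ⟨φ, h1⟩ := h.pole
  exact ⟨φ, h1.to⟩

theorem Basic.sobolev' (h : D.Basic) : D.Sobolev := h.sobolev

theorem EigenLipP.to (h : D.EigenLipP) : D.EigenLip :=
  fun f hf _ l hM hl => h f l hf ⟨_, hM⟩ hl

theorem EigenLip.toP (h : D.EigenLip) : D.EigenLipP :=
  fun f l hf ⟨M, hM⟩ hl => h f hf M l hM hl

end Pool.Agent.SYM.Reg
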