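import Pool.Agent.SYM.V3P.FamD

/-!
# SYM/V3P/World : all projective primitive symplectic varieties
-/

set_option autoImplicit false

namespace Pool.Agent.SYM.V3P

/-- The projective primitive symplectic varieties with their line bundles, and the locally trivial
deformation classes of primitive symplectic varieties with `ℚ`-factorial terminal singularities. -/
structure World where
  /-- the projective primitive symplectic varieties `M` -/
  V : Type
  /-- the line bundles on `M` -/
  Bundle : V → Type
  /-- nef line bundles -/
  Nef : ∀ M, Bundle M → Prop
  /-- semiample line bundles -/
  Semiample : ∀ M, Bundle M → Prop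
  /-- the classes -/
  K : Type
  C : K → Fam

/-- The `ℚ`-factorial terminalization `π : X → M` of a projective primitive symplectic variety
(Birkar-Cascini-Hacon-McKernan) is a projective primitive symplectic variety with `ℚ`-factorial
terminal singularities, so it is a member `X_i` of one of the classes. Here `f L` is the class of
`π^* L`; pull-backs of nef line bundles are nef, and `L` is semiample if `π^* L` is semiample. -/
def World.Terminalization (W : World) : Prop :=
  ∀ M, ∃ (k : W.K) (i : (W.C k).I) (f : W.Bundle M → (W.C k).V), (W.C k).Proj i ∧
    ∀ L, (W.C k).Int (f L) ∧ (W.Nef M L → (W.C k).Nef i (f L)) ∧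
      ((W.C k).Semiample i (f L) → W.Semiample M L)

end Pool.Agent.SYM.V3P
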