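import Pool.Agent.SYM.V3P.FamP
import Pool.Agent.SYM.V3P.World
import Pool.Agent.SYM.V3P.AdaptReg
import Pool.Agent.SYM.V3P.AdaptQ
import Pool.Agent.SYM.V3P.AdaptHK
import Pool.Agent.SYM.V3.Pub3
import Pool.Agent.SYM.SingMain

/-!
# SYM/V3P/AdaptD : from FamD, FamP to V3/Pub3
-/

set_option autoImplicit false

open MeasureTheory Set Filter Topology Module

namespace Pool.Agent.SYM.V3P

open SYP (Vec IsIntegral HKData)

/-- The data of `V3.Fam`. -/
noncomputable def Fam.old (C : Fam) : V3.Fam C.n C.b where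
  q := C.q
  S := {s | C.S s}
  I := C.I
  per := C.per
  kahler := fun i => {κ | C.Kah i κ}
  Semiample := C.Semiample
  Torus := fun i a => ∃ h, C.IsMem h i ∧ C.M.LagTorus h a
  Covered := C.Covered
  Swept := C.Swept
  nefDim := C.nefDim
  numDim := C.numDim
  kod := C.kod
  M := C.M
  diff := C.diff
  IsMem := fun h _ i => C.IsMem h i
  Pol := C.Pol
  quant := C.quant
  pts := C.pts
  Ang := C.Ang
  pk := C.pk

variable {C : Fam}

theorem Fam.LatP.q_zero (h : C.LatP) (y : C.V) : C.q 0 y = 0 := by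
  have := h.lin 0 0 0 0 y
  simpa [Fam.lc] using this

theorem Fam.LatP.q_add (h : C.LatP) (x x' y : C.V) : C.q (x + x') y = C.q x y + C.q x' y := by
  have := h.lin 1 x 1 x' y
  simpa [Fam.lc] using this

theorem Fam.LatP.q_smul (h : C.LatP) (c : ℝ) (x y : C.V) : C.q (c • x) y = c * C.q x y := by
  have := h.lin c x 0 x y
  simpa [Fam.lc] using this

theorem Fam.LatP.q_sum (h : C.LatP) {ι : Type*} (s : Finset ι) (f : ι → C.V) (y : C.V) :
    C.q (∑ i ∈ s, f i) y = ∑ i ∈ s, C.q (f i) y := by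
  classical
  induction s using Finset.induction_on with
  | empty => simpa using h.q_zero y
  | insert a s ha ih => rw [Finset.sum_insert ha, Finset.sum_insert ha, h.q_add, ih]

theorem Fam.LatP.lattice (h : C.LatP) : C.old.LatticeAxioms where
  q_add := h.q_add
  q_smul := h.q_smul
  symm := h.symm
  integral := h.integral
  signature := by
    obtain ⟨e, he, hneg⟩ := h.signature
    have hq : ∀ (c : Fin 3 → ℝ) (j : Fin 3), C.q (∑ i, c i • e i) (e j) = c j := by
      intro c j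
      rw [h.q_sum]
      simp_rw [h.q_smul, he]
      simp
    have hli : LinearIndependent ℝ e := by
      rw [Fintype.linearIndependent_iff]
      intro c hc j
      rw [← hq c j, hc]
      exact h.q_zero _
    refine ⟨Submodule.span ℝ (Set.range e), ?_, ?_, ?_⟩
    · rw [finrank_span_eq_card hli]
      simp
    · intro x hx hx0
      obtain ⟨c, rfl⟩ := (Submodule.mem_span_range_iff_exists_fun ℝ).1 hx
      show 0 < C.q (∑ i, c i • e i) (∑ i, c i • e i)
      have h1 : C.q (∑ i, c i • e i) (∑ i, c i • e i) = ∑ i, c i ^ 2 := by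
        rw [h.q_sum]
        refine Finset.sum_congr rfl fun i _ => ?_
        rw [h.q_smul, h.symm, hq c i]
        ring
      rw [h1]
      rcases (Finset.sum_nonneg fun i (_ : i ∈ Finset.univ) => sq_nonneg (c i)).lt_or_eq with h2 | h2
      · exact h2
      · exfalso
        apply hx0
        have h3 := (Finset.sum_eq_zero_iff_of_nonneg fun i (_ : i ∈ Finset.univ) =>
          sq_nonneg (c i)).1 h2.symm
        refine Finset.sum_eq_zero fun i hi => ?_
        have h4 : c i = 0 := by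
          have := h3 i hi
          simpa using this
        rw [h4, zero_smul]
    · intro x hx hx0
      exact hneg x (fun i => hx (e i) (Submodule.subset_span ⟨i, rfl⟩)) hx0

theorem Fam.LatP.kahler (h : C.LatP) : C.old.KahlerAxioms where
  per_exists := h.per_exists
  per_pos := h.per_pos
  per_basis := h.per_basis
  kahler_nonempty := h.kahler_nonempty
  kahler_type := fun i x y hp κ hκ => h.kahler_type i x y κ hp hκ
  kahler_pos := fun i κ hκ κ' hκ' => h.kahler_pos i κ κ' hκ hκ'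
  kahler_smul := fun i κ hκ c hc => by
    have h1 := h.kahler_add i κ κ hκ (subset_closure hκ) c 0 hc le_rfl
    have h2 : C.lc c κ 0 κ = c • κ := by
      simp [Fam.lc]
    rw [h2] at h1
    exact h1
  kahler_add := fun i κ hκ a ha => by
    have h1 := h.kahler_add i κ a hκ ha 1 1 one_pos zero_le_one
    have h2 : C.lc 1 κ 1 a = κ + a := by
      simp [Fam.lc]
    rw [h2] at h1
    exact h1

theorem Fam.NearP.to (h : C.NearP) : C.old.NearAxioms where
  wall := fun s hs => by
    obtain ⟨K, hK⟩ := h.wall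
    exact ⟨(hK s hs).1, (hK s hs).2.1⟩
  wall_bound := by
    obtain ⟨K, hK⟩ := h.wall
    exact ⟨K, fun s hs => (hK s hs).2.2⟩
  ample_iff := fun i x y hp A hA hAi B hB => h.ample_iff i x y A B hp hA hAi hB
  near := fun i a x y κ hn h0 hq hp hκ => by
    obtain ⟨ε, hε, H⟩ := h.near i a x y κ ⟨hn, h0, hq⟩ hp hκ
    exact ⟨ε, hε, fun x' y' κ' h1 h2 h3 h4 h5 => H x' y' κ' h1 h2 h3 h4 h5⟩
  spread := fun i a hn h0 hq hs => h.spread i a ⟨hn, h0, hq⟩ hs
  covered := fun i a hn hs => h.covered i a hn hs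

theorem Fam.NefP.to (h : C.NefP) : C.old.NefAxioms where
  trivial := fun i hi => h.trivial i hi
  base_point_free := fun i a hn hq => h.bpf i a hn hq
  sweep := fun i a hn ⟨hh, h1, h2⟩ => h.sweep hh i a h1 hn h2
  nefDim_le := fun i a hn hc => (h.dim i a hn).2.1 hc
  numDim_le := fun i a hn => (h.dim i a hn).1
  numDim_eq := fun i a hn h0 hq => (h.dim i a hn).2.2.1 h0 hq
  kod_eq := fun i a hn he => (h.dim i a hn).2.2.2 he
  kawamata := fun i a hn he => h.kawamata i a hn he

theorem Fam.MetricP.lip (h : C.MetricP) (g : C.Met) : (C.reg g).EigenLipP := by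
  intro f l hf hM hl
  have hb := h.basic g
  obtain ⟨φ, hφ⟩ := hb.pole'
  obtain ⟨M, hM⟩ := hM
  exact Reg.lipschitz_of_sobolev hb.calculus hb.leibniz hφ hb.approx' hb.sobolev' hf hM hl

theorem Fam.MetricP.to (h : C.MetricP) : C.old.MetricAxioms where
  egz := fun i x y κ hi hκ hper hk hxy hx hy => by
    obtain ⟨hh, h1, h2, h3, h4⟩ := h.egz i x y κ ⟨hi, hκ, hper, hk, hxy, hx, hy⟩
    exact ⟨hh, h1, h2, h3, h4⟩
  calculus := fun g => (h.basic g).calculus
  leibniz := fun g => (h.basic g).leibniz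
  pole := fun g => (h.basic g).pole'
  approx := fun g => (h.basic g).approx'
  sobolev := fun g => (h.basic g).sobolev'
  rcd := fun _ => ⟨(h.rcd h.lip).to.heat, (h.rcd h.lip).to.regularity⟩
  hk := fun _ _ => (h.rcd h.lip).to
  quant_facts := fun hh i A t hi hmem hrat hA ht h1 =>
    V3.Quant.FactsP.to (h.basic _) (h.quant hh i A ⟨hi, hmem, hrat, hA, t, ht, h1⟩)
  torus := fun hh i a h1 h2 => ⟨hh, h1, h2⟩

theorem Fam.nil_old (C : Fam) (α A₀ x : C.V) : C.old.nil α A₀ x = C.nil α A₀ x := by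
  simp [V3.Fam.nil, Fam.nil, Fam.lc, Fam.old, sub_eq_add_neg]

theorem Fam.orbRe_old (C : Fam) (α A₀ ω : C.V) (y : ℝ) :
    C.old.orbRe α A₀ ω y = C.orbRe α A₀ ω y := by
  unfold V3.Fam.orbRe Fam.orbRe
  rw [Fam.nil_old, Fam.nil_old]
  show ω - (y ^ 2 / 2) • _ = (1 : ℝ) • ω + (-(y ^ 2 / 2)) • _
  rw [one_smul, neg_smul, sub_eq_add_neg]

theorem Fam.orbIm_old (C : Fam) (α A₀ ω : C.V) (y : ℝ) :
    C.old.orbIm α A₀ ω y = C.orbIm α A₀ ω y := by
  unfold V3.Fam.orbIm Fam.orbIm
  rw [Fam.nil_old]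

theorem Fam.DegP.to (h : C.DegP) : C.old.DegenerationAxiom := by
  intro α A A₀ ω h1 h2 h3 h4 h5 h6 h7 h8 h9 h10 h11 h12 hh y t hy hpol hcl
  have hnil : (C.nil α A₀ : C.V → C.V) = C.old.nil α A₀ := by
    funext x
    exact (C.nil_old α A₀ x).symm
  have h13 := h α A A₀ ω hh y t h1 h2 h3 h4 h5 h6 h7 h8 h9 h10 h11 h12 hy (fun k => by
    obtain ⟨k1, k2, k3, k4⟩ := hcl k
    refine ⟨hpol k, k1, ?_, k3, ?_⟩
    · rw [← C.orbRe_old]
      exact k2
    · rw [← C.orbIm_old]
      show C.M.cls (hh k) 2 = (-1 : ℝ) • _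
      rw [neg_one_smul]
      exact k4)
  obtain ⟨s, Q, B, hs, hQ⟩ := h13
  refine ⟨s, Q, B, hs, ?_⟩
  rw [hnil] at hQ
  exact hQ.to

end Pool.Agent.SYM.V3P
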