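import Pool.Agent.SYM.V3P.QuantP
import Pool.Agent.SYM.V3.PkData

/-!
# SYM/V3P/PeakP : holomorphic sections for the rotated complex structure, published facts

Calculus on `X`, the theory of compact `RCD` spaces, and the Gaussian sections of Donaldson and Sun
for the projective varieties `X_0 × X_u` and `(X_0 × X_u)²`, in the notation of `V3/PkData`.
-/

set_option autoImplicit false

open MeasureTheory Set Filter
open scoped Topology

namespace Pool.Agent.SYM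

/-- `x ∈ U` -/
abbrev Reg.In (D : Reg) (U : Set D.X) (x : D.X) : Prop := x ∈ U

/-- `χ` is smooth with support in the open set `U` -/
abbrev Reg.Supp (D : Reg) (χ : D.F) (U : Set D.X) : Prop := D.Sm χ ∧ IsOpen U ∧ tsupport χ ⊆ U

namespace V3

/-- the volume of the ball with centre `p` and radius `ρ` -/
noncomputable abbrev Pts.vol {D : Reg} (P : Pts D) (p : P.P) (ρ : ℝ) : ℝ :=
  D.vol.real {x | P.d p x < ρ}

/-- `X̂` is a compact non-collapsed `RCD(0, 2m)` space, of which `X` is the regular part, with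
complement of capacity zero, and its distance is given by the lengths of the curves in `X`.
* `vol`: Bishop-Gromov.
* `mean`: the mean value inequality (Moser iteration on balls of radius `λ^(-1/2)`) for bounded
  solutions of `Δ w ≥ - λ w`. -/
structure Pts.RcdP {D : Reg} (P : Pts D) (m : ℕ) (B : ℝ) : Prop where
  one_le : 1 ≤ B
  dist : ∀ p, D.Cont (P.d p) ∧ ∀ x, 0 ≤ P.d p x
  sep : ∀ p q, p ≠ q → ∃ ρ : ℝ, 0 < ρ ∧ ∀ x, ρ ≤ P.d p x + P.d q x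
  vol : ∀ p ρ, 0 < ρ → P.vol p ρ ≤ B * ρ ^ (2 * m) ∧ (ρ ≤ 1 → ρ ^ (2 * m) ≤ B * P.vol p ρ)
  cut : ∀ p ρ, 0 < ρ → ∃ χ, D.Sm χ ∧ ∀ x, 0 ≤ χ x ∧ χ x ≤ 1 ∧ (P.d p x < ρ → χ x = 1) ∧
    (3 * ρ ≤ 2 * P.d p x → χ x = 0) ∧ D.gr χ χ x ≤ B / ρ ^ 2
  lip : ∀ w K, D.Sm w → 0 ≤ K → (∀ x, D.gr w w x ≤ K ^ 2) →
    ∀ p x y, |w x - w y| ≤ B * K * (P.d p x + P.d p y)
  mean : ∀ w lam, D.Sm w → D.Bdd w → 1 ≤ lam → (∀ x, 0 ≤ w x ∧ -(lam * w x) ≤ D.lap w x) →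
    ∀ x, w x ≤ B * lam ^ m * D.int w

/-- Bochner's formula for `∇ s`, `s` a holomorphic section of the line bundle `L` with curvature
`k ω`: `Δ |∇ s|² = |∇ ∇ s|² + m k² |s|² - (m + 2) k |∇ s|²`, as `Ric = 0` and the curvature of `L` is
parallel. -/
def Bun.GradP {D : Reg} (B : Bun D) (k : ℝ) (m : ℕ) : Prop :=
  ∀ s, D.Sm (B.nab s) ∧
    (B.d0 s = B.A1.o → ∀ x, -((m + 2) * k * B.nab s x) ≤ D.lap (B.nab s) x)

namespace Quant

variable {D : Reg} (Q : Quant D)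

/-- `j κ`; the sections of `L^j`; `|s|²`, `|∂bar s|²`; `j κ d(z, x)²` and the ball where it is less
than `R²` -/
abbrev k (j : ℕ) : ℝ := j * Q.κ
abbrev S (j : ℕ) : Type := (Q.B j).S0
noncomputable abbrev n (j : ℕ) (s : Q.S j) : D.F := (Q.B j).n0 s
noncomputable abbrev e (j : ℕ) (s : Q.S j) : D.F := (Q.B j).n1 ((Q.B j).d0 s)
abbrev r (P : Pts D) (j : ℕ) (z : P.P) (x : D.X) : ℝ := Q.k j * P.d z x ^ 2
abbrev ball (P : Pts D) (j : ℕ) (z : P.P) (R : ℝ) : Set D.X := {x | Q.r P j z x < R ^ 2}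

/-- * `pot`: `i ∂∂̄ φ = ω_I` and `i ∂_u ∂̄_u φ' = ω_u`.
* `tensor`: `e = (s₁ / |s₁|) ⊗ (s₂ / |s₂|)⁻¹` is a unitary frame of `L^j` over `U`. As
  `κ₁ d^c_u = κ₂ d^c_I + κ d^c_J` one has `∇ e = - (i j / 2) (κ d^c_J φ + κ₁ d^c_u (φ' - φ)) e`, so
  `v = χ exp(- j κ φ / 2) e` has
  `∂̄_J v = (∂̄_J χ - (i j κ₁ / 2) χ (d^c_u (φ' - φ))^{0,1}) exp(- j κ φ / 2) e`.
* `rcd`: `EigenLip` is Honda's criterion for the `RCD` property of the completion.
* `peak`: let `Y` be a projective variety with klt singularities and `K = 0`, `L` an ample line bundle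
  with a metric of curvature the singular Ricci-flat metric, the completion of `Y_reg` an `RCD` space.
  For `z ∈ Y` and `ζ > 0` there are arbitrarily large divisible `j` and sections `s` of `L^j` such that
  `| |s| - exp(- j d(z, ·)² / 4) | < ζ` (Donaldson-Sun for smooth `Y`; Liu-Székelyhidi, Proposition
  3.1; Székelyhidi, Singular Kähler-Einstein metrics and RCD spaces). This is applied to
  `Y = (X_0 × X_u)²`, `L = (L₂ ⊠ L₁)^{⊠ 2}` and `z = (p, p, q, q)`, and then `s` is restricted to the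
  four factors through `z` (the potential of the metric is continuous on `Y`). So `j` is the same
  for the four potentials. -/
structure PeakFacts (T : Peak D) (P : Pts D) : Prop where
  κ₁_pos : 0 < T.κ₁
  grad : ∀ j, 1 ≤ j → (Q.B j).GradP (Q.k j) Q.m
  pot : ∀ j φ φ' U, T.pot j φ φ' U → D.SmOn U φ ∧ D.SmOn U φ' ∧
    ∀ x, D.In U x → D.lap φ x = Q.m ∧ D.lap φ' x = Q.m
  tensor : ∀ j φ φ' U χ, 1 ≤ j → T.pot j φ φ' U → D.Supp χ U → ∃ v : Q.S j, ∀ x,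
    (D.In U x → Q.n j v x = χ x ^ 2 * Real.exp (-(Q.k j * φ x)) ∧
      Q.e j v x ≤ 2 * (D.gr χ χ x + (j * T.κ₁ / 2) ^ 2 * χ x ^ 2 *
        D.gr (fun y => φ' y - φ y) (fun y => φ' y - φ y) x) * Real.exp (-(Q.k j * φ x))) ∧
    (¬ D.In U x → Q.n j v x = 0 ∧ Q.e j v x = 0)
  rcd : D.EigenLipP → ∃ B, P.RcdP Q.m B
  peak : D.EigenLipP → ∀ p q, ∀ R ζ ρ : ℝ, 0 < R → 0 < ζ → 0 < ρ →
    ∃ j, 1 ≤ j ∧ 1 ≤ Q.k j * ρ ^ 2 ∧ ∀ z, z = p ∨ z = q → ∃ φ φ', T.pot j φ φ' (Q.ball P j z R) ∧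
      ∀ x, Q.r P j z x < R ^ 2 → |Q.k j * φ x - Q.r P j z x / 2| ≤ ζ ∧
        |Q.k j * φ' x - Q.r P j z x / 2| ≤ ζ

/-- bounded holomorphic sections of `L^j` with bounded gradient -/
def HolP (j : ℕ) (s : Q.S j) : Prop := (Q.B j).d0 s = (Q.B j).A1.o ∧ (Q.B j).Lip s

/-- The holomorphic sections of the powers of `L` have no common zeros on `X̂` (`p = q`), and separate
the points of `X̂`: for `p ≠ q` there are `s` and `t` with `|s(q)| |t(p)| < |s(p)| |t(q)|`. -/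
def SepP (P : Pts D) : Prop :=
  ∀ p q, ∃ (j : ℕ) (s t : Q.S j) (c ρ : ℝ), 1 ≤ j ∧ Q.HolP j s ∧ Q.HolP j t ∧ 0 < c ∧ 0 < ρ ∧
    ∀ x, (P.d p x < ρ → c ≤ Q.n j s x ∧ (p ≠ q → Q.n j t x ≤ c / 2)) ∧
      (P.d q x < ρ → c ≤ Q.n j t x ∧ (p ≠ q → Q.n j s x ≤ c / 2))

end Quant

end V3

end Pool.Agent.SYM
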