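import Pool.Agent.SYM.V3P.AdaptQ
import Pool.Agent.SYM.V3P.PeakP
import Pool.Agent.SYM.V3.Peak

/-!
# SYM/V3P/AdaptPk : from PeakP to Peak
-/

set_option autoImplicit false

open MeasureTheory Set Filter
open scoped Topology ComplexConjugate

namespace Pool.Agent.SYM.V3

variable {D : Reg}

theorem Pts.RcdP.to {P : Pts D} {m : ℕ} {B : ℝ} (h : P.RcdP m B) : P.Rcd m B where
  one_le := h.one_le
  nonneg := fun p x => (h.dist p).2 x
  cont := fun p => (h.dist p).1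
  sep := h.sep
  vol_le := fun p ρ hρ => (h.vol p ρ hρ).1
  le_vol := fun p ρ hρ h1 => (h.vol p ρ hρ).2 h1
  cut := fun p ρ hρ => by
    obtain ⟨χ, hs, hχ⟩ := h.cut p ρ hρ
    refine ⟨χ, hs, fun x => (hχ x).1, fun x => (hχ x).2.1, fun x => (hχ x).2.2.1, ?_,
      fun x => (hχ x).2.2.2.2⟩
    have hc : Continuous (P.d p) := (h.dist p).1
    have h1 : tsupport χ ⊆ {x | 2 * P.d p x ≤ 3 * ρ} := by
      refine closure_minimal ?_ (isClosed_le (continuous_const.mul hc) continuous_const)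
      intro x hx
      by_contra hcon
      rw [Set.mem_ofPred_eq, not_le] at hcon
      exact hx ((hχ x).2.2.2.1 hcon.le)
    intro x hx
    have h2 : 2 * P.d p x ≤ 3 * ρ := h1 hx
    show P.d p x < 2 * ρ
    linarith
  lip := fun w hw K hK hg => h.lip w K hw hK hg
  mean := fun w hw h0 ⟨M, hM⟩ lam hl h1 => h.mean w lam hw
    ⟨M, fun x => abs_le.2 ⟨by linarith [h0 x, hM x], hM x⟩⟩ hl (fun x => ⟨h0 x, h1 x⟩)

theorem Bun.GradP.to {B : Bun D} {k : ℝ} {m : ℕ} (h : B.GradP k m) : B.Grad k m where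
  nab_sm := fun s => (h s).1
  weitz1 := fun s => (h s).2

theorem Quant.PeakFacts.to {Q : Quant D} {T : Peak D} {P : Pts D} (h : Q.PeakFacts T P) :
    T.Facts Q P where
  κ₁_pos := h.κ₁_pos
  grad := fun j hj => (h.grad j hj).to
  smooth := fun j φ φ' U hp => ⟨(h.pot j φ φ' U hp).1, (h.pot j φ φ' U hp).2.1⟩
  lap := fun j φ φ' U hp x hx => (h.pot j φ φ' U hp).2.2 x hx
  tensor := fun j φ φ' U hj hU hp χ hχ ht => by
    obtain ⟨v, hv⟩ := h.tensor j φ φ' U χ hj hp ⟨hχ, hU, ht⟩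
    exact ⟨v, fun x hx => ((hv x).1 hx).1, fun x hx => (hv x).2 hx, fun x hx => ((hv x).1 hx).2⟩
  rcd := fun h1 => by
    obtain ⟨B, hB⟩ := h.rcd h1.toP
    exact ⟨B, hB.to⟩
  peak := fun h1 p q R ζ ρ hR hζ hρ => h.peak h1.toP p q R ζ ρ hR hζ hρ

theorem Quant.Hol.toP {Q : Quant D} {j : ℕ} {s : (Q.B j).A0.S} (h : Q.Hol j s) : Q.HolP j s := h

theorem Quant.Sep.toP {Q : Quant D} {P : Pts D} (h : Q.Sep P) : Q.SepP P := by
  intro p q
  by_cases hpq : p = q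
  · subst hpq
    obtain ⟨j, s, c, ρ, h1, h2, h3, h4, h5⟩ := h.bpf p
    exact ⟨j, s, s, c, ρ, h1, h2, h2, h3, h4, fun x => ⟨fun hx => ⟨h5 x hx, fun h => absurd rfl h⟩,
      fun hx => ⟨h5 x hx, fun h => absurd rfl h⟩⟩⟩
  · obtain ⟨j, s, t, c, ρ, h1, h2, h3, h4, h5, h6, h7⟩ := h.sep p q hpq
    exact ⟨j, s, t, c, ρ, h1, h2, h3, h4, h5, fun x => ⟨fun hx => ⟨(h6 x hx).1, fun _ => (h6 x hx).2⟩,
      fun hx => ⟨(h7 x hx).1, fun _ => (h7 x hx).2⟩⟩⟩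

end Pool.Agent.SYM.V3
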