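import Pool.Agent.SYM.V3P.FamPk
import Pool.Agent.SYM.V3P.AdaptPk
import Pool.Agent.SYM.V3P.AdaptD
import Pool.Agent.SYM.V3.PkTop

/-!
# SYM/V3P/AdaptFPk : from FamPk to V3/PkTop
-/

set_option autoImplicit false

open Set

namespace Pool.Agent.SYM.V3P.Fam

variable {C : Fam}

theorem PeakP.to (hP : C.PeakP) : C.old.PeakAxiom C.old.Ang C.old.pts C.old.pk := by
  intro h i A t κ₂ u hi hmem hrat hA ht h1 hκ₂ hint hu htan hang
  have hu' : u = Real.arctan ((C.quant h).κ / κ₂) := by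
    have e : Real.tan u = (C.quant h).κ / κ₂ := htan
    rw [← e, Real.arctan_tan (by linarith [hu.1, Real.pi_pos]) hu.2]
  exact (hP h i A κ₂ u ⟨hi, hmem, hrat, hA, t, ht, h1⟩ hκ₂ hint hu' hang).to

theorem CloseP.to (hP : C.CloseP) : C.old.CloseAxiom C.old.pts := by
  intro h i A t hi hmem hrat hA ht h1 hlip hsep
  exact hP h i A ⟨hi, hmem, hrat, hA, t, ht, h1⟩ hlip.toP hsep.toP

end Pool.Agent.SYM.V3P.Fam
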