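import Pool.Agent.SYM.V3P.FamD
import Pool.Agent.SYM.V3P.PeakP

/-!
# SYM/V3P/FamPk : sections for the rotated complex structure, published facts
-/

set_option autoImplicit false

namespace Pool.Agent.SYM.V3P.Fam

variable (C : Fam)

/-- `h = (g, I, J, K)`, the class of `ω_J` is a multiple of the integral class `A`, `κ` is the constant
of `Quant`, so the class of `κ ω_J / 2π` is integral and sufficiently divisible. Let also the class of
`κ₂ ω_I / 2π` be integral, and `tan u = κ / κ₂`. If with `cos u I + sin u J` the manifold `X` is the
regular part of the deformation `X_u` of `X_0 = X_i` and `g` is its singular Ricci-flat metric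
(`Ang h u`, see `RotArcP`), then `κ₂ ω_I + κ ω_J = κ₁ ω_u`, `κ₁² = κ₂² + κ²`, and the class of
`κ₁ ω_u / 2π` is integral, so `X_u` is projective. -/
def PeakP : Prop :=
  ∀ h i A κ₂ u, C.QS h i A → 0 < κ₂ → C.Int (C.sc (κ₂ / (2 * Real.pi)) (C.cls h 0)) →
    u = Real.arctan ((C.quant h).κ / κ₂) → C.Ang h u →
    (C.quant h).PeakFacts (C.pk h u) (C.pts (C.met h))

/-- Let `X̂` be the completion of `(X, g)`, an `RCD` space (`EigenLipP`, Honda), homeomorphic to `X_i`
(Székelyhidi). If the bounded Lipschitz `J`-holomorphic sections of the powers of `L` have no common
zeros on `X̂` and separate its points, then `X̂` with `J` is a normal projective variety `Y` with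
regular part `X`, so it is homeomorphic to `X_i` by an extension of the identity of `X`, and `L`
extends to an ample `ℚ`-line bundle. This is the last step of the proof of Donaldson and Sun
(Gromov-Hausdorff limits of Kähler manifolds and algebraic geometry, Section 4):
For divisible `k` the sections of `L^k` give a Lipschitz map `Φ_k` from `X̂` to a projective space
(compactness), holomorphic on `X`. It has rank `m` at some point of `X` (otherwise the germs of the
fibres through a point of maximal rank would be the same for all divisible `k`). `X̂ \ X` has
Hausdorff dimension at most `2m - 4` (De Philippis-Gigli; the parallel `I`, `J`, `K` pass to the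
tangent cones), so the image of `Φ_k` is analytic outside the image `E` of `X̂ \ X` (Remmert),
everywhere (Shiffman), and algebraic (Chow). For divisible `k` these images are birational to each
other and have the same normalisation `Y`, so they are independent of `k` (noetherian modules), and
`Φ_k` is injective. The sections of the powers of the ample line bundle on `Y` are bounded on `X`,
hence Lipschitz (`Quant`), so the image of `Φ_k` is `Y`. `Ω` extends to `Y_reg` without zeros and has
finite norm: `Y` has trivial canonical class and canonical singularities. The potential
`log ∑ |s_l|²` of `ω_J` is bounded with bounded gradient, so its Monge-Ampère measure has no mass on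
`E` (Stokes), and `g` is the singular Ricci-flat metric of `Y`, by uniqueness. So it is smooth on
`Y_reg`, and `Y_reg = X`, because the points of `X_i` near which the metric is smooth (volume density
`1`) are the smooth points of `X_i`. As `Y` is homeomorphic to `X_i`, one has `H¹(Y, O) = 0`, the
singular set has codimension at least `4`, so `Y` is terminal (Namikawa), and `Y` is `ℚ`-factorial (for
rational singularities this is a condition on Betti numbers). Its reflexive 2-forms are parallel, so
they are the multiples of `ω_K + i ω_I`, as for `X_i`. Finally `A` is of type `(1,1)`, so it is the class
of a line bundle on `Y`, modulo torsion. -/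
def CloseP : Prop :=
  ∀ h i A, C.QS h i A → (C.reg (C.met h)).EigenLipP → (C.quant h).SepP (C.pts (C.met h)) →
    C.Pol h A

end Pool.Agent.SYM.V3P.Fam
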