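import Mathlib

/-!
# SYM/V3P/CechP : the gauge in which `Re σ` is constant

Let `𝒳 → [0, U]` be a locally trivial family of primitive symplectic varieties `X_u`, `V_0` an
ambient smooth vector field on `𝒳` which lifts `d/du` and is tangent to the strata, `σ_u` the
symplectic forms and `θ_u` ambient smooth Kähler forms with `[σ_u]' = i [θ_u]`. The closed 2-form
`β = L_{V_0} σ_u - i θ_u` on the regular parts of the fibres has the class `0` in `H²(X_u, ℂ)`. We
show (see AdaptCech) that `β = dγ` for a global ambient smooth form `γ` of type `(1,0)`. Then the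
real vector field `V = V_0 - 2 Re σ_u⁻¹ γ` is ambient smooth, tangent to the strata, and
`L_V σ_u = i θ_u`.

All forms are relative forms, that is, forms on the fibres. An ambient smooth form of type `(1,0)` is
locally a sum of products of ambient smooth functions and reflexive holomorphic relative 1-forms;
`σ_u` identifies these with the ambient smooth vertical vector fields of type `(1,0)`, since
holomorphic symplectic forms identify derivations and reflexive 1-forms (and ambient smooth functions
are flat over holomorphic functions, by Malgrange).
-/

set_option autoImplicit false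

namespace Pool.Agent.SYM

/-- The data: the union `M` of the regular parts of the `X_u`; a finite set `I` and the traces `U i`,
`i ∈ I`, on `M` of a cover of `𝒳` by products of the open stars of a fine triangulation of the fibre
and of small intervals, each in a small Stein open set of the family. A relative 1-form is a function
of a point of `M` and of a vertical tangent vector, `T` is the fibre of the bundle of these vectors
(in measurable frames). `d k` is the relative differential of `k`, zero where `k` is not
differentiable. Two predicates: `hol i j k`, the function `k` is smooth and holomorphic on the fibres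
on `U i ∩ U j`; `prim i γ`, the form `γ` is ambient smooth of type `(1,0)` on `U i` and `dγ = β` there
(the values outside `U i ∩ U j`, `U i` do not matter). -/
structure CechP where
  M : Type
  T : Type
  I : Type
  U : I → M → Prop
  d : (M → ℂ) → M → T → ℂ
  hol : I → I → (M → ℂ) → Prop
  prim : I → (M → T → ℂ) → Prop

namespace CechP

variable (G : CechP)

/-- functions -/
abbrev Fn : Type := G.M → ℂ

/-- 1-forms -/
abbrev Fm : Type := G.M → G.T → ℂ

/-- `x ∈ U i ∩ U j` -/
abbrev On (i j : G.I) (x : G.M) : Prop := G.U i x ∧ G.U j x

/-- `γ - γ' = dk` on `U i ∩ U j` -/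
abbrev Pot (i j : G.I) (γ γ' : G.Fm) (k : G.Fn) : Prop :=
  G.hol i j k ∧ ∀ x v, G.On i j x → γ x v - γ' x v = G.d k x v

/-- `k` is a smooth function of `u` on `U i ∩ U j` -/
abbrev Con (i j : G.I) (k : G.Fn) : Prop := G.hol i j k ∧ ∀ x v, G.On i j x → G.d k x v = 0

/-- `k_ij + k_jl + k_li = 0` -/
abbrev Coc (k : G.I → G.I → G.Fn) : Prop :=
  ∀ i j l x, G.On i j x → G.U l x → k i j x + k j l x + k l i x = 0

/-- The facts.
* `loc`: `θ_u = dd^c ρ_i` with a smooth function `ρ_i`, and `L_{V_0} σ_u = d γ` because near every
  point there is a lift `V_i` of `d/du`, holomorphic along the fibres, with `L_{V_i} σ_u = 0` (the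
  symplectic form is locally trivial in the family: `[σ_u] = 0` on the regular part of a small Stein
  open set `S`, and `H¹(S_reg, O) = H²(S_reg, O) = 0`, since `X_u` is Cohen-Macaulay and its singular
  set has codimension at least four).
* `exact`: a closed ambient smooth `(1,0)`-form is a reflexive holomorphic form on the fibres, so it
  is locally the differential of a holomorphic function (rational singularities); on the contractible
  intersections also globally.
* `class_zero`: the functions `k_ij + k_jl + k_li` of `u` are a Čech cocycle of the class of `β` in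
  `H²(X_u, ℂ)`, which is zero.
* `h1`: `H¹(X_u, O) = 0`.
* `sub`, `add`: rules for differentials. -/
structure FactsP : Prop where
  cover : ∀ x, ∃ i, G.U i x
  loc : ∀ i, ∃ γ, G.prim i γ
  exact : ∀ i j γ γ', G.prim i γ → G.prim j γ' → ∃ k, G.Pot i j γ γ' k
  class_zero : ∀ (γ : G.I → G.Fm) (k : G.I → G.I → G.Fn), (∀ i, G.prim i (γ i)) →
    (∀ i j, G.Pot i j (γ i) (γ j) (k i j)) →
    ∃ c : G.I → G.I → G.Fn, (∀ i j, G.Con i j (c i j)) ∧ G.Coc fun i j x => k i j x - c i j x
  h1 : ∀ k, (∀ i j, G.hol i j (k i j)) → G.Coc k → ∃ m : G.I → G.Fn,
    (∀ i j, G.hol i j (m i) ∧ G.hol j i (m i)) ∧ ∀ i j x, G.On i j x → k i j x = m i x - m j x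
  sub : ∀ i j k c e, G.hol i j k → G.hol i j c → (∀ x, G.On i j x → e x = k x - c x) →
    G.hol i j e ∧ ∀ x v, G.On i j x → G.d e x v = G.d k x v - G.d c x v
  add : ∀ i m γ γ', G.prim i γ → G.hol i i m → (∀ x v, G.U i x → γ' x v = γ x v - G.d m x v) →
    G.prim i γ'

/-- `β = dγ` with a global ambient smooth `(1,0)`-form `γ` -/
def Global : Prop := ∃ γ, ∀ i, G.prim i γ

end CechP

end Pool.Agent.SYM
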