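import Pool.Agent.SYM.V3P.Short

/-!
# SYM/V3P/RegP : published facts about one singular Ricci-flat Kahler metric
-/

set_option autoImplicit false

open MeasureTheory Set Filter
open scoped Topology

namespace Pool.Agent.SYM.Reg

variable (D : Reg)

/-- The singular set. `φ = log ∑ |F_j|^2 - C`, where the `F_j` generate the ideal of the singular
set; it is exhausting on `X` (functions of `φ` vanishing near `-∞` have compact support), `Δ φ` is
integrable with integral zero (the mass of `C θ + dd^c φ` is cohomological, no mass sits on a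
singular set of codimension at least two), the gradient of a bounded eigenfunction grows at most
like a power of `exp (-φ)` (Cheng-Yau, with `ω ≥ c |F|^C θ`). If `X` is compact, `φ = -3`. -/
structure PoleP (φ : D.F) : Prop where
  sm : D.Sm φ
  le : ∀ x, φ x ≤ -3
  cpt : ∀ s F, D.On s F φ → (∃ k : ℝ, ∀ t ∈ s, t ≤ -k → F t = 0) → D.Cs fun x => F (φ x)
  lap_int : D.Int (D.lap φ)
  lap_zero : D.int (D.lap φ) = 0
  growth : ∀ f l, D.Sm f → D.Bdd f → D.Eig f l → ∃ C, ∀ x, D.gr f f x ≤ Real.exp (-(C * φ x))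

/-- Elementary calculus on the (connected, incomplete) manifold `X` with a Ricci-flat Kahler metric
of finite volume. By definition `lap f x = 0` and `gr f k x = 0` if `f` (or `k`) is not smooth
near `x`. Also the singular set, see `PoleP`, and:
* `approx`: approximation by Kahler metrics `ω_j` on a resolution `Y` (Eyssidieux-Guedj-Zeriahi,
  Boucksom-Eyssidieux-Guedj-Zeriahi) with the uniform estimates of Guo-Phong-Song-Sturm: a bounded
  smooth `h` with integral zero is the Laplacian of a bounded smooth `f`, the limit of the solutions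
  `f_j` on `Y` of `Δ_j f_j = l_j`, `l_j = h - c_j`. Here `b_j = |∂ ∂bar f_j|^2` and `ρ_j` is the
  density of the volume form of `ω_j`; on the compact Kahler manifold `(Y, ω_j)` the integrals of
  `b_j` and `l_j^2` agree by Stokes.
* `sobolev`: the Sobolev inequality of Guo, Phong, Song and Sturm, for smooth functions with compact
  support in the regular part. -/
structure Basic : Prop where
  fin : IsFiniteMeasure D.vol
  pos : D.vol.IsOpenPosMeasure
  cont : ∀ f, D.Sm f → D.Cont f ∧ D.Cont (D.h20 f) ∧ D.Cont (D.h11 f)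
  sm : ∀ f h, D.Sm f → D.Sm h → D.Sm (D.lap f) ∧ D.Sm (D.gr f h) ∧ D.Sm (fun x => f x - h x) ∧
    D.Sm fun x => f x * h x
  nonneg : ∀ f, D.Sm f → ∀ x, 0 ≤ D.gr f f x ∧ 0 ≤ D.h20 f x ∧ 0 ≤ D.h11 f x
  gr_const : ∀ f, D.Sm f → (∀ x, D.gr f f x = 0) → ∃ c, ∀ x, f x = c
  h11_add : ∀ f, D.Sm f → ∀ (c : ℝ) x, D.h11 (fun z => f z + c) x = D.h11 f x
  lap_sub : ∀ f h, D.Sm f → D.Sm h → ∀ x, D.lap (fun z => f z - h z) x = D.lap f x - D.lap h x
  /-- symmetry, bilinearity and Leibniz rule for `gr` -/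
  gr : ∀ f h k, D.Sm f → D.Sm h → D.Sm k → ∀ x, D.gr f h x = D.gr h f x ∧
    D.gr (fun z => f z - h z) k x = D.gr f k x - D.gr h k x ∧
    D.gr (fun z => f z * h z) k x = f x * D.gr h k x + h x * D.gr f k x
  /-- chain rule -/
  comp : ∀ s F f h, D.Sm f → D.On s F f → D.Sm h → D.Sm (fun x => F (f x)) ∧ ∀ x,
    D.gr (fun z => F (f z)) h x = deriv F (f x) * D.gr f h x ∧
    D.lap (fun z => F (f z)) x =
      deriv F (f x) * D.lap f x + deriv (deriv F) (f x) * D.gr f f x
  /-- smoothness is local, `gr` and `lap` are differential operators -/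
  glue : ∀ f, D.SmOn univ f → D.Sm f
  loc : ∀ (f h k : D.F) x, f =ᶠ[𝓝 x] h → D.lap f x = D.lap h x ∧ D.gr f k x = D.gr h k x ∧
    D.gr k f x = D.gr k h x
  cs : ∀ χ, D.Cs χ → D.Sm χ ∧ D.Cs (D.lap χ) ∧ ∀ f, D.Cont f → D.Int fun x => χ x * f x
  cs_mul : ∀ χ f, D.Cs χ → D.Sm f → D.Cs (D.gr χ f) ∧ D.Cs fun x => χ x * f x
  /-- Stokes -/
  stokes : ∀ χ f, D.Cs χ → D.Sm f → D.int (fun x => χ x * D.lap f x) = - D.int (D.gr χ f) ∧
    D.int (fun x => χ x * D.lap f x) = D.int fun x => D.lap χ x * f x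
  /-- Bochner's formula with `Ric = 0`, and Kato's inequality -/
  bochner : ∀ f, D.Sm f → ∀ x,
    D.lap (D.gr f f) x = D.h20 f x + D.h11 f x + 2 * D.gr f (D.lap f) x ∧
    D.gr (D.gr f f) (D.gr f f) x ≤ (√(D.h20 f x) + √(D.h11 f x)) ^ 2 * D.gr f f x
  pole : ∃ φ, D.PoleP φ
  approx :
    ∀ h, D.Sm h → D.Bdd h → D.int h = 0 → ∃ f, D.Sm f ∧ D.Bdd f ∧ (∀ x, D.lap f x = h x) ∧
      ∃ b l ρ : ℕ → D.F,
        (∀ j, D.Cont (b j) ∧ D.Cont (ρ j) ∧ (∀ x, 0 ≤ b j x ∧ 0 ≤ ρ j x) ∧
          D.Int (fun x => b j x * ρ j x) ∧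
          D.int (fun x => b j x * ρ j x) = D.int fun x => l j x ^ 2 * ρ j x) ∧
        Lim (fun j => D.int fun x => l j x ^ 2 * ρ j x) (D.int fun x => h x ^ 2) ∧
        ∀ x, Lim (fun j => b j x * ρ j x) (D.h11 f x)
  sobolev :
    ∃ q K : ℝ, 1 < q ∧ ∀ χ, D.Cs χ →
      (D.int fun x => |χ x| ^ (2 * q)) ^ (1 / q) ≤ K * (D.int (D.gr χ χ) + D.int fun x => χ x ^ 2)

/-- Bounded eigenfunctions have bounded gradient: Honda's criterion for the `RCD` property of the
completion of `X`. -/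
def EigenLipP : Prop :=
  ∀ f l, D.Sm f → D.Bdd f → D.Eig f l → D.Lip f

end Pool.Agent.SYM.Reg
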