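import Pool.Agent.SYM.V3P.CalcD
import Pool.Agent.SYM.V3P.RegP

/-!
# SYM/V3P/RotD : an arc of the twistor circle of a primitive symplectic variety

`X_u`, `u ∈ [0, U]`, are the members of a locally trivial family of compact `ℚ`-factorial terminal
primitive symplectic varieties with Kähler classes `κ_u` and `[σ_u]' = i κ_u`, `κ_u' = -[Im σ_u]`.
`M` is the regular part of `X_0`; all `X_u^reg` are identified with `M` by the flow of an ambient
smooth vector field `V` for which `L_V σ_u = i θ_u`, `θ_u` an ambient smooth Kähler form in `κ_u`.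
So `Re σ_u` and the volume `μ` do not depend on `u`; the flow preserves ambient smooth forms. `g_u` is
the singular Ricci-flat metric in `κ_u` (Eyssidieux, Guedj, Zeriahi), with Kähler form
`ω_u = θ_u + dd^c ψ_u`; `ψ_u` depends continuously on `u`, with all derivatives on compact subsets of
`M`. The metric is normalised so that `(ω_u, Re σ_u, Im σ_u)` is a hyperkähler triple.

Forms are matrices in a fixed measurable frame `(e_i)` of the tangent bundle of `M` which is
orthonormal and adapted to the triple of `g_0`: the matrix of a bilinear form `α` is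
`(α(e_j, e_i))_ij`, so `i_W α` is `α *ᵥ W` and the pull-back of `α` by `P` is `Pᵀ α P`. `Re σ` is the
constant matrix `J`. `P u x` is the matrix (fixed frame to adapted orthonormal frame of `g_u`) for
which `ω_u = Pᵀ I P`, `Re σ_u = Pᵀ J P`, `Im σ_u = Pᵀ K P`, `g_u = Pᵀ P`.
-/

set_option autoImplicit false

open Matrix MeasureTheory Set Filter
open scoped Topology

namespace Pool.Agent.SYM

/-- real `N × N`-matrices -/
abbrev Mx (N : ℕ) : Type := Matrix (Fin N) (Fin N) ℝ

namespace Mx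

variable {N : ℕ}

/-- the pull-back of the form `A` by `P` -/
def pull (P A : Mx N) : Mx N := Pᵀ * A * P

/-- the form `A` in the frame `P` -/
noncomputable def hat (P A : Mx N) : Mx N := pull P⁻¹ A

/-- the covector `v` in the frame `P`; the product of covectors for the metric `Pᵀ P` -/
noncomputable def co (P : Mx N) (v : Fin N → ℝ) : Fin N → ℝ := (P⁻¹)ᵀ *ᵥ v
noncomputable def pr (P : Mx N) (v w : Fin N → ℝ) : ℝ := co P v ⬝ᵥ co P w

/-- `I, J, K` are the three complex structures of a hyperkähler vector space, in an orthonormal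
basis. -/
def Quat (I J K : Mx N) : Prop :=
  Iᵀ = -I ∧ Jᵀ = -J ∧ I * I = -1 ∧ J * J = -1 ∧ I * J = K ∧ J * I = -K

/-- Frobenius product and norm -/
def ip (A B : Mx N) : ℝ := ∑ i, ∑ j, A i j * B i j
noncomputable def nrm (A : Mx N) : ℝ := √(ip A A)

abbrev sub (A B : Mx N) : Mx N := A - B
abbrev lin (a b : ℝ) (A B : Mx N) : Mx N := a • A + b • B

/-- the hermitian form of the `(1,1)`-part of the `2`-form `A` -/
noncomputable def her (I A : Mx N) : Mx N := (-(1 / 2) : ℝ) • (A * I + I * A)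

/-- the `(2,0) + (0,2)`-part of the `2`-form `A` -/
noncomputable def two (I A : Mx N) : Mx N := (1 / 2 : ℝ) • (A + I * A * I)

/-- `A ∧ B ∧ ω^(n-2) / (n-2)!` divided by the volume form `ω^n / n!` (`2n` the real dimension) -/
noncomputable def Q (I A B : Mx N) : ℝ :=
  1 / 4 * (ip I A * ip I B) - 1 / 2 * ip (her I A) (her I B) + 1 / 2 * ip (two I A) (two I B)

/-- `A, 0, I - B` are the derivatives of the forms `I, J, K` along a vector field with covariant
derivative `p` -/
def Lie (I J K A B : Mx N) : Prop :=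
  ∃ p : Mx N, A = pᵀ * I + I * p ∧ pᵀ * J + J * p = 0 ∧ pᵀ * K + K * p = I - B

/-- then the derivative of the metric is -/
def sym (I J K A B : Mx N) : Mx N := -(A * I + J - K * B)

end Mx

/-- The data. -/
structure Rot where
  /-- the real dimension -/
  N : ℕ
  M : Type
  [top : TopologicalSpace M]
  [mea : MeasurableSpace M]
  [bor : BorelSpace M]
  /-- the volume of all the metrics -/
  μ : Measure M
  /-- length of the arc -/
  U : ℝ
  I : Mx N
  J : Mx N
  K : Mx N
  P : ℝ → M → Mx N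
  /-- the ambient smooth form `θ_u` -/
  Θ : ℝ → M → Mx N
  /-- `d^c ψ_u` -/
  η : ℝ → M → Fin N → ℝ
  /-- the form `L_W ω_u = d(i_W ω_u)` -/
  A : ℝ → M → Mx N
  /-- functions of class `C¹` on `M` -/
  C1 : (M → ℝ) → Prop
  /-- differential of a function of class `C¹` -/
  dl : (M → ℝ) → M → Fin N → ℝ
  /-- closed smooth real 2-forms -/
  Cl : (M → Mx N) → Prop
  /-- `Ex β β'`: the smooth 1-form `β` has exterior derivative `β'` -/
  Ex : (M → Fin N → ℝ) → (M → Mx N) → Prop
  /-- cut-off functions -/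
  χ : ℕ → M → ℝ
  /-- the flow of `W` from time `s` to time `t` and its domain -/
  Fl : ℝ → ℝ → M → M
  Dom : ℝ → ℝ → M → Prop
  /-- differential of `Fl 0 u` -/
  DF : ℝ → M → Mx N
  /-- the length distance of `(M, g_u)` -/
  dist : ℝ → M → M → ℝ
  /-- the resolvent `(l - Δ_u)⁻¹` on bounded functions -/
  Res : ℝ → ℝ → (M → ℝ) → M → ℝ
  /-- the calculus of `g_u` -/
  cal : ℝ → V3.Calc M
  /-- the points of the compact space `X_t`, the inclusion of the regular part -/
  Xc : ℝ → Type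
  inc : (t : ℝ) → M → Xc t
  /-- holomorphic maps to `X_t` from `X_s^reg` with the complex structure rotated by `t - s` -/
  Hol : ℝ → (t : ℝ) → (M → Xc t) → Prop

attribute [instance] Rot.top Rot.mea Rot.bor

namespace Rot

variable (T : Rot)

/-- functions, covectors -/
abbrev F : Type := T.M → ℝ
abbrev Vec : Type := Fin T.N → ℝ

/-- `u ∈ [0, U]` -/
abbrev In (u : ℝ) : Prop := 0 ≤ u ∧ u ≤ T.U

/-- `r` is between `s` and `t`, and in `[0, U]` -/
abbrev Btw (s t r : ℝ) : Prop := T.In s ∧ T.In t ∧ r ∈ uIcc s t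

abbrev Meas (f : T.F) : Prop := Measurable f
abbrev Meas2 (f : ℝ → T.F) : Prop := Measurable fun z : ℝ × T.M => f z.1 z.2
abbrev Cont (f : T.F) : Prop := Continuous f

/-- `p` holds almost everywhere -/
abbrev Ae (p : T.M → Prop) : Prop := ∀ᵐ x ∂T.μ, p x

/-- the integral over `M` -/
noncomputable abbrev int (f : T.F) : ℝ := ∫ x, f x ∂T.μ

/-- `f` is of class `C¹` with compact support -/
def Cs (f : T.F) : Prop := T.C1 f ∧ HasCompactSupport f

/-- the metric `g_u` with its calculus -/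
def reg (u : ℝ) : Reg := (T.cal u).reg T.μ

/-- the Kähler form `ω_u` and the form `Im σ_u` -/
def ω (u : ℝ) (x : T.M) : Mx T.N := Mx.pull (T.P u x) T.I
def B (u : ℝ) (x : T.M) : Mx T.N := Mx.pull (T.P u x) T.K

/-- the forms `θ_s` and `A_u` in the adapted frame of `g_u` -/
noncomputable def θ (u s : ℝ) (x : T.M) : Mx T.N := Mx.hat (T.P u x) (T.Θ s x)
noncomputable def a (u : ℝ) (x : T.M) : Mx T.N := Mx.hat (T.P u x) (T.A u x)

/-- the vector field `W_u` with `L_W σ_u = i (ω_u - θ_u)`, that is, `i_W Im σ_u = d^c ψ_u` -/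
noncomputable def W (u : ℝ) (x : T.M) : T.Vec := (T.B u x)⁻¹ *ᵥ T.η u x

/-- the norm of the covector `v` for `g_u` -/
noncomputable def len (u : ℝ) (x : T.M) (v : T.Vec) : ℝ := √(Mx.pr (T.P u x) v v)

/-- `⟨df, dh⟩` and `|df|` for `g_u`, the derivative of `f` along `W_u` -/
noncomputable def pr (u : ℝ) (f h : T.F) (x : T.M) : ℝ := Mx.pr (T.P u x) (T.dl f x) (T.dl h x)
noncomputable def gd (u : ℝ) (f : T.F) (x : T.M) : ℝ := T.len u x (T.dl f x)
noncomputable def dW (u : ℝ) (f : T.F) (x : T.M) : ℝ := T.dl f x ⬝ᵥ T.W u x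

/-- Geometric facts, without those which depend on the `RCD` property. The constant `C` does not
depend on `u ∈ [0, U]` (estimates for families; simultaneous resolution of the `X_u`).
* `deriv`: `d/du Im σ_u = θ_u`.
* `bdd`: `θ_s ≤ C g_u`, the Ricci-flat metrics are Kähler currents (Guedj-Guenancia-Zeriahi,
  Chen-Chiu-Hallgren-Székelyhidi-Tô-Tong).
* `lie`: `L_W` of the triple, `W = ∓ J grad ψ`.
* `cs`: uniform bounds on compact sets.
* `cut`: the complement of `M` has capacity zero: `χ_j` is a function of `log (-log |F|²)`, where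
  `F` generates the ideal of the singular set of `X_0`; the flow of `V` preserves the ideals, so the
  same functions serve for all `u`.
* `stokes`: Stokes' theorem for `φ α ∧ dβ ∧ ω_u^(n-2)`, `2n` the real dimension; `C` is also larger
  than a universal constant.
* `coh`: the intersection number of `κ_s` and `κ_u^(n-1)` (`θ_s` is an ambient smooth form on `X_u`
  in the class `κ_s`; bounded potentials).
* `cont`: the metrics depend continuously on `u`.
* `div`: the divergence of `W_u` is zero. -/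
structure Geom (C : ℝ) : Prop where
  fin : IsFiniteMeasure T.μ
  pos : T.μ.IsOpenPosMeasure
  bds : 0 < T.U ∧ 0 ≤ C ∧ 4 ≤ T.N
  quat : Mx.Quat T.I T.J T.K
  meas : ∀ i j, T.Meas2 (fun u x => T.P u x i j) ∧ T.Meas2 (fun u x => T.Θ u x i j) ∧
    T.Meas2 (fun u x => T.A u x i j) ∧ T.Meas2 (fun u x => T.η u x i)
  symp : ∀ u x, T.In u → Mx.pull (T.P u x) T.J = T.J
  deriv : ∀ u x i j, T.In u →
    HasDerivWithinAt (fun s => T.B s x i j) (T.Θ u x i j) (Icc 0 T.U) u
  bdd : ∀ u s x, T.In u → T.In s →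
    Mx.nrm (T.θ u s x) ≤ C ∧ Mx.nrm (Mx.sub (T.θ u s x) (T.θ u u x)) ≤ C * |s - u|
  lie : ∀ u x, T.In u → Mx.Lie T.I T.J T.K (T.a u x) (T.θ u u x)
  c1 : ∀ f, T.C1 f → T.Cont f ∧ (∀ i, T.Meas fun x => T.dl f x i) ∧
    ∀ u, T.In u → T.Cont (T.gd u f)
  c1_alg : ∀ f h, T.C1 f → T.C1 h → T.C1 (fun x => f x - h x) ∧ T.C1 (fun x => f x * h x) ∧
    ∀ x i, T.dl (fun x => f x - h x) x i = T.dl f x i - T.dl h x i ∧
      T.dl (fun x => f x * h x) x i = f x * T.dl h x i + h x * T.dl f x i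
  cs : ∀ f, T.Cs f → ∃ L, ∀ u x, T.In u → T.gd u f x ≤ L ∧
    (f x ≠ 0 → Mx.nrm (T.P u x) ≤ L ∧ Mx.nrm (T.P u x)⁻¹ ≤ L ∧ Mx.nrm (T.A u x) ≤ L)
  cut : ∀ j, T.Cs (T.χ j) ∧ (∀ x, 0 ≤ T.χ j x ∧ T.χ j x ≤ 1) ∧
    ∀ u, T.In u → (j + 1) * T.int (fun x => T.gd u (T.χ j) x ^ 2) ≤ 1
  lim : ∀ x, Lim (fun j => T.χ j x) 1
  sub : ∀ α β, T.Cl α → T.Cl β → T.Cl fun x => Mx.sub (α x) (β x)
  forms : ∀ u, T.In u → T.Cl (T.ω u) ∧ T.Cl (T.A u) ∧
    T.Ex (T.η u) (fun x => Mx.sub (T.ω u x) (T.Θ u x)) ∧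
    T.Ex (fun x => T.ω u x *ᵥ T.W u x) (T.A u)
  stokes : ∀ u f α β β', T.In u → T.Cs f → T.Cl α → T.Ex β β' →
    |T.int fun x => f x * Mx.Q T.I (Mx.hat (T.P u x) (α x)) (Mx.hat (T.P u x) (β' x))| ≤
      C * T.int fun x => T.gd u f x * T.len u x (β x) * Mx.nrm (Mx.hat (T.P u x) (α x))
  coh : ∀ u s, T.In u → T.In s →
    T.int (fun x => Mx.ip T.I (T.θ u s x)) = T.N * Real.cos (s - u) * T.int fun _ => 1
  cont : ∀ x i j, ContinuousOn (fun u => Mx.pull (T.P u x) 1 i j) (Icc 0 T.U)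
  div : ∀ u f, T.In u → T.Cs f → T.int (T.dW u f) = 0

/-- the flow from time `0` to time `u` rotates the triple of forms -/
def Turn (u : ℝ) (y : T.M) : Prop :=
  Mx.pull (T.DF u y) (T.ω u (T.Fl 0 u y)) =
    Mx.lin (Real.cos u) (-Real.sin u) (T.ω 0 y) (T.B 0 y) ∧
  Mx.pull (T.DF u y) T.J = T.J ∧
  Mx.pull (T.DF u y) (T.B u (T.Fl 0 u y)) = Mx.lin (Real.cos u) (Real.sin u) (T.B 0 y) (T.ω 0 y)

/-- the domain of `Fl s t`, and the restriction of the volume -/
abbrev Ds (s t : ℝ) : Set T.M := {x | T.Dom s t x}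
noncomputable abbrev vol (s t : ℝ) : Measure T.M := T.μ.restrict (T.Ds s t)

/-- Facts on the flow of the time dependent vector field `W_u` on the manifold `M`
(Cauchy-Lipschitz).
* `blow`: a trajectory which does not exist up to time `t` leaves every compact set.
* `pres`: the flow preserves the volume.
* `rot`: Cartan's formula, the hypothesis says `d/du ω_u = - L_W ω_u - Im σ_u`. -/
structure Flow : Prop where
  self : ∀ s x, T.In s → T.Dom s s x ∧ T.Fl s s x = x
  cont : ∀ s t, T.In s → T.In t → IsOpen (T.Ds s t) ∧ ContinuousOn (T.Fl s t) (T.Ds s t) ∧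
    MeasurePreserving (T.Fl s t) (T.vol s t) (T.vol t s)
  comp : ∀ s t r x, T.Btw s t r → T.Dom s t x →
    T.Dom s r x ∧ T.Dom r t (T.Fl s r x) ∧ T.Fl r t (T.Fl s r x) = T.Fl s t x
  inv : ∀ s t x, T.In s → T.In t → T.Dom s t x →
    T.Dom t s (T.Fl s t x) ∧ T.Fl t s (T.Fl s t x) = x
  blow : ∀ s t x f, T.In s → T.In t → ¬T.Dom s t x → T.Cs f →
    ∃ r, T.Btw s t r ∧ T.Dom s r x ∧ f (T.Fl s r x) = 0
  deriv : ∀ s t r x f, T.Btw s t r → T.Dom s t x → T.C1 f →
    ContinuousOn (fun r => T.dW r f (T.Fl s r x)) (uIcc s t) ∧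
      HasDerivWithinAt (fun r => f (T.Fl s r x)) (T.dW r f (T.Fl s r x)) (uIcc s t) r
  meas : ∀ s, T.In s → Measurable (fun z : ℝ × T.M => T.Fl s z.1 z.2) ∧
    MeasurableSet {z : ℝ × T.M | T.In z.1 ∧ T.Dom s z.1 z.2}
  chain : ∀ u f h, T.In u → T.C1 f → T.C1 h → (∀ y, T.Dom 0 u y → h y = f (T.Fl 0 u y)) →
    ∀ y, T.Dom 0 u y → T.dl h y = (T.DF u y)ᵀ *ᵥ T.dl f (T.Fl 0 u y)
  rot : (∀ u, T.In u → T.Ae fun x => ∀ i j,
      T.ω u x i j = T.ω 0 x i j - ∫ s in (0 : ℝ)..u, (T.A s x i j + T.B s x i j)) →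
    ∀ u y, T.In u → T.Dom 0 u y → T.Turn u y

/-- `f` is measurable and bounded by `L` -/
abbrev Bm (f : T.F) (L : ℝ) : Prop := T.Meas f ∧ ∀ x, |f x| ≤ L

/-- `f` is `L`-Lipschitz for `g_u` -/
abbrev Lip (u : ℝ) (f : T.F) (L : ℝ) : Prop := ∀ x y, |f x - f y| ≤ L * T.dist u x y

/-- the integrand `f ⟨S dG, dH⟩`, `S` the Lie derivative `L_W g_u` -/
noncomputable def str (u : ℝ) (G H f : T.F) (x : T.M) : ℝ :=
  f x * (Mx.co (T.P u x) (T.dl G x) ⬝ᵥ
    (Mx.sym T.I T.J T.K (T.a u x) (T.θ u u x) *ᵥ Mx.co (T.P u x) (T.dl H x)))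

/-- Facts on the metric measure spaces `(M, g_u, μ)`, whose completions are `RCD(0, N)` spaces:
resolvents of bounded functions are Lipschitz, the gradient contraction of Bakry and Emery;
functions with bounded Laplacian are Lipschitz and their Hessian is in `L²` (diameter and volume are
bounded above and below on `[0, U]`).
* `lip`: `g_u` is the length distance.
* `res_eq`: `(l - Δ_u) R f = f` weakly.
* `stress`: integration by parts for `G = R f`, `H = R h` (functions in `W^{2,p}_loc`), with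
  `ΔG = l G - f`, `ΔH = l H - h`, `div W = 0` and the Lie derivative `S` of the metric.
* `pot`: for `ψ_u`, whose Laplacian is bounded by `θ_u ≤ C g_u`. -/
structure Rcd (C : ℝ) : Prop where
  dist : ∀ u x y z, T.In u → T.dist u x x = 0 ∧ T.dist u x y = T.dist u y x ∧
    T.dist u x z ≤ T.dist u x y + T.dist u y z ∧ T.Cont (T.dist u x)
  lip : ∀ u f L, T.In u → T.C1 f → 0 ≤ L → (∀ x, T.gd u f x ≤ L) → T.Lip u f L
  congr : ∀ l u f h, 0 < l → T.In u → (T.Ae fun x => f x = h x) → T.Res l u f = T.Res l u h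
  res : ∀ l u f L, 0 < l → T.In u → T.Bm f L →
    T.C1 (T.Res l u f) ∧ (∀ x, |T.Res l u f x| ≤ L / l) ∧ ∀ φ, T.Cs φ →
      T.int (T.pr u (T.Res l u f) φ) + l * T.int (fun x => T.Res l u f x * φ x) =
        T.int fun x => f x * φ x
  grad : ∀ l, 0 < l → ∃ D, 0 ≤ D ∧ ∀ u f L, T.In u → T.Bm f L → ∀ x,
    T.gd u (T.Res l u f) x ≤ D * L
  lipr : ∀ u f L D, T.In u → T.Cont f → T.Bm f L → 0 ≤ D → T.Lip u f D → ∀ x,
    (∀ l, 0 < l → T.gd u (T.Res l u f) x ≤ D / l) ∧
      Tendsto (fun l => l * T.Res l u f x) atTop (𝓝 (f x))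
  stress : ∀ l u f h L φ, 0 < l → T.In u → T.Bm f L → T.Bm h L → T.Cs φ →
    T.int (fun x => φ x * ((l * T.Res l u f x - f x) * T.dW u (T.Res l u h) x +
        T.dW u (T.Res l u f) x * (l * T.Res l u h x - h x))) +
      T.int (T.str u (T.Res l u f) (T.Res l u h) φ) =
      T.int fun x => -(T.pr u φ (T.Res l u f) x * T.dW u (T.Res l u h) x) -
        T.pr u φ (T.Res l u h) x * T.dW u (T.Res l u f) x +
        T.dW u φ x * T.pr u (T.Res l u f) (T.Res l u h) x
  pot : ∀ u, T.In u → (∀ x, T.len u x (T.η u x) ≤ C) ∧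
    Integrable (fun x => Mx.nrm (T.a u x) ^ 2) T.μ

/-- The flow of `W` exists almost everywhere, rotates the triple of forms and preserves distances. -/
structure Good : Prop where
  null : ∀ s t, T.In s → T.In t → T.Ae (T.Dom s t)
  rot : ∀ u y, T.In u → T.Dom 0 u y → T.Turn u y
  dist_eq : ∀ u x y, T.In u → T.Dom 0 u x → T.Dom 0 u y →
    T.dist u (T.Fl 0 u x) (T.Fl 0 u y) = T.dist 0 x y

/-- `F : X_s^reg → X_t` is holomorphic and extends the flow; `s` or `t` is `0` -/
def Holo (s t : ℝ) (F : T.M → T.Xc t) : Prop :=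
  T.In s ∧ T.In t ∧ (s = 0 ∨ t = 0) ∧ T.Hol s t F ∧ ∀ x, T.Dom s t x → F x = T.inc t (T.Fl s t x)

/-- the fibres of `F` are discrete -/
def Disc (t : ℝ) (F : T.M → T.Xc t) : Prop := ∀ x, ∀ᶠ y in 𝓝 x, F y = F x → y = x

/-- The published facts.
* `rcd`: Honda's criterion: if the eigenfunctions have bounded gradient then the completions of
  `(M, g_u, μ)` are `RCD(0, N)` spaces; theory of these spaces, uniformly in `u` (diameter bound of
  Guo-Phong-Song-Sturm).
* `ext`: a map from `X_s^reg` to `X_t`, Lipschitz for the metric `θ_t ≤ C g_t`, which is holomorphic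
  on an open set of full measure extends to a holomorphic map on `X_s^reg` (Weyl's lemma).
* `disc`: its fibres are discrete: `F^* ω_t` is a closed positive current with bounded (even
  continuous) potentials, equal to the (rotated) Kähler form `ω_s` almost everywhere, hence `≥ ω_s`;
  on a fibre it would be zero.
* `zmt`: a holomorphic map with discrete fibres, injective on an open set of full measure, to a
  normal space of the same dimension, is an open embedding; so its image is in the regular part. -/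
structure Facts (C : ℝ) : Prop where
  t2 : T2Space T.M
  geom : T.Geom C
  flow : T.Flow
  basic : ∀ u, T.In u → (T.reg u).Basic
  rcd : (∀ u, T.In u → (T.reg u).EigenLipP) → T.Rcd C
  inj : ∀ t x y, T.inc t x = T.inc t y → x = y
  ext : T.Good → ∀ s t, T.In s → T.In t → s = 0 ∨ t = 0 → ∃ F, T.Holo s t F
  disc : T.Good → ∀ s t F, T.Holo s t F → T.Disc t F
  zmt : T.Good → ∀ s t F, T.Holo s t F → T.Disc t F →
    ∃ F' : T.M → T.M, Continuous F' ∧ ∀ x, F x = T.inc t (F' x)

/-- `X_0^reg` with the complex structure rotated by `u` is `X_u^reg`: the flow from time `0` to time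
`u` extends to a homeomorphism. -/
def Rotated : Prop :=
  T.Good ∧ ∀ u, T.In u → ∃ Φ : T.M ≃ₜ T.M, ∀ x, T.Dom 0 u x → Φ x = T.Fl 0 u x

end Rot

end Pool.Agent.SYM
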