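import Pool.Agent.SYM.V3P.FamD
import Pool.Agent.SYM.V3P.CechP
import Pool.Agent.SYM.V3P.RotD

/-!
# SYM/V3P/RotP : hyperkähler rotation by a small angle
-/

set_option autoImplicit false

namespace Pool.Agent.SYM.V3P.Fam

variable (C : Fam)

/-- Rotation by a small angle. Let `h = (g, I, J, K)` be the hyperkähler structure of the projective
member `X_i` in the class `κ`, with period `x + i y`. For small `u ≥ 0` let `X_u` be the fibre of the
universal locally trivial deformation of `X_i` with symplectic form
`[σ_u] = y - i (cos u x - sin u κ)` (local Torelli theorem; Namikawa, Bakker-Lehn), so `X_0 = X_i` and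
`σ_0 = -i σ`. The class `κ_u = cos u κ + sin u x` is of type `(1,1)` on `X_u` and near `κ`, so it is the
class of an ambient smooth Kähler form `θ_u`. The `X_u`, `0 ≤ u ≤ U`, have ambient smooth
trivialisations. `G` is for the form `L_{V_0} σ_u - i θ_u` for one of them, see `CechP`. If it is the
differential of a global form, then there is a trivialisation by a vector field `V` with
`L_V σ_u = i θ_u`, and `T` is the family of the Ricci-flat metrics in the classes `κ_u`, see `Rot`, on
`M = X_i^reg`. `Ang h u`: with the complex structure `cos u I + sin u J`, `X` is the regular part of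
`X_u` and `g` is its singular Ricci-flat metric in the class `κ_u` (the marking is preserved by
continuity in `u`). -/
def RotArcP : Prop :=
  ∀ i x y κ h, C.Frame i x y κ → C.IsMem h i → C.Cl h κ x y → ∃ G : CechP, G.FactsP ∧
    (G.Global → ∃ (T : Rot) (c : ℝ), T.Facts c ∧ (T.Rotated → ∀ u, T.In u → C.Ang h u))

end Pool.Agent.SYM.V3P.Fam
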