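import Pool.Agent.SYM.V3P.FamP
import Pool.Agent.SYM.V3P.FamPk
import Pool.Agent.SYM.V3P.RotP

/-!
# SYM/V3P/PubP : the published facts
-/

set_option autoImplicit false

namespace Pool.Agent.SYM.V3P

/-- The published facts for a locally trivial deformation class of primitive symplectic varieties
with `ℚ`-factorial terminal singularities. -/
structure Fam.Published (C : Fam) : Prop where
  lat : C.LatP
  near : 5 ≤ C.b → C.NearP
  metric : C.MetricP
  nef : C.NefP
  /-- degenerations; the potentials `u` on singular varieties have bounded gradients because the
  completions are `RCD` spaces (`EigenLipP`, Honda) -/
  deg : (∀ g, (C.reg g).EigenLipP) → C.DegP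
  /-- singular Ricci-flat metrics on small deformations of projective members -/
  rot : C.RotArcP
  /-- Gaussian sections of ample line bundles on projective varieties -/
  peak : C.PeakP
  /-- complex analysis: proper images of complex manifolds -/
  close : C.CloseP

end Pool.Agent.SYM.V3P
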