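import Pool.Agent.SYM.V3P.AdaptE
import Pool.Agent.SYM.V3P.AdaptFPk
import Pool.Agent.SYM.V3P.PubP

/-!
# SYM/V3P/Top : the main theorem
-/

set_option autoImplicit false

namespace Pool.Agent.SYM.V3P

/-- Nef line bundles on the projective members are semiample. -/
theorem Fam.Published.main {C : Fam} (h : C.Published) (i : C.I) (a : C.V) (ha : C.NefLine i a) :
    C.Semiample i a :=
  Fam.main_old (Fam.axioms h.lat h.near h.metric h.nef (h.deg h.metric.lip)) h.rot h.peak.to
    h.close.to i a ha

/-- Nef line bundles on projective primitive symplectic varieties are semiample. -/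
theorem World.main (W : World) (hT : W.Terminalization) (hC : ∀ k, (W.C k).Published) (M : W.V)
    (L : W.Bundle M) (hL : W.Nef M L) : W.Semiample M L := by
  obtain ⟨k, i, f, hi, hf⟩ := hT M
  obtain ⟨h1, h2, h3⟩ := hf L
  exact h3 ((hC k).main i (f L) ⟨hi, h1, h2 hL⟩)

end Pool.Agent.SYM.V3P
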