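import Pool.Agent.SYM.V3P.SymV
import Pool.Agent.SYM.V3P.Top
import Pool.Agent.SYM.V3P.AdaptConeV
import Pool.Agent.KTriv.AdaptVar

/-!
# SYM/V3P/Joint : the cone conjecture for finite quotients of products
-/

set_option autoImplicit false

namespace Pool.Agent.SYM.V3P

open KTriv (Var Sp)

theorem IsSymplectic.cone {Y : Var} (h : IsSymplectic Y) (hY : Y.Std) : Y.Cone := by
  obtain ⟨C, P, i, a, f, hC, hP, hf⟩ := h
  exact hf.cone hC.lat hP (fun hb => (hC.near hb).wall) hY fun a ha => hC.main i a ha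

/-- Finite quotients of products of primitive symplectic varieties and of varieties which satisfy
the cone conjecture. -/
theorem cone_of_quotient {r : ℕ} {Y : Fin r → Var} {W X : Var}
    {E : ∀ j, Sp (Y j).n → Sp W.n} {H : W.Aut → Prop} {P : Sp X.n → Sp W.n}
    (hY : ∀ j, (Y j).Std) (hW : W.Std) (hX : X.Std) (hE : W.IsProduct Y E)
    (hP : W.IsQuotient H X P) (hC : ∀ j, IsSymplectic (Y j) ∨ (Y j).Cone) : X.Cone :=
  Var.cone_of_quotient hY hW hX hE hP fun j => (hC j).elim (fun h => h.cone (hY j)) id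

end Pool.Agent.SYM.V3P
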