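import Pool.Agent.SYM.V3P.CechP

/-!
# SYM/V3P/AdaptCech : the gauge exists
-/

set_option autoImplicit false

namespace Pool.Agent.SYM.CechP

variable {G : CechP}

theorem FactsP.global (h : G.FactsP) : G.Global := by
  classical
  choose γ hγ using h.loc
  have hex : ∀ i j, ∃ k, G.Pot i j (γ i) (γ j) k := fun i j => h.exact i j _ _ (hγ i) (hγ j)
  choose k hk using hex
  obtain ⟨c, hc, hcoc⟩ := h.class_zero γ k hγ hk
  have hs : ∀ i j, _ := fun i j =>
    h.sub i j (k i j) (c i j) (fun x => k i j x - c i j x) (hk i j).1 (hc i j).1 fun _ _ => rfl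
  obtain ⟨m, hm, hmk⟩ := h.h1 (fun i j x => k i j x - c i j x) (fun i j => (hs i j).1) hcoc
  have key : ∀ i j x v, G.On i j x →
      γ i x v - G.d (m i) x v = γ j x v - G.d (m j) x v := by
    intro i j x v hx
    have h1 := (hk i j).2 x v hx
    have h2 := (hs i j).2 x v hx
    have h3 := (hc i j).2 x v hx
    have h4 := (h.sub i j (m i) (m j) (fun x => k i j x - c i j x) (hm i j).1 (hm j i).2
      fun x hx => hmk i j x hx).2 x v hx
    rw [h3, sub_zero, ← h1] at h2
    rw [h2] at h4
    linear_combination h4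
  refine ⟨fun x v => γ (h.cover x).choose x v - G.d (m (h.cover x).choose) x v, fun i => ?_⟩
  exact h.add i (m i) (γ i) _ (hγ i) (hm i i).1 fun x v hx =>
    key _ i x v ⟨(h.cover x).choose_spec, hx⟩

end Pool.Agent.SYM.CechP
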