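import Pool.Agent.SYM.V3P.RotD
import Pool.Agent.SYM.V3P.AdaptReg
import Pool.Agent.SYR.Family

/-!
# SYM/V3P/AdaptRot : the rotation theorem for V3P/RotD
-/

set_option autoImplicit false

open Matrix MeasureTheory Filter Topology Set
open scoped ENNReal

namespace Pool.Agent.SYM

namespace Mx

variable {N : ℕ}

theorem Quat.to {I J K : Mx N} (h : Quat I J K) : SYR.Quat I J K := by
  obtain ⟨It, Jt, II, JJ, IJ, JI⟩ := h
  have IIX : ∀ X : Mx N, I * (I * X) = -X := fun X => by rw [← mul_assoc, II, neg_mul, one_mul]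
  have JJX : ∀ X : Mx N, J * (J * X) = -X := fun X => by rw [← mul_assoc, JJ, neg_mul, one_mul]
  have JIX : ∀ X : Mx N, J * (I * X) = -(I * (J * X)) := fun X => by
    rw [← mul_assoc, JI, ← IJ, neg_mul, mul_assoc]
  have JI' : J * I = -(I * J) := by rw [JI, IJ]
  subst IJ
  exact
    { It := It
      Jt := Jt
      Kt := by rw [transpose_mul, It, Jt, neg_mul, mul_neg, neg_neg, JI']
      II := II
      JJ := JJ
      KK := by rw [mul_assoc, JIX, JJ, mul_neg, neg_inj, mul_neg, mul_neg, mul_one, II, neg_neg]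
      IJ := rfl
      JI := JI'
      JK := by rw [JIX, JJ]; simp
      KJ := by rw [mul_assoc, JJ]; simp
      KI := by rw [mul_assoc, JI', mul_neg, IIX, neg_neg]
      IK := by rw [IIX] }

theorem pr_nonneg (P : Mx N) (v : Fin N → ℝ) : 0 ≤ pr P v v := by
  unfold pr dotProduct
  exact Finset.sum_nonneg fun i _ => mul_self_nonneg _

theorem nrm_sq (A : Mx N) : nrm A ^ 2 = SYR.nsq A := by
  have h : 0 ≤ ip A A :=
    Finset.sum_nonneg fun i _ => Finset.sum_nonneg fun j _ => mul_self_nonneg _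
  rw [nrm, Real.sq_sqrt h]
  rfl

end Mx

private theorem det_meas {N : ℕ} {X : Type*} [MeasurableSpace X] {A : X → Mx N}
    (hA : ∀ i j, Measurable (fun x => A x i j)) : Measurable (fun x => (A x).det) := by
  simp only [Matrix.det_apply]
  refine Finset.measurable_sum _ fun σ _ => ?_
  refine Measurable.const_smul ?_ _
  exact Finset.measurable_prod _ fun i _ => hA _ _

private theorem inv_meas {N : ℕ} {X : Type*} [MeasurableSpace X] {A : X → Mx N}
    (hA : ∀ i j, Measurable (fun x => A x i j)) (i j : Fin N) :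
    Measurable (fun x => (A x)⁻¹ i j) := by
  have e : ∀ x, (A x)⁻¹ i j = (A x).det⁻¹ * (A x).adjugate i j := fun x => by
    rw [Matrix.inv_def, Ring.inverse_eq_inv']
    rfl
  simp only [e]
  refine (det_meas hA).inv.mul ?_
  simp only [Matrix.adjugate_apply]
  refine det_meas fun k l => ?_
  by_cases hk : k = j
  · subst hk
    simp only [Matrix.updateRow_self]
    exact measurable_const
  · simp only [Matrix.updateRow_ne hk]
    exact hA _ _

namespace Rot

variable {T : Rot} {C : ℝ}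

/-- The data of SYR/Arc. -/
noncomputable def arc (T : Rot) : SYR.Arc (Fin T.N) where
  M := T.M
  μ := T.μ
  U := T.U
  I := T.I
  J := T.J
  K := T.K
  P := T.P
  Θ := T.Θ
  η := T.η
  W := T.W
  A := T.A
  sm := {f | T.C1 f}
  cs := {f | T.Cs f}
  dl := T.dl
  Cl := {α | T.Cl α}
  Ex := T.Ex
  χ := T.χ
  Fl := T.Fl
  Dom := T.Ds
  DF := T.DF
  dist := T.dist
  Res := T.Res

theorem gd_sq (u : ℝ) (f : T.F) (x : T.M) : T.gd u f x ^ 2 = T.pr u f f x := by
  rw [gd, len, Real.sq_sqrt (Mx.pr_nonneg _ _)]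
  rfl

theorem Geom.B_meas (h : T.Geom C) (i j : Fin T.N) :
    Measurable (fun z : ℝ × T.M => T.B z.1 z.2 i j) := by
  unfold B Mx.pull
  simp only [Matrix.mul_apply, Matrix.transpose_apply]
  refine Finset.measurable_sum _ fun k _ => ?_
  refine Measurable.mul (Finset.measurable_sum _ fun l _ => ?_) (h.meas k j).1
  exact ((h.meas l i).1).mul measurable_const

theorem Geom.inv (h : T.Geom C) {u : ℝ} (hu : T.In u) (x : T.M) : IsUnit (T.P u x).det := by
  refine Matrix.isUnit_det_of_left_inverse (B := -(T.J * (T.P u x)ᵀ * T.J)) ?_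
  have h1 := h.symp u x hu
  rw [Mx.pull] at h1
  rw [neg_mul, mul_assoc, mul_assoc, ← mul_assoc _ T.J (T.P u x), h1, h.quat.to.JJ, neg_neg]

theorem Geom.to (h : T.Geom C) : T.arc.Geom0 C where
  fin := h.fin
  pos := h.pos
  U_pos := h.bds.1
  C_nonneg := h.bds.2.1
  card := by rw [Fintype.card_fin]; exact h.bds.2.2
  quat := h.quat.to
  P_meas := fun i j => (h.meas i j).1
  Θ_meas := fun i j => (h.meas i j).2.1
  η_meas := fun i => (h.meas i i).2.2.2
  W_meas := fun i => by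
    show Measurable (fun z : ℝ × T.M => T.W z.1 z.2 i)
    unfold W Matrix.mulVec dotProduct
    exact Finset.measurable_sum _ fun j _ =>
      (inv_meas (fun i j => h.B_meas i j) i j).mul (h.meas j j).2.2.2
  A_meas := fun i j => (h.meas i j).2.2.1
  inv := fun u hu x => h.inv hu x
  symp := fun u hu x => h.symp u x hu
  B_deriv := fun u hu x i j => h.deriv u x i j hu
  Θ_bdd := fun u hu s hs x => (h.bdd u s x hu hs).1
  Θ_lip := fun u hu s hs x => by
    have h1 := (h.bdd u s x hu hs).2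
    have e : T.arc.hat u x (T.Θ s x - T.Θ u x) = Mx.sub (T.θ u s x) (T.θ u u x) := by
      show ((T.P u x)⁻¹)ᵀ * (T.Θ s x - T.Θ u x) * (T.P u x)⁻¹ =
        ((T.P u x)⁻¹)ᵀ * T.Θ s x * (T.P u x)⁻¹ - ((T.P u x)⁻¹)ᵀ * T.Θ u x * (T.P u x)⁻¹
      rw [mul_sub, sub_mul]
    show SYR.nrm (T.arc.hat u x (T.Θ s x - T.Θ u x)) ≤ C * |s - u|
    rw [e]
    exact h1
  lie := fun u hu x => h.lie u x hu
  cs_sm := fun f hf => hf.1
  sm_cont := fun f hf => (h.c1 f hf).1
  cs_bdd := fun f hf => (h.c1 f hf.1).1.bounded_above_of_compact_support hf.2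
  dl_meas := fun f hf => (h.c1 f hf).2.1
  cs_sq := fun f hf => by
    have h1 := h.c1_alg f f hf.1 hf.1
    have e : (fun x => f x ^ 2) = fun x => f x * f x := funext fun x => sq _
    rw [e]
    refine ⟨⟨h1.2.1, hf.2.mul_right⟩, fun x => ?_⟩
    funext i
    have h2 := (h1.2.2 x i).2
    show T.dl (fun x => f x * f x) x i = _
    rw [h2]
    show _ = 2 * f x * T.dl f x i
    ring
  cs_mul := fun f hf k hk => by
    have h1 := h.c1_alg f k hf.1 hk
    exact ⟨⟨h1.2.1, hf.2.mul_right⟩, fun x => funext fun i => (h1.2.2 x i).2⟩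
  sm_sub := fun f hf k hk => by
    have h1 := h.c1_alg f k hf hk
    exact ⟨h1.1, fun x => funext fun i => (h1.2.2 x i).1⟩
  sm_mul := fun f hf k hk => by
    have h1 := h.c1_alg f k hf hk
    exact ⟨h1.2.1, fun x => funext fun i => (h1.2.2 x i).2⟩
  pr_cont := fun u hu f hf => by
    have h1 : Continuous (fun x => T.gd u f x ^ 2) := ((h.c1 f hf).2.2 u hu).pow 2
    have e : (fun x => T.gd u f x ^ 2) = fun x => T.pr u f f x := funext fun x => gd_sq u f x
    rw [e] at h1
    exact h1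
  supp := fun f hf => by
    obtain ⟨L, hL⟩ := h.cs f hf
    exact ⟨L, fun u hu x hx => (hL u x hu).2 hx⟩
  χ_cs := fun j => (h.cut j).1
  χ_nonneg := fun j x => ((h.cut j).2.1 x).1
  χ_le_one := fun j x => ((h.cut j).2.1 x).2
  χ_lim := h.lim
  c_bdd := fun f hf => by
    obtain ⟨L, hL⟩ := h.cs f hf
    refine ⟨L ^ 2, fun u hu x => ?_⟩
    have h1 := (hL u x hu).1
    have h2 : 0 ≤ T.gd u f x := Real.sqrt_nonneg _
    have h3 := gd_sq u f x
    show T.pr u f f x ≤ L ^ 2
    rw [← h3]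
    exact pow_le_pow_left₀ h2 h1 2
  c_sq := by
    refine ⟨fun j => 1 / ((j : ℝ) + 1), tendsto_one_div_add_atTop_nhds_zero_nat, fun j u hu => ?_⟩
    have h1 := (h.cut j).2.2 u hu
    have e : (fun x => T.gd u (T.χ j) x ^ 2) = fun x => T.pr u (T.χ j) (T.χ j) x :=
      funext fun x => gd_sq u _ x
    rw [int, e] at h1
    have h2 : (0 : ℝ) < (j : ℝ) + 1 := by positivity
    rw [le_div_iff₀ h2, mul_comm]
    exact h1
  cl_sub := fun α hα β hβ => h.sub α β hα hβ
  ω_cl := fun u hu => (h.forms u hu).1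
  A_cl := fun u hu => (h.forms u hu).2.1
  η_ex := fun u hu => (h.forms u hu).2.2.1
  A_ex := fun u hu => (h.forms u hu).2.2.2
  stokes := fun u hu f hf α hα β β' hβ => h.stokes u f α β β' hu hf hα hβ
  coh := fun u hu s hs => by
    have h1 := h.coh u s hu hs
    have e : T.int (fun _ => 1) = T.μ.real univ := by
      rw [int, integral_const, smul_eq_mul, mul_one]
    rw [e] at h1
    rw [Fintype.card_fin]
    exact h1
  cont := fun x i j => by
    have h1 := h.cont x i j
    have e : (fun u => Mx.pull (T.P u x) 1 i j) = fun u => T.arc.g u x i j := by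
      funext u
      show ((T.P u x)ᵀ * (1 : Mx T.N) * T.P u x : Mx T.N) i j =
        ((T.P u x)ᵀ * T.P u x : Mx T.N) i j
      rw [mul_one]
    rw [e] at h1
    exact h1
  div := fun u hu f hf => h.div u f hu hf

theorem Rcd.nonneg (h : T.Rcd C) {u : ℝ} (hu : T.In u) (x y : T.M) : 0 ≤ T.dist u x y := by
  have h1 := h.dist u x y x hu
  have h2 := h.dist u x y y hu
  linarith [h1.1, h1.2.2.1, h1.2.1]

theorem Rcd.to (h : T.Rcd C) : T.arc.Rcd where
  dist_self := fun u hu x => (h.dist u x x x hu).1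
  dist_nonneg := fun u hu x y => h.nonneg hu x y
  dist_comm := fun u hu x y => (h.dist u x y x hu).2.1
  dist_tri := fun u hu x y z => (h.dist u x y z hu).2.2.1
  dist_cont := fun u hu x => (h.dist u x x x hu).2.2.2
  lip := fun u hu f hf L hL h1 => h.lip u f L hu hf hL fun x => by
    refine Real.sqrt_le_iff.2 ⟨hL, h1 x⟩
  res_sm := fun l hl u hu f hf L hL => by
    have h1 := h.res l u f L hl hu ⟨hf, hL⟩
    exact ⟨h1.1, h1.2.1⟩
  res_congr := fun l hl u hu f k hfk => h.congr l u f k hl hu hfk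
  res_grad := fun l hl => by
    obtain ⟨D, hD, h1⟩ := h.grad l hl
    refine ⟨D, hD, fun u hu f hf L hL x => ?_⟩
    have h2 := h1 u f L hu ⟨hf, hL⟩ x
    have h3 : 0 ≤ T.gd u (T.Res l u f) x := Real.sqrt_nonneg _
    have h4 := gd_sq u (T.Res l u f) x
    show T.pr u (T.Res l u f) (T.Res l u f) x ≤ (D * L) ^ 2
    rw [← h4]
    exact pow_le_pow_left₀ h3 h2 2
  res_eq := fun l hl u hu f hf L hL φ hφ => (h.res l u f L hl hu ⟨hf, hL⟩).2.2 φ hφ
  res_lip := fun l hl u hu f hf L D hD hL hLip x => by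
    have h2 := (h.lipr u f L D hu hf ⟨hf.measurable, hL⟩ hD hLip x).1 l hl
    have h3 : 0 ≤ T.gd u (T.Res l u f) x := Real.sqrt_nonneg _
    have h4 := gd_sq u (T.Res l u f) x
    show T.pr u (T.Res l u f) (T.Res l u f) x ≤ (D / l) ^ 2
    rw [← h4]
    exact pow_le_pow_left₀ h3 h2 2
  res_lim := fun u hu f hf L D hL hLip x => by
    refine (h.lipr u f L (max D 0) hu hf ⟨hf.measurable, hL⟩ (le_max_right _ _) ?_ x).2
    intro y z
    exact (hLip y z).trans (mul_le_mul_of_nonneg_right (le_max_left _ _) (h.nonneg hu y z))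
  stress := fun l hl u hu f k hf hk L hL hL' φ hφ =>
    h.stress l u f k L φ hl hu ⟨hf, hL⟩ ⟨hk, hL'⟩ hφ

theorem Rcd.pot' (h : T.Rcd C) (hG : T.Geom C) : T.arc.Pot C where
  η_bdd := fun u hu x => by
    have h1 := (h.pot u hu).1 x
    have h2 : 0 ≤ T.len u x (T.η u x) := Real.sqrt_nonneg _
    have h3 : T.len u x (T.η u x) ^ 2 = Mx.pr (T.P u x) (T.η u x) (T.η u x) := by
      rw [len, Real.sq_sqrt (Mx.pr_nonneg _ _)]
    show Mx.pr (T.P u x) (T.η u x) (T.η u x) ≤ C ^ 2
    rw [← h3]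
    exact pow_le_pow_left₀ h2 h1 2
  W_bdd := fun u hu x => by
    have h1 := (h.pot u hu).1 x
    have h2 : 0 ≤ T.len u x (T.η u x) := Real.sqrt_nonneg _
    have h3 : T.len u x (T.η u x) ^ 2 = Mx.pr (T.P u x) (T.η u x) (T.η u x) := by
      rw [len, Real.sq_sqrt (Mx.pr_nonneg _ _)]
    have hq := hG.quat.to
    have hP := hG.inv hu x
    have hK : (T.K)⁻¹ = -T.K := by
      refine Matrix.inv_eq_left_inv ?_
      rw [neg_mul, hq.KK, neg_neg]
    have e1 : T.P u x *ᵥ T.W u x = -(T.K *ᵥ Mx.co (T.P u x) (T.η u x)) := by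
      rw [W, B, Mx.pull, Mx.co, Matrix.mulVec_mulVec, Matrix.mulVec_mulVec, ← Matrix.neg_mulVec]
      congr 1
      rw [Matrix.mul_inv_rev, Matrix.mul_inv_rev, ← mul_assoc, Matrix.mul_nonsing_inv _ hP,
        one_mul, hK, Matrix.transpose_nonsing_inv, neg_mul]
    have e2 : SYR.vsq (T.P u x *ᵥ T.W u x) = Mx.pr (T.P u x) (T.η u x) (T.η u x) := by
      have e3 : ∀ v : Fin T.N → ℝ, SYR.vsq v = v ⬝ᵥ v := fun v => by
        unfold SYR.vsq dotProduct
        exact Finset.sum_congr rfl fun i _ => by ring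
      rw [e1, e3, neg_dotProduct, dotProduct_neg, neg_neg, Mx.pr,
        Matrix.dotProduct_mulVec, Matrix.vecMul_mulVec, hq.Kt, neg_mul, hq.KK, neg_neg,
        Matrix.vecMul_one]
    show SYR.vsq (T.P u x *ᵥ T.W u x) ≤ C ^ 2
    rw [e2, ← h3]
    exact pow_le_pow_left₀ h2 h1 2
  A_sq := fun u hu => by
    have h1 := (h.pot u hu).2
    have e : (fun x => Mx.nrm (T.a u x) ^ 2) = fun x => SYR.nsq (T.arc.hat u x (T.A u x)) :=
      funext fun x => Mx.nrm_sq _
    rw [e] at h1
    exact h1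

theorem Flow.to (h : T.Flow) : T.arc.Flow where
  self := fun s hs x => h.self s x hs
  isOpen := fun s hs t ht => (h.cont s t hs ht).1
  cont := fun s hs t ht => (h.cont s t hs ht).2.1
  comp := fun s hs t ht r hr x hx => h.comp s t r x ⟨hs, ht, hr⟩ hx
  inv := fun s hs t ht x hx => h.inv s t x hs ht hx
  blow := fun s hs t ht x hx f hf => by
    obtain ⟨r, h1, h2, h3⟩ := h.blow s t x f hs ht hx hf
    exact ⟨r, h1.2.2, h2, h3⟩
  deriv := fun f hf s hs t ht x hx r hr => (h.deriv s t r x f ⟨hs, ht, hr⟩ hx hf).2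
  deriv_cont := fun f hf s hs t ht x hx =>
    (h.deriv s t s x f ⟨hs, ht, left_mem_uIcc⟩ hx hf).1
  meas := h.meas
  pres := fun s hs t ht f hf => (h.cont s t hs ht).2.2.lintegral_comp hf
  chain := fun u hu f hf k hk e y hy => h.chain u f k hu hf hk e y hy
  rot := fun h1 u hu y hy => by
    have h2 := h.rot h1 u y hu hy
    refine ⟨?_, h2.2⟩
    have h3 := h2.1
    rw [Mx.pull, Mx.lin, neg_smul, ← sub_eq_add_neg] at h3
    exact h3

theorem Facts.exists_geom (h : T.Facts C) : T.arc.Rcd ∧ ∃ C' h0, T.arc.Geom C' h0 := by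
  have hR : T.Rcd C := h.rcd fun u hu => by
    refine Reg.EigenLip.toP fun f hf M l hM hl => ?_
    have hb := h.basic u hu
    obtain ⟨φ, hφ⟩ := hb.pole'
    exact Reg.lipschitz_of_sobolev hb.calculus hb.leibniz hφ hb.approx' hb.sobolev' hf hM hl
  exact ⟨hR.to, h.geom.to.toGeom (hR.pot' h.geom) h.geom.bds.2.1⟩

theorem Facts.good (h : T.Facts C) : T.Good := by
  obtain ⟨hR, C', h0, hG⟩ := h.exists_geom
  exact
    { null := fun s t hs ht => SYR.Arc.dom_null hG h.flow.to hs ht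
      rot := fun u y hu hy => h.flow.rot (SYR.Arc.R2 hG) u y hu hy
      dist_eq := fun u x y hu hx hy => SYR.Arc.isometry hG h.flow.to hR hu x hx y hy }

/-- The rotation theorem. -/
theorem Facts.rotated (h : T.Facts C) : T.Rotated := by
  obtain ⟨hR, C', h0, hG⟩ := h.exists_geom
  have hgood := h.good
  have hF := h.flow.to
  have h00 : T.In 0 := ⟨le_refl _, hG.U_pos.le⟩
  have := h.t2
  have key : ∀ s t, T.In s → T.In t → s = 0 ∨ t = 0 → ∃ F' : T.M → T.M, Continuous F' ∧
      ∀ x, T.Dom s t x → F' x = T.Fl s t x := by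
    intro s t hs ht hst
    obtain ⟨F, hF⟩ := h.ext hgood s t hs ht hst
    obtain ⟨F', h1, h3⟩ := h.zmt hgood s t F hF (h.disc hgood s t F hF)
    refine ⟨F', h1, fun x hx => h.inj t _ _ ?_⟩
    rw [← h3, hF.2.2.2.2 x hx]
  refine ⟨hgood, fun u hu => ?_⟩
  obtain ⟨F, hFc, hF1⟩ := key 0 u h00 hu (Or.inl rfl)
  obtain ⟨G, hGc, hG1⟩ := key u 0 hu h00 (Or.inr rfl)
  have hGF : ∀ x, G (F x) = x := by
    have hd := SYR.Arc.dom_dense hG hF h00 hu
    have : (fun x => G (F x)) = id := by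
      refine Continuous.ext_on hd (hGc.comp hFc) continuous_id fun x hx => ?_
      obtain ⟨h1, h2⟩ := h.flow.inv 0 u x h00 hu hx
      show G (F x) = x
      rw [hF1 x hx, hG1 _ h1, h2]
    exact fun x => congrFun this x
  have hFG : ∀ x, F (G x) = x := by
    have hd := SYR.Arc.dom_dense hG hF hu h00
    have : (fun x => F (G x)) = id := by
      refine Continuous.ext_on hd (hFc.comp hGc) continuous_id fun x hx => ?_
      obtain ⟨h1, h2⟩ := h.flow.inv u 0 x hu h00 hx
      show F (G x) = x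
      rw [hG1 x hx, hF1 _ h1, h2]
    exact fun x => congrFun this x
  exact ⟨⟨⟨F, G, hGF, hFG⟩, hFc, hGc⟩, hF1⟩

end Rot

end Pool.Agent.SYM
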