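import Pool.Agent.SYM.V3P.RotP
import Pool.Agent.SYM.V3P.AdaptRot
import Pool.Agent.SYM.V3P.AdaptCech

/-!
# SYM/V3P/AdaptArc : the singular Ricci-flat metric is also that of the varieties `X_u`, for small `u`
-/

set_option autoImplicit false

namespace Pool.Agent.SYM.V3P.Fam

variable {C : Fam}

theorem RotArcP.exists_ang (hR : C.RotArcP) {i : C.I} {x y κ : C.V} {h : C.HK}
    (hF : C.Frame i x y κ) (hm : C.IsMem h i) (hc : C.Cl h κ x y) :
    ∃ U : ℝ, 0 < U ∧ ∀ u, 0 ≤ u → u ≤ U → C.Ang h u := by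
  obtain ⟨G, hG, hGT⟩ := hR i x y κ h hF hm hc
  obtain ⟨T, c, hT, hTP⟩ := hGT hG.global
  exact ⟨T.U, hT.geom.bds.1, fun u h0 h1 => hTP hT.rotated u ⟨h0, h1⟩⟩

end Pool.Agent.SYM.V3P.Fam
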