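import Mathlib

/-!
# SYM/V3P/GeoD : the data of Ricci-flat Kähler metrics on one space
-/

set_option autoImplicit false

open MeasureTheory Set
open scoped Matrix

namespace Pool.Agent.SYP

/-- A class of Kähler metrics (each with its complex structure, of complex dimension `m`) on one
space `X`, as plain data. The space `X` is a compact manifold, or the regular part of a compact
variety. For every metric and every point a unitary frame of the tangent space is fixed, i.e. a
unitary isomorphism with `ℂ^m`; in these frames a form `e` of type `(1, 0)` is a vector,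
`e(v) = ∑ e_j v_j`, and a form of type `(1, 1)` is a matrix `H`, with the quadratic form
`v ↦ ∑ conj(v_j) H_jk v_k`; the Kähler form is the matrix `1`. -/
structure Geo2 (m : ℕ) where
  X : Type
  [top : TopologicalSpace X]
  [sec : SecondCountableTopology X]
  [mea : MeasurableSpace X]
  [bor : BorelSpace X]
  Met : Type
  /-- the distance -/
  dist : Met → X → X → ℝ
  /-- the Riemannian volume -/
  vol : Met → Measure X
  /-- the functions which are smooth on `X`, bounded, with bounded gradient and bounded Laplacian,
  and belong to the domain of the Laplacian (the smooth functions if `X` is a compact manifold) -/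
  sm : Met → Set (X → ℝ)
  /-- the form `2 ∂f` of type `(1, 0)` (zero unless `f` is smooth) -/
  dl : Met → (X → ℝ) → X → (Fin m → ℂ)
  /-- the form `dd^c f = 2 i ∂∂̄f` of type `(1, 1)` (zero unless `f` is smooth) -/
  lev : Met → (X → ℝ) → X → Matrix (Fin m) (Fin m) ℂ
  /-- the function `|∇²f|²` (zero unless `f` is smooth) -/
  hess : Met → (X → ℝ) → X → ℝ
  /-- the heat kernel -/
  hk : Met → ℝ → X → X → ℝ
  /-- nearly flat balls -/
  flat : Met → X → ℝ → Prop
  /-- the pull-backs of the Fubini-Study forms of the projective spaces `P^N`, `N ≥ 1`, by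
  holomorphic maps `X → P^N` -/
  fs : Met → Set (X → Matrix (Fin m) (Fin m) ℂ)

attribute [instance] Geo2.top Geo2.sec Geo2.mea Geo2.bor

namespace Geo2

variable {m : ℕ} (D : Geo2 m) (M : D.Met)

/-- `⟨∇f, ∇h⟩ + i ⟨J∇f, ∇h⟩` -/
noncomputable def pr (f h : D.X → ℝ) (x : D.X) : ℂ := D.dl M f x ⬝ᵥ star (D.dl M h x)

end Geo2

end Pool.Agent.SYP
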