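import Pool.Agent.SYM.V3P.GeoP
import Pool.Agent.SYP.Geo2

/-!
# SYM/V3P/AdaptC : the short forms of the rules imply the long ones
-/

set_option autoImplicit false

open MeasureTheory Set Filter
open scoped Matrix

namespace Pool.Agent.SYP

theorem pd_eq {n : ℕ} {F : (Fin n → ℝ) → ℝ} (hF : Smooth F) (i : Fin n) (v : Fin n → ℝ) :
    pd F i v = fderiv ℝ F v (Pi.single i 1) := by
  have h1 : HasFDerivAt F (fderiv ℝ F v) (v + Pi.single i (0 : ℝ)) := by
    rw [Pi.single_zero, add_zero]
    exact (hF.differentiable (by simp)).differentiableAt.hasFDerivAt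
  have h2 : HasDerivAt (fun t : ℝ => v + Pi.single (M := fun _ => ℝ) i t) (Pi.single i (1 : ℝ)) 0 :=
    (hasDerivAt_single i (0 : ℝ)).const_add v
  exact (h1.comp_hasDerivAt (0 : ℝ) h2).deriv

theorem Smooth.pd {n : ℕ} {F : (Fin n → ℝ) → ℝ} (hF : Smooth F) (i : Fin n) :
    Smooth (SYP.pd F i) := by
  have e : SYP.pd F i = fun v => fderiv ℝ F v (Pi.single i 1) := funext fun v => pd_eq hF i v
  rw [e]
  have h1 : ContDiff ℝ (⊤ : ℕ∞) (fderiv ℝ F) := hF.fderiv_right (by simp)
  exact h1.clm_apply contDiff_const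

theorem pd_pd_eq {n : ℕ} {F : (Fin n → ℝ) → ℝ} (hF : Smooth F) (i j : Fin n) (v : Fin n → ℝ) :
    pd (pd F j) i v = fderiv ℝ (fun v => fderiv ℝ F v (Pi.single j 1)) v (Pi.single i 1) := by
  have e : pd F j = fun v => fderiv ℝ F v (Pi.single j 1) := funext fun v => pd_eq hF j v
  rw [pd_eq (hF.pd j), e]

namespace Geo2

variable {m : ℕ} {D : Geo2 m}

theorem RulesP.to (h : ∀ M, D.RulesP M) : D.Rules where
  dist_self M x := ((h M).dist x x x).1
  dist_comm M x y := ((h M).dist x y y).2.1
  dist_tri M x y z := ((h M).dist x y z).2.2.1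
  dist_cont M x := ((h M).dist x x x).2.2.2
  fin M := (h M).fin
  sm_cont M f hf := ((h M).one f hf).cont.1
  sm_bdd M f hf := ((h M).one f hf).bdd.1
  pr_cont M f hf k hk := ((h M).two f k hf hk).1
  pr_bdd M f hf := by
    obtain ⟨C, hC⟩ := ((h M).one f hf).bdd.2.2
    exact ⟨C, fun x => (le_abs_self _).trans (hC x)⟩
  lev_herm M f hf := ((h M).one f hf).herm
  trace_cont M f hf := by
    have h1 : Continuous (D.la M f) := ((h M).one f hf).cont.2.1
    have e : (fun x => (D.lev M f x).trace) = fun x => ((D.la M f x : ℝ) : ℂ) := by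
      funext x
      have h2 := ((h M).one f hf).herm x
      have h3 : star ((D.lev M f x).trace) = (D.lev M f x).trace := by
        rw [← Matrix.trace_conjTranspose, h2.eq]
      exact (Complex.conj_eq_iff_re.1 h3).symm
    rw [e]
    exact Complex.continuous_ofReal.comp h1
  trace_bdd M f hf := ((h M).one f hf).bdd.2.1
  det_cont M f hf := ((h M).one f hf).cont.2.2.2
  hess_cont M f hf := ((h M).one f hf).cont.2.2.1
  hess_int M f hf := ((h M).one f hf).hess
  hess_nonneg M := (h M).hess
  sm_comp M n F hF f hf := ((h M).comp n F f hF hf).1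
  dl_comp M n F hF f hf x := by
    rw [show (fun z => F fun i => f i z) = D.cp F f from rfl,
      (((h M).comp n F f hF hf).2 x).1]
    refine Finset.sum_congr rfl fun i _ => ?_
    rw [cp, pd_eq hF]
  lev_comp M n F hF f hf x := by
    rw [show (fun z => F fun i => f i z) = D.cp F f from rfl,
      (((h M).comp n F f hF hf).2 x).2]
    congr 1
    · refine Finset.sum_congr rfl fun i _ => ?_
      rw [cp, pd_eq hF]
    · refine Finset.sum_congr rfl fun i _ => Finset.sum_congr rfl fun j _ => ?_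
      rw [cp, pd_pd_eq hF]
  ibp M f hf k hk := ((h M).two f k hf hk).2
  mass M f hf hb c := by
    have h1 := ((h M).one f hf).mass hb c
    have h2 : D.int M (fun _ => 1) = (D.vol M).real univ := by
      rw [int, integral_const, smul_eq_mul, mul_one]
    rw [h2] at h1
    exact h1
  lip M f hf x r K hK hb z hz := ((h M).one f hf).lip x r K hK hb z hz

theorem HeatP.to {B : ℝ} (hB : 0 < B) (h : ∀ M, D.HeatP M B) : D.Heat B where
  pos := hB
  hk_cont M s hs := ((h M).kernel s hs).1
  hk_nonneg M s hs x z := by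
    obtain ⟨C, hC⟩ := ((h M).kernel s hs).2.1
    exact (hC x z).1
  hk_bdd M s hs := by
    obtain ⟨C, hC⟩ := ((h M).kernel s hs).2.1
    exact ⟨C, fun x z => (hC x z).2.1⟩
  hk_symm M s hs x z := by
    obtain ⟨C, hC⟩ := ((h M).kernel s hs).2.1
    exact (hC x z).2.2
  hk_mass M s hs := ((h M).kernel s hs).2.2
  smooth M s hs f hf := ((h M).flow s f hs hf).1
  lap M s hs f hf x := (((h M).flow s f hs hf).2.1 x).1
  near M s hs f hf := ((h M).flow s f hs hf).2.2.1
  grad M s hs f hf x := (((h M).flow s f hs hf).2.1 x).2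
  bochner M s hs f hf := ((h M).flow s f hs hf).2.2.2
  harnack M s hs x z ξ hx := (h M).harnack s hs x z ξ hx
  lower M r hr x z hz := (h M).lower r hr x z hz
  bishop M x r R hr hR := ((h M).bishop x r R hr hR).1
  upper M x r hr := ((h M).bishop x r r hr le_rfl).2

theorem RegularityP.to (h : D.RegularityP) : D.toGeo.Regularity where
  split v C c hv hC hc := by
    obtain ⟨r, δ, hr, hr1, hδ, hs⟩ := h.split v C c hv hC hc
    refine ⟨r, δ, hr, hr1, hδ, fun M z k hk h1 h2 h3 h4 => ?_⟩
    refine hs M z k h1 (fun i => ⟨hk i, h2 i, h3 i⟩) ?_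
    have e : {w | c ≤ D.gram M k w} = {w | c ≤ D.toGeo.gram M k w} := by
      ext w
      have e2 : D.gram M k w = D.toGeo.gram M k w := by
        rw [gram, SYN.Geo.gram]
        congr 2
        funext i j
        exact (Complex.re_add_im _).symm
      change c ≤ D.gram M k w ↔ c ≤ D.toGeo.gram M k w
      rw [e2]
    rw [e]
    exact h4
  energy r hr := by
    obtain ⟨ε, C, hε, hC, hs⟩ := h.energy r hr
    refine ⟨ε, C, hε, hC, fun M z e he hf hi => ?_⟩
    obtain ⟨T, hT, rfl⟩ := he
    exact hs M z T hT hf hi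
  interior r hr := by
    obtain ⟨C, hC, hs⟩ := h.interior r hr
    exact ⟨C, hC, fun M z f hf κ hfl hl => hs M z f κ hf hfl hl⟩

end Geo2

end Pool.Agent.SYP
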