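import Pool.Agent.SYM.V3P.AdaptD
import Pool.Agent.SYM.V3P.AdaptArc
import Pool.Agent.SYM.V3.PkTop
import Pool.Agent.SYM.V3.LatMain3

/-!
# SYM/V3P/AdaptE : the main theorem for one class, from the short form of the published facts
-/

set_option autoImplicit false

namespace Pool.Agent.SYM.V3P

variable {C : Fam}

theorem Fam.RotArcP.rotEx (hR : C.RotArcP) : V3.Fam.RotEx C.old C.old.Ang := by
  intro i x y κ h h1 h2 h3 h4 h5 h6 h7 h8 h9 h10 h11
  obtain ⟨U, hU, H⟩ := hR.exists_ang (i := i) (x := x) (y := y) (κ := κ) (h := h)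
    ⟨h1, h2, h3, h4, h5, h6, h7⟩ h8 ⟨h9, h10, h11⟩
  exact ⟨U, hU, fun u hu => H u hu.1 hu.2⟩

theorem Fam.axioms (h1 : C.LatP) (h2 : 5 ≤ C.b → C.NearP) (h3 : C.MetricP) (h4 : C.NefP)
    (h5 : C.DegP) : C.old.Axioms where
  toLatticeAxioms := h1.lattice
  toKahlerAxioms := h1.kahler
  toMetricAxioms := h3.to
  toNefAxioms := h4.to
  near := fun hb => (h2 hb).to
  degeneration := h5.to

theorem Fam.main_old (hC : C.old.Axioms) (hR : C.RotArcP)
    (hT : C.old.PeakAxiom C.old.Ang C.old.pts C.old.pk) (hP : C.old.CloseAxiom C.old.pts)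
    (i : C.I) (a : C.V) (ha : C.NefLine i a) : C.Semiample i a :=
  V3.Fam.main_nef (C := C.old) hC
    (V3.Fam.existsPol_of_ang hC.toMetricAxioms hR.rotEx hT hP) i a ha

end Pool.Agent.SYM.V3P
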