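import Pool.Agent.SYM.V3P.FamD

/-!
# SYM/V3P/ConeD : monodromy, automorphisms and divisors of the members of a class, the data
-/

set_option autoImplicit false

namespace Pool.Agent.SYM.V3P

/-- The monodromy operators, the automorphisms and the prime divisors of the members of a class. -/
structure ConeD (C : Fam) where
  /-- `Mon g`: `g` is a monodromy operator on `H²(X, ℝ)` (parallel transport in locally trivial
  families) -/
  Mon : (C.V → C.V) → Prop
  /-- `Aut i g`: `g` is the action (pull back) of an automorphism of `X_i` on `H²(X_i, ℝ)` -/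
  Aut : C.I → (C.V → C.V) → Prop
  /-- `Div i v`: `v` is the class in `H²(X_i, ℝ)` of a prime divisor of the projective variety `X_i`
  (a multiple of which is a Cartier divisor) -/
  Div : C.I → C.V → Prop

namespace Fam

variable (C : Fam)

/-- `∑ c_k f_k` -/
abbrev sum {m : ℕ} (c : Fin m → ℝ) (f : Fin m → C.V) : C.V := ∑ k, c k • f k

/-- `a` is the class of a line bundle on `X_i`: it is integral and of type `(1,1)` -/
abbrev Line (i : C.I) (a : C.V) : Prop := C.Int a ∧ ∀ x y, C.per i x y → C.Ty x y a

/-- `v` is in the real Néron-Severi space of `X_i`, spanned by the classes of line bundles -/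
abbrev NS (i : C.I) (v : C.V) : Prop :=
  ∃ (m : ℕ) (c : Fin m → ℝ) (f : Fin m → C.V), (∀ k, C.Line i (f k)) ∧ v = C.sum c f

/-- `g` is an isometry of the lattice `H²(X, ℤ)`, as a linear map on `H²(X, ℝ)` -/
abbrev Isom (g : C.V → C.V) : Prop := (∀ s x t y, g (C.lc s x t y) = C.lc s (g x) t (g y)) ∧
  (∀ x y, C.q (g x) (g y) = C.q x y) ∧ ∀ x, C.Int (g x) ↔ C.Int x

/-- `G` is a group of isometries of the lattice -/
abbrev Grp (G : (C.V → C.V) → Prop) : Prop := G (fun x => x) ∧ (∀ g, G g → C.Isom g) ∧
  ∀ g h, G g → (G h → G (fun x => g (h x))) ∧ ((∀ x, h (g x) = x) → G h)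

end Fam

namespace ConeD

variable {C : Fam} (P : ConeD C) (i : C.I) {m : ℕ}

/-- `v` is in the effective cone of `X_i`, spanned by the classes of prime divisors -/
abbrev Eff (v : C.V) : Prop :=
  ∃ (m : ℕ) (c : Fin m → ℝ) (f : Fin m → C.V), (∀ k, 0 ≤ c k ∧ P.Div i (f k)) ∧ v = C.sum c f

end ConeD

end Pool.Agent.SYM.V3P
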