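import Pool.Agent.SYM.V3P.ConeD

/-!
# SYM/V3P/ConeP : monodromy, automorphisms and divisors of the members of a class, the facts
-/

set_option autoImplicit false

namespace Pool.Agent.SYM.V3P.ConeD

variable {C : Fam} (P : ConeD C)

/-- Published facts for `b ≥ 5`.
* `index`: the monodromy group has finite index in `O(H²(X, ℤ), q)` (Verbitsky; Bakker-Lehn).
* `torelli`: a monodromy operator which fixes the period of `X_i` and maps some Kähler class to a
  Kähler class is induced by an automorphism (Verbitsky, Markman; Bakker-Lehn).
* `wall`: the set of the wall divisor classes is symmetric and monodromy invariant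
  (Amerik-Verbitsky; Lehn-Mongardi-Pacienza).
* `side`: no Kähler class is orthogonal to a wall divisor class of type `(1,1)`.
* `ample`: the ample cone is a chamber of the positive cone in the real Néron-Severi space for the
  wall divisor classes (Amerik-Verbitsky; Lehn-Mongardi-Pacienza). -/
structure GlobP : Prop where
  index : ∃ (N : ℕ) (f : Fin N → C.V → C.V), ∀ g, C.Isom g → ∃ k m, P.Mon m ∧ ∀ x, g x = m (f k x)
  torelli : ∀ i g A, C.Proj i → P.Mon g → (∀ x y, C.per i x y → g x = x ∧ g y = y) →
    C.Kah i A → C.Kah i (g A) → P.Aut i g
  wall : ∀ s, C.S s → C.S (C.sc (-1) s) ∧ ∀ g, P.Mon g → C.S (g s)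
  side : ∀ i x y A s, C.Proj i → C.per i x y → C.Kah i A → C.S s → C.Ty x y s → C.q s A ≠ 0
  ample : ∀ i x y A B, C.per i x y → C.Kah i A → C.Int A → C.NS i B → 0 < C.q B B →
    0 < C.q B A → (∀ s, C.S s → C.Ty x y s → 0 < C.q s A → 0 < C.q s B) → C.Kah i B

/-- Published facts for all `b`.
* `per`: the period plane of `X_i` is well defined.
* `mon`, `aut`, `act`: automorphisms preserve the classes of type `(1,1)` and the Kähler classes.
* `opn`: the Kähler cone is open in `H^{1,1}(X_i, ℝ)`.
* `curve`: a nef and big class in the real Néron-Severi space which is not ample has degree zero on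
  some curve (cone theorem; Kleiman). A positive multiple of the class of the curve is, as a linear
  form on `H²(X_i, ℝ)`, the product with an integral class `c` of type `(1,1)`.
* `pol`: let `L` be ample. The pairs `(X_i, g L)`, where `g` is an isometry of the lattice which
  fixes the period and `g L` is ample, are bounded, as `q(g L, g L) = q(L, L)` (Matsusaka, Kollár;
  Birkar), and have the same period in the quotient of the period domain of `L^⊥` by an arithmetic
  group. The fibres of the period map of a bounded family of polarised varieties have finitely many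
  connected components (Borel), on which the polarised variety is constant (local Torelli theorem),
  so these pairs form finitely many isomorphism classes.
* `big`: a line bundle whose class has positive square and is in the positive cone has an effective
  multiple (Huybrechts; Kapustka-Mongardi-Pacienza-Pokora).
* `div`: the classes of prime divisors are rational, of type `(1,1)`, positive on Kähler classes.
* `sec`: a semiample line bundle has a multiple with a section. -/
structure Facts : Prop where
  per : ∀ i x y x' y', C.per i x y → C.per i x' y' →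
    ∃ s t u v : ℝ, x' = C.lc s x t y ∧ y' = C.lc u x v y
  mon : C.Grp P.Mon
  aut : ∀ i, C.Grp (P.Aut i)
  act : ∀ i x y g, C.Proj i → C.per i x y → P.Aut i g →
    ∀ v, (C.Ty x y v → C.Ty x y (g v)) ∧ (C.Kah i v → C.Kah i (g v))
  opn : ∀ i x y κ, C.Proj i → C.per i x y → C.Kah i κ →
    ∃ ε : ℝ, 0 < ε ∧ ∀ B, C.Ty x y B → C.Nr ε B κ → C.Kah i B
  curve : ∀ i v, C.Proj i → C.NS i v → C.Nef i v → 0 < C.q v v → ¬ C.Kah i v →
    ∃ c, C.Line i c ∧ C.q c v = 0 ∧ ∀ κ, C.Kah i κ → 0 < C.q c κ
  pol : ∀ i x y L, C.Proj i → C.per i x y → C.Kah i L → C.Int L →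
    ∃ (N : ℕ) (F : Fin N → C.V), ∀ g, C.Isom g → g x = x → g y = y → C.Kah i (g L) →
      ∃ k h, P.Aut i h ∧ h (F k) = g L
  big : ∀ i v A, C.Proj i → C.Line i v → C.Kah i A → 0 < C.q v v → 0 < C.q v A → P.Eff i v
  div : ∀ i D, C.Proj i → P.Div i D →
    C.Rat D ∧ (∀ x y, C.per i x y → C.Ty x y D) ∧ ∀ κ, C.Kah i κ → 0 < C.q D κ
  sec : ∀ i a, C.NefLine i a → C.Semiample i a → P.Eff i a
  glob : 5 ≤ C.b → P.GlobP

/-- A birational contraction `π : X_i → M` onto a normal projective variety `M`: `a` is the pull
back of an ample class of `M`, a nef class with `q(a, a) > 0`, and `f` is a basis of the pull back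
of the lattice `NS(M)` of the line bundles on `M`, or of a sublattice of finite index. The pull back of
the real Néron-Severi space of `M`
consists of the classes `v` of the real Néron-Severi space of `X_i` for which `t a + v` and `t a - v` are
nef for some `t`: they have degree zero on all contracted curves, so they are pull backs (contraction
theorem). If `M = X_i` then `a` is ample and `f` is a basis of `NS(X_i)`. -/
structure Contr (C : Fam) (i : C.I) (a : C.V) {m : ℕ} (f : Fin m → C.V) : Prop where
  proj : C.Proj i
  nef : C.NefLine i a
  type : C.Line i a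
  big : 0 < C.q a a
  basis : ∀ k, C.Line i (f k)
  indep : ∀ x, C.sum x f = C.o → ∀ k, x k = 0
  range : ∀ v, (∃ x, v = C.sum x f) ↔
    C.NS i v ∧ ∃ t, C.Nef i (C.lc t a 1 v) ∧ C.Nef i (C.lc t a (-1) v)

end Pool.Agent.SYM.V3P.ConeD
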