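import Pool.Agent.SYM.V3P.ConeP
import Pool.Agent.KTriv.VarP

/-!
# SYM/V3P/ConeV : primitive symplectic varieties as projective varieties with their cones
-/

set_option autoImplicit false

namespace Pool.Agent.SYM.V3P.ConeD

open KTriv (Var)

variable {C : Fam}

/-- `Y` is the variety `M` of the birational contraction `π : X_i → M`, see `Contr` (for instance
`M = X_i`): `f` is a basis of the pull back of the lattice `N¹(M)`. A class on `M` is nef (effective) if
and only if its pull back is. The automorphisms of `X_i` which preserve the real space of `π^* N¹(M)`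
descend to `M`: they permute the pull backs of the ample classes of `M`, which are the interior points
of the cone of the nef classes in this space. -/
structure Sym (P : ConeD C) (Y : Var) (i : C.I) (a : C.V) (f : Fin Y.n → C.V) : Prop where
  contr : Contr C i a f
  nef : ∀ x, Y.Nef x ↔ C.Nef i (C.sum x f)
  eff : ∀ x, Y.Eff x ↔ P.Eff i (C.sum x f)
  aut : ∀ g, P.Aut i g → (∀ x, ∃ y, g (C.sum x f) = C.sum y f) →
    ∃ h, ∀ x, C.sum (Y.act h x) f = g (C.sum x f)

end Pool.Agent.SYM.V3P.ConeD
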