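import Pool.Agent.SYM.V3P.HKD
import Pool.Agent.SYM.V3P.CalcD
import Pool.Agent.SYM.V3.QData
import Pool.Agent.SYM.V3.PkData

/-!
# SYM/V3P/FamD : locally trivial deformation classes of primitive symplectic varieties, the data

`Fam` is a locally trivial deformation class of marked primitive symplectic varieties `X_i` of
dimension `2n` with `ℚ`-factorial terminal singularities and second Betti number `b`, more precisely
a connected component of their moduli space; for example a deformation class of compact
hyperkähler manifolds. Its members, projective or not, share the lattice `H²(X, ℤ) = ℤ^b` (modulo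
torsion) and its Beauville-Bogomolov-Fujiki form. Locally trivial families are topologically locally
trivial, so the regular parts `(X_i)_reg` have the same underlying manifold, the space `X` of
`M.D`; `(X_i)_reg` is identified with `X` by parallel transport in such families from one
member, compatibly with the markings (`H²(X_i, ℚ) = H²((X_i)_reg, ℚ)`, as `X_i` is `ℚ`-factorial and
terminal).
-/

set_option autoImplicit false

namespace Pool.Agent.SYM.V3P

open SYP (Vec HKData)
open V3 (Calc Quant Pts Peak)

/-- The metric `g` on `X`, with the data of `Reg`. -/
abbrev rg {n b : ℕ} (M : HKData n b) (d : M.D.Met → Calc M.D.X) (g : M.D.Met) : Reg :=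
  (d g).reg (M.D.vol g)

/-- The data of a locally trivial deformation class of primitive symplectic varieties. -/
structure Fam where
  /-- the members have dimension `2n`, `n ≥ 1` -/
  n : ℕ
  /-- the second Betti number, `b ≥ 3` -/
  b : ℕ
  /-- the Beauville-Bogomolov-Fujiki form -/
  q : Vec b → Vec b → ℝ
  /-- the wall divisor classes (primitive MBM classes); used for `b ≥ 5` only -/
  S : Vec b → Prop
  /-- the members of the class: marked compact Kähler spaces `X_i`, primitive symplectic, with
  `ℚ`-factorial terminal singularities -/
  I : Type
  /-- `per i x y`: `(x, y)` is a positively oriented basis of the plane `⟨Re σ, Im σ⟩` of `X_i` -/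
  per : I → Vec b → Vec b → Prop
  /-- the Kähler classes of `X_i` in `H²(X_i, ℝ)` -/
  Kah : I → Vec b → Prop
  /-- the line bundle of class `a` on the projective variety `X_i` is semiample (this does not
  depend on the torsion part of the class, as `H¹(X_i, O) = 0`) -/
  Semiample : I → Vec b → Prop
  /-- through every point of the projective variety `X_i` there is a closed subvariety of dimension
  `n` on all of whose curves the line bundle of class `a` has degree `0` -/
  Covered : I → Vec b → Prop
  /-- there are a connected neighbourhood of `X_i` in the space of the marked members on which `a` is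
  of type `(1,1)`, and a homology class `γ` of degree `2n` with `a ∩ γ = 0`, such that each member
  `X_j` in this neighbourhood is covered by compact analytic cycles of dimension `n` and class `γ` -/
  Swept : I → Vec b → Prop
  /-- nef dimension (Bauer et al.), numerical dimension, Iitaka dimension of the nef line bundle of
  class `a` on the projective variety `X_i` -/
  nefDim : I → Vec b → ℕ
  numDim : I → Vec b → ℕ
  kod : I → Vec b → ℕ
  /-- the common underlying manifold `X` of the regular parts `(X_i)_reg`, and the hyperkähler
  structures `h = (g, I, J, K)` on it such that for one of the parallel complex structures of `g`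
  (not always `J`) `X` is the regular part of a projective member and `g` is its singular Ricci-flat
  metric in a real multiple of a rational class -/
  M : HKData n b
  /-- smooth functions, Laplacian, Hessians of the metrics. For every metric `g` one of the parallel
  complex structures is fixed with which `X` is the regular part of a projective member and `g` is
  its singular Ricci-flat metric (see `M`; not always the complex structure `J` of `D.Met`); the
  types of the Hessian are those for this complex structure. -/
  diff : M.D.Met → Calc M.D.X
  /-- `IsMem h i`: with the complex structure `I` of `h` the manifold `X` is the regular part of the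
  projective member `X_i`, and `g` is the singular Ricci-flat metric of Eyssidieux, Guedj and
  Zeriahi in the class of `ω_I` -/
  IsMem : M.HK → I → Prop
  /-- `Pol h A`: with its second complex structure `J` the manifold `X` is the regular part of a
  projective primitive symplectic variety `Y` with `ℚ`-factorial terminal singularities, `Y` is
  homeomorphic to the members of the class (by an extension of the identity of `X`), `A` is the class
  of an ample line bundle on `Y`, and `g` is the singular Ricci-flat metric of `Y` in the class of
  `ω_J` -/
  Pol : M.HK → Vec b → Prop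
  /-- if a positive multiple of the class of `ω_J` is integral: the powers of the `J`-holomorphic
  hermitian line bundle on `X` with this class (or a multiple of it) and curvature a multiple of
  `ω_J`, see `Quant` -/
  quant : ∀ h, Quant (rg M diff (M.met h))
  /-- the points of the completion of `(X, g)` -/
  pts : ∀ g, Pts (rg M diff g)
  /-- `Ang h u`, `h = (g, I, J, K)`: with the complex structure `cos u I + sin u J` the manifold `X` is
  the regular part of a small locally trivial deformation `X_u` of the member whose complex
  structure is `I`, and `g` is its singular Ricci-flat metric, see `RotArcP` -/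
  Ang : M.HK → ℝ → Prop
  /-- the line bundles on `X_0` and `X_u` and the potentials of their sections, see `Peak` and
  `PeakP` -/
  pk : ∀ h, ℝ → Peak (rg M diff (M.met h))

namespace Fam

variable (C : Fam)

/-- `H²(X, ℝ)` -/
abbrev V : Type := Vec C.b

/-- `v` is in the lattice `H²(X, ℤ) = ℤ^b` -/
abbrev Int (v : C.V) : Prop := SYP.IsIntegral v

/-- `t x`, `0`, `s x + t y` -/
abbrev sc (t : ℝ) (x : C.V) : C.V := t • x
abbrev o : C.V := 0
abbrev lc (s : ℝ) (x : C.V) (t : ℝ) (y : C.V) : C.V := s • x + t • y

/-- `v` is a positive real multiple of an integral class -/
abbrev Rat (v : C.V) : Prop := ∃ r : ℝ, 0 < r ∧ C.Int (C.sc r v)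

/-- `v` is of type `(1,1)` for the period plane `⟨x, y⟩` -/
abbrev Ty (x y v : C.V) : Prop := C.q v x = 0 ∧ C.q v y = 0

/-- `X_i` is projective (Kodaira, Grauert) -/
abbrev Proj (i : C.I) : Prop := ∃ A, C.Kah i A ∧ C.Int A

/-- `a` is a nef class: it is in the closure of the Kähler cone. For an integral class on a
projective `X_i`: the line bundle has non-negative degree on all curves (Kleiman). -/
abbrev Nef (i : C.I) (a : C.V) : Prop := a ∈ closure {κ | C.Kah i κ}

/-- `X_i` is projective and `a` is the class of a nef line bundle on it -/
abbrev NefLine (i : C.I) (a : C.V) : Prop := C.Proj i ∧ C.Int a ∧ C.Nef i a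

/-- moreover `a ≠ 0`, `q(a, a) = 0` -/
abbrev NefIso (i : C.I) (a : C.V) : Prop := C.NefLine i a ∧ a ≠ C.o ∧ C.q a a = 0

/-- the hyperkähler structures `h`, their metrics, the classes of `ω_I, ω_J, ω_K` -/
abbrev HK : Type := C.M.HK
abbrev Met : Type := C.M.D.Met
abbrev met (h : C.HK) : C.Met := C.M.met h
abbrev cls (h : C.HK) (c : Fin 3) : C.V := C.M.cls h c

/-- the metric `g` on `X`, with the data of `Reg` -/
abbrev reg (g : C.Met) : Reg := rg C.M C.diff g

/-- `κ` is a multiple of a rational Kähler class on the projective `X_i`, `(x, y)` an orthogonal
basis of the period plane with the norm of `κ` -/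
abbrev Frame (i : C.I) (x y κ : C.V) : Prop :=
  C.Proj i ∧ C.Rat κ ∧ C.per i x y ∧ C.Kah i κ ∧ C.q x y = 0 ∧ C.q x x = C.q κ κ ∧
    C.q y y = C.q κ κ

/-- `ω_I, ω_J, ω_K` have the classes `κ, x, y` -/
abbrev Cl (h : C.HK) (κ x y : C.V) : Prop := C.cls h 0 = κ ∧ C.cls h 1 = x ∧ C.cls h 2 = y

/-- `h` is the hyperkähler structure of the projective `X_i` in a multiple of a rational class, and
the class of `ω_J` is a multiple of the integral class `A` -/
abbrev QS (h : C.HK) (i : C.I) (A : C.V) : Prop :=
  C.Proj i ∧ C.IsMem h i ∧ C.Rat (C.cls h 0) ∧ C.Int A ∧ ∃ t : ℝ, 0 < t ∧ C.cls h 1 = C.sc t A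

/-- `dist x y < ε` -/
abbrev Nr (ε : ℝ) (x y : C.V) : Prop := dist x y < ε

/-- `N x = q(α, x) A₀ - q(A₀, x) α` -/
abbrev nil (α A₀ x : C.V) : C.V := C.lc (C.q α x) A₀ (-C.q A₀ x) α

/-- the real and the imaginary part of `exp(i y N) ω`, where `N³ = 0` -/
noncomputable abbrev orbRe (α A₀ ω : C.V) (y : ℝ) : C.V :=
  C.lc 1 ω (-(y ^ 2 / 2)) (C.nil α A₀ (C.nil α A₀ ω))
abbrev orbIm (α A₀ ω : C.V) (y : ℝ) : C.V := C.sc y (C.nil α A₀ ω)

end Fam

end Pool.Agent.SYM.V3P
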