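import Pool.Agent.SYM.V3P.GeoD

/-!
# SYM/V3P/GeoP : the analysis of Ricci-flat Kähler metrics
-/

set_option autoImplicit false

open MeasureTheory Set

namespace Pool.Agent.SYP

/-- smooth functions on `ℝ^n` -/
def Smooth {n : ℕ} (F : (Fin n → ℝ) → ℝ) : Prop := ContDiff ℝ (⊤ : ℕ∞) F

/-- partial derivatives -/
noncomputable def pd {n : ℕ} (F : (Fin n → ℝ) → ℝ) (i : Fin n) (v : Fin n → ℝ) : ℝ :=
  deriv (fun t => F (v + Pi.single i t)) 0

namespace Geo2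

variable {m : ℕ} (D : Geo2 m) (M : D.Met)

/-- functions on `X` -/
abbrev F := D.X → ℝ
/-- `f` is in the class `sm` -/
def Sm (f : D.F) : Prop := f ∈ D.sm M
/-- continuous functions -/
def Cont (f : D.F) : Prop := Continuous f
/-- bounded functions -/
def Bdd (f : D.F) : Prop := ∃ C, ∀ x, |f x| ≤ C
/-- the integral -/
noncomputable def int (f : D.F) : ℝ := ∫ x, f x ∂(D.vol M)
/-- the ball -/
def ball (x : D.X) (r : ℝ) : Set D.X := {z | D.dist M x z < r}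
/-- the integral over the ball -/
noncomputable def intB (x : D.X) (r : ℝ) (f : D.F) : ℝ := ∫ w in D.ball M x r, f w ∂(D.vol M)
/-- the volume of the ball -/
noncomputable def vb (x : D.X) (r : ℝ) : ℝ := (D.vol M).real (D.ball M x r)
/-- `⟨∇f, ∇h⟩` -/
noncomputable def gr (f h : D.F) (x : D.X) : ℝ := (D.pr M f h x).re
/-- the Laplacian is the trace of `dd^c f` -/
noncomputable def la (f : D.F) (x : D.X) : ℝ := (D.lev M f x).trace.re
/-- the heat flow -/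
noncomputable def he (s : ℝ) (f : D.F) (x : D.X) : ℝ := ∫ z, D.hk M s x z * f z ∂(D.vol M)
/-- the determinant of `c ω + dd^c f` -/
noncomputable def dt (f : D.F) (c : ℝ) (x : D.X) : ℂ :=
  ((c : ℂ) • (1 : Matrix (Fin m) (Fin m) ℂ) + D.lev M f x).det
/-- the function `F(f_1, ..., f_n)` -/
def cp {n : ℕ} (F : (Fin n → ℝ) → ℝ) (f : Fin n → D.F) (x : D.X) : ℝ := F (fun i => f i x)
/-- the hermitian Gram determinant of `2 ∂h_1, ..., 2 ∂h_m` -/
noncomputable def gram (h : Fin m → D.F) (x : D.X) : ℝ :=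
  ‖Matrix.det (fun i j : Fin m => D.pr M (h i) (h j) x)‖

/-- Elementary rules for one function `f` of the class `sm`. -/
structure One (f : D.F) : Prop where
  cont : D.Cont f ∧ D.Cont (D.la M f) ∧ D.Cont (D.hess M f) ∧ ∀ c, Continuous (D.dt M f c)
  bdd : D.Bdd f ∧ D.Bdd (D.la M f) ∧ D.Bdd (D.gr M f f)
  hess : Integrable (D.hess M f) (D.vol M)
  herm : ∀ x, (D.lev M f x).IsHermitian
  /-- Stokes' theorem: `∫ (c ω + dd^c f)^m = c^m ∫ ω^m` if `dd^c f` is bounded -/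
  mass : (∃ C, ∀ x i j, ‖D.lev M f x i j‖ ≤ C) → ∀ c : ℝ,
    D.int M (fun x => (D.dt M f c x).re) = c ^ m * D.int M (fun _ => 1)
  /-- a gradient bound on a ball is a Lipschitz bound from the centre -/
  lip : ∀ x r K, 0 ≤ K → (∀ z ∈ D.ball M x r, D.gr M f f z ≤ K ^ 2) →
    ∀ z ∈ D.ball M x r, |f z - f x| ≤ K * D.dist M x z

/-- Elementary rules. -/
structure RulesP : Prop where
  dist : ∀ x y z, D.dist M x x = 0 ∧ D.dist M x y = D.dist M y x ∧
    D.dist M x z ≤ D.dist M x y + D.dist M y z ∧ D.Cont (D.dist M x)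
  fin : IsFiniteMeasure (D.vol M)
  hess : ∀ f x, 0 ≤ D.hess M f x
  one : ∀ f, D.Sm M f → D.One M f
  /-- continuity of `⟨∇f, ∇h⟩`, `⟨J∇f, ∇h⟩`, and integration by parts -/
  two : ∀ f h, D.Sm M f → D.Sm M h → Continuous (D.pr M f h) ∧
    D.int M (D.gr M f h) = - D.int M (fun x => f x * D.la M h x)
  /-- chain rule -/
  comp : ∀ (n : ℕ) (G : (Fin n → ℝ) → ℝ) (f : Fin n → D.F), Smooth G → (∀ i, D.Sm M (f i)) →
    D.Sm M (D.cp G f) ∧ ∀ x,
      D.dl M (D.cp G f) x = ∑ i, (D.cp (pd G i) f x : ℂ) • D.dl M (f i) x ∧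
      D.lev M (D.cp G f) x = ∑ i, (D.cp (pd G i) f x : ℂ) • D.lev M (f i) x +
        ∑ i, ∑ j, (D.cp (pd (pd G j) i) f x : ℂ) •
          Matrix.vecMulVec (star (D.dl M (f i) x)) (D.dl M (f j) x)

/-- The heat kernel of a compact manifold with `Ric = 0` (or of a compact `RCD(0, 2m)` space). -/
structure HeatP (B : ℝ) : Prop where
  /-- continuity, positivity, symmetry, mass -/
  kernel : ∀ s, 0 < s → Continuous (fun p : D.X × D.X => D.hk M s p.1 p.2) ∧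
    (∃ C, ∀ x z, 0 ≤ D.hk M s x z ∧ D.hk M s x z ≤ C ∧ D.hk M s x z = D.hk M s z x) ∧
    ∀ x, D.int M (D.hk M s x) = 1
  /-- the heat flow, gradient bound (Bakry-Emery), integrated Bochner formula with the spectral
  theorem -/
  flow : ∀ s f, 0 < s → D.Sm M f → D.Sm M (D.he M s f) ∧
    (∀ x, D.la M (D.he M s f) x = D.he M s (D.la M f) x ∧
      D.gr M (D.he M s f) (D.he M s f) x ≤ D.he M s (D.gr M f f) x) ∧
    D.int M (fun x => |f x - D.he M s f x|) ≤ s * D.int M (fun x => |D.la M f x|) ∧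
    D.int M (D.hess M (D.he M s f)) ≤ s⁻¹ * D.int M (D.gr M f f)
  /-- Li-Yau: `p_s(z, ξ) ≤ B p_{2s}(x, ξ)` if `d(x, z)² ≤ s` -/
  harnack : ∀ s, 0 < s → ∀ x z ξ, D.dist M x z ^ 2 ≤ s → D.hk M s z ξ ≤ B * D.hk M (2 * s) x ξ
  /-- Li-Yau: `p_{r²}(x, z) ≥ (B vol B(x, r))⁻¹` if `d(x, z) < r` -/
  lower : ∀ r, 0 < r → ∀ x, ∀ z ∈ D.ball M x r, 1 ≤ B * D.vb M x r * D.hk M (r ^ 2) x z
  /-- Bishop-Gromov -/
  bishop : ∀ x r R, 0 < r → r ≤ R → D.vb M x R ≤ (R / r) ^ (2 * m) * D.vb M x r ∧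
    D.vb M x r ≤ B * r ^ (2 * m)

/-- Cheeger-Colding, Cheeger-Colding-Tian, Anderson: `m` almost splitting functions whose
gradients, together with their rotations by `J`, span, make a non-collapsed ball nearly flat;
Schoen-Uhlenbeck: small energy regularity for holomorphic maps on nearly flat balls; interior
gradient estimate on nearly flat balls. -/
structure RegularityP : Prop where
  split : ∀ v C c : ℝ, 0 < v → 0 < C → 0 < c → ∃ r δ : ℝ, 0 < r ∧ r ≤ 1 ∧ 0 < δ ∧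
    ∀ M z (h : Fin m → D.F), v ≤ D.vb M z 1 →
      (∀ i, D.Sm M (h i) ∧ (∀ w ∈ D.ball M z 1, D.gr M (h i) (h i) w ≤ C) ∧
        D.intB M z 1 (D.hess M (h i)) ≤ δ) →
      D.vb M z 1 ≤ 2 * (D.vol M).real (D.ball M z 1 ∩ {w | c ≤ D.gram M h w}) →
      D.flat M z r
  energy : ∀ r, 0 < r → ∃ ε C : ℝ, 0 < ε ∧ 0 < C ∧ ∀ M z T, T ∈ D.fs M → D.flat M z r →
    D.intB M z r (fun w => (T w).trace.re) ≤ ε →
    (T z).trace.re ≤ C * D.intB M z r (fun w => (T w).trace.re)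
  interior : ∀ r, 0 < r → ∃ C, 0 < C ∧ ∀ M z f κ, D.Sm M f → D.flat M z r →
    (∀ w ∈ D.ball M z r, |D.la M f w| ≤ κ) →
    D.gr M f f z ≤ C * (κ + D.intB M z r (fun w => |f w|)) ^ 2

end Geo2

end Pool.Agent.SYP
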