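import Pool.Agent.SYM.RegData

/-!
# SYM/V3P/Short : shorthands for one metric
-/

set_option autoImplicit false

open MeasureTheory Set Filter
open scoped Topology ContDiff

namespace Pool.Agent.SYM

/-- the sequence `u` converges to `a` -/
abbrev Lim (u : ℕ → ℝ) (a : ℝ) : Prop := Tendsto u atTop (𝓝 a)

namespace Reg

variable (D : Reg)

/-- the real functions on `X` -/
abbrev F : Type := D.X → ℝ

/-- `f` is smooth -/
abbrev Sm (f : D.F) : Prop := f ∈ D.sm

/-- `f` is smooth with compact support -/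
abbrev Cs (f : D.F) : Prop := f ∈ D.cs

/-- `f` is smooth on the open set `U` (its values outside `U` do not matter) -/
abbrev SmOn (U : Set D.X) (f : D.F) : Prop := ∀ x ∈ U, ∃ h, D.Sm h ∧ h =ᶠ[𝓝 x] f

/-- `f` is continuous -/
abbrev Cont (f : D.F) : Prop := Continuous f

/-- `f` is bounded -/
abbrev Bdd (f : D.F) : Prop := ∃ M, ∀ x, |f x| ≤ M

/-- the integral of `f` over `X` -/
noncomputable abbrev int (f : D.F) : ℝ := ∫ x, f x ∂D.vol

/-- `f` is integrable -/
abbrev Int (f : D.F) : Prop := Integrable f D.vol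

/-- `F` is smooth on the open set `s`, in which `f` has its values -/
abbrev On (s : Set ℝ) (F : ℝ → ℝ) (f : D.F) : Prop :=
  IsOpen s ∧ ContDiffOn ℝ ∞ F s ∧ ∀ x, f x ∈ s

/-- `f` is an eigenfunction or `0`: `Δ f = - l f` -/
abbrev Eig (f : D.F) (l : ℝ) : Prop := ∀ x, D.lap f x = - l * f x

/-- the gradient of `f` is bounded -/
abbrev Lip (f : D.F) : Prop := ∃ K, ∀ x, D.gr f f x ≤ K

end Reg

end Pool.Agent.SYM
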