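import Pool.Agent.SYM.V3P.PubP
import Pool.Agent.SYM.V3P.ConeV

/-!
# SYM/V3P/SymV : projective primitive symplectic varieties
-/

set_option autoImplicit false

namespace Pool.Agent.SYM.V3P

/-- `Y` is a projective primitive symplectic variety: by Birkar, Cascini, Hacon and McKernan there is
a `ℚ`-factorial terminalization `π : X_i → Y`, which is a member of a locally trivial deformation
class `C` of primitive symplectic varieties. -/
def IsSymplectic (Y : KTriv.Var) : Prop :=
  ∃ (C : Fam) (P : ConeD C) (i : C.I) (a : C.V) (f : Fin Y.n → C.V),
    C.Published ∧ P.Facts ∧ P.Sym Y i a f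

end Pool.Agent.SYM.V3P
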